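import Pool.Agent.H50.CP.Defs

set_option autoImplicit false

/-!
# Rotating a half copy
-/

namespace Pool.Agent.H50.CP

open Pool.Agent.H90.Clone Pool.Agent.H21.Tri Complex Set Pointwise MeasureTheory Filter Topology

lemma ip_add_left (a b w : ℂ) : ip (a + b) w = ip a w + ip b w := by simp [ip]; ring
lemma ip_sub_left (a b w : ℂ) : ip (a - b) w = ip a w - ip b w := by simp [ip]; ring
lemma ip_smul_left (r : ℝ) (a w : ℂ) : ip ((r : ℂ) * a) w = r * ip a w := by simp [ip]; ring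

lemma ip_cont : Continuous fun z : ℂ × ℂ => ip z.1 z.2 := by
  unfold ip
  fun_prop

lemma ip_tendsto {α : Type} {l : Filter α} {f g : α → ℂ} {a b : ℂ} (hf : Tendsto f l (𝓝 a))
    (hg : Tendsto g l (𝓝 b)) : Tendsto (fun x => ip (f x) (g x)) l (𝓝 (ip a b)) :=
  (ip_cont.tendsto (a, b)).comp (hf.prodMk_nhds hg)

/-- strict separation of a point from a compact convex set by a unit vector -/
lemma sep_pt {F : Set ℂ} (hF : IsConvexFigure F) {z : ℂ} (hz : z ∉ F) :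
    ∃ v : ℂ, ‖v‖ = 1 ∧ ∀ y ∈ F, ip y v < ip z v := by
  obtain ⟨f, s, h1, h2⟩ := geometric_hahn_banach_closed_point hF.2.1 hF.1.isClosed hz
  set w : ℂ := ⟨f 1, f I⟩ with hw
  have hf : ∀ y, f y = ip y w := by
    intro y
    have e : y = y.re • (1 : ℂ) + y.im • I := by
      apply Complex.ext <;> simp
    conv_lhs => rw [e]
    rw [map_add, map_smul, map_smul]
    simp [ip, hw]
  have hw0 : w ≠ 0 := by
    intro h0
    obtain ⟨x, hx⟩ := hF.2.2
    have hx' := h1 x (interior_subset hx)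
    rw [hf, h0] at hx'
    rw [hf, h0] at h2
    simp [ip] at hx' h2
    linarith
  have hn : 0 < ‖w‖ := norm_pos_iff.mpr hw0
  refine ⟨((‖w‖⁻¹ : ℝ) : ℂ) * w, ?_, ?_⟩
  · rw [norm_mul, Complex.norm_real, Real.norm_eq_abs, abs_of_pos (inv_pos.mpr hn)]
    exact inv_mul_cancel₀ hn.ne'
  · intro y hy
    have h3 : f y < f z := (h1 y hy).trans h2
    rw [hf, hf] at h3
    have e : ∀ x, ip x (((‖w‖⁻¹ : ℝ) : ℂ) * w) = ‖w‖⁻¹ * ip x w := by
      intro x
      simp [ip]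
      ring
    rw [e, e]
    exact mul_lt_mul_of_pos_left h3 (inv_pos.mpr hn)

/-- the derivative of the rotation -/
lemma exp_slope {τ : ℕ → ℝ} (h0 : ∀ n, 0 < τ n) (h : Tendsto τ atTop (𝓝 0)) :
    Tendsto (fun n => ((τ n : ℝ) : ℂ)⁻¹ * (Complex.exp (τ n * I) - 1)) atTop (𝓝 I) := by
  have hd : HasDerivAt (fun t : ℝ => Complex.exp (t * I)) I 0 := by
    have h1 : HasDerivAt (fun t : ℝ => (t : ℂ) * I) (1 * I) 0 :=
      (Complex.ofRealCLM.hasDerivAt (x := (0 : ℝ))).mul_const I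
    have h2 := h1.cexp
    simpa using h2
  rw [hasDerivAt_iff_tendsto_slope_zero] at hd
  have h2 : Tendsto τ atTop (𝓝[≠] 0) := by
    rw [tendsto_nhdsWithin_iff]
    exact ⟨h, Eventually.of_forall fun n => (h0 n).ne'⟩
  have h3 := hd.comp h2
  refine h3.congr fun n => ?_
  simp

lemma exp_tend {τ : ℕ → ℝ} (h : Tendsto τ atTop (𝓝 0)) :
    Tendsto (fun n => Complex.exp (τ n * I)) atTop (𝓝 1) := by
  have hc : Continuous fun t : ℝ => Complex.exp (t * I) := by fun_prop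
  have := (hc.tendsto 0).comp h
  simpa [Function.comp_def] using this

lemma seq_of {P : ℝ → Prop} (h : ¬ ∃ τ₀ : ℝ, 0 < τ₀ ∧ ∀ τ, 0 < τ → τ < τ₀ → P τ) :
    ∃ τ : ℕ → ℝ, (∀ n, 0 < τ n) ∧ Tendsto τ atTop (𝓝 0) ∧ ∀ n, ¬ P (τ n) := by
  push Not at h
  have h' : ∀ n : ℕ, ∃ τ, 0 < τ ∧ τ < 1 / ((n : ℝ) + 1) ∧ ¬ P τ := fun n => by
    obtain ⟨t, h1, h2, h3⟩ := h (1 / ((n : ℝ) + 1)) (by positivity)
    exact ⟨t, h1, h2, h3⟩
  choose τ h1 h2 h3 using h'
  refine ⟨τ, h1, ?_, h3⟩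
  exact squeeze_zero (fun n => (h1 n).le) (fun n => (h2 n).le) tendsto_one_div_add_atTop_nhds_zero_nat

/-- Let `p`, `q0` be support points of `F` in the directions `d`, `-d`. The copy
`p - τ c + (1/2 + τ²) e^{iτ} (F - p)` and the homothetic copy `(1/2 + τ²) F + (1/2 - τ²) q0` show
that two copies of scale `> 1/2` fit, if the hypotheses `ha`, `hb` hold. -/
theorem rot_gain {F : Set ℂ} (hF : IsConvexFigure F) {p q0 d c : ℂ} (hp : p ∈ F) (hq0 : q0 ∈ F)
    (hd : d ≠ 0) (hpd : ∀ x ∈ F, ip x d ≤ ip p d) (hqd : ∀ x ∈ F, ip q0 d ≤ ip x d)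
    (ha : ∀ q ∈ F, ip q d = ip q0 d → ip c d < ip (p - q) (I * d) / 2)
    (hb : ∀ v : ℂ, ‖v‖ = 1 → (∀ x ∈ F, ip x v ≤ ip p v) → ∀ f ∈ F, ip f v = ip p v →
      ip (I * (f - p)) v / 2 < ip c v) :
    Two F := by
  have hcF := hF.1
  -- the moving point
  set Z : ℝ → ℂ → ℂ := fun τ x =>
    p - (τ : ℂ) * c + ((1 / 2 + τ ^ 2 : ℝ) : ℂ) * (Complex.exp (τ * I) * (x - p)) with hZ
  have hZlim : ∀ (τ : ℕ → ℝ) (x : ℕ → ℂ) (f : ℂ), Tendsto τ atTop (𝓝 0) → Tendsto x atTop (𝓝 f) →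
      Tendsto (fun n => Z (τ n) (x n)) atTop (𝓝 (p + ((1 / 2 : ℝ) : ℂ) * (f - p))) := by
    intro τ x f hτ hx
    have hτC : Tendsto (fun n => ((τ n : ℝ) : ℂ)) atTop (𝓝 0) := by
      have := (Complex.continuous_ofReal.tendsto 0).comp hτ
      simpa [Function.comp_def] using this
    have e1 : Tendsto (fun n => ((1 / 2 + τ n ^ 2 : ℝ) : ℂ)) atTop (𝓝 ((1 / 2 : ℝ) : ℂ)) := by
      have : Tendsto (fun n => (1 / 2 + τ n ^ 2 : ℝ)) atTop (𝓝 (1 / 2 + 0 ^ 2)) :=
        tendsto_const_nhds.add (hτ.pow 2)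
      have h2 := (Complex.continuous_ofReal.tendsto _).comp this
      simpa [Function.comp_def] using h2
    have e2 := (exp_tend hτ).mul (hx.sub_const p)
    have e3 := ((hτC.mul_const c).const_sub p).add (e1.mul e2)
    simpa [hZ] using e3
  -- claim 1
  have claim1 : ∃ τ₀ : ℝ, 0 < τ₀ ∧ ∀ τ, 0 < τ → τ < τ₀ → ∀ x ∈ F, Z τ x ∈ F := by
    by_contra hcon
    obtain ⟨τ, hτ0, hτ, hn⟩ := seq_of hcon
    push Not at hn
    choose x hxF hxZ using hn
    choose v hv1 hv2 using fun n => sep_pt hF (hxZ n)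
    obtain ⟨⟨f, w⟩, hfw, φ, hφ, hlim⟩ := (hcF.prod (isCompact_sphere (0 : ℂ) 1)).tendsto_subseq
      (x := fun n => (x n, v n)) (fun n => ⟨hxF n, by simpa using hv1 n⟩)
    obtain ⟨hfF, hw⟩ := hfw
    have hx' : Tendsto (x ∘ φ) atTop (𝓝 f) := (continuous_fst.tendsto (f, w)).comp hlim
    have hv' : Tendsto (v ∘ φ) atTop (𝓝 w) := (continuous_snd.tendsto (f, w)).comp hlim
    have hτ' : Tendsto (τ ∘ φ) atTop (𝓝 0) := hτ.comp hφ.tendsto_atTop
    have hw1 : ‖w‖ = 1 := by simpa using hw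
    have hall : ∀ y ∈ F, ip y w ≤ ip (p + ((1 / 2 : ℝ) : ℂ) * (f - p)) w := by
      intro y hy
      apply le_of_tendsto_of_tendsto' (ip_tendsto tendsto_const_nhds hv')
        (ip_tendsto (hZlim _ _ f hτ' hx') hv')
      intro n
      exact (hv2 (φ n) y hy).le
    have hp1 := hall p hp
    have hf1 := hall f hfF
    rw [ip_add_left, ip_smul_left, ip_sub_left] at hp1 hf1
    have hfp : ip f w = ip p w := by linarith
    have hpw : ∀ y ∈ F, ip y w ≤ ip p w := by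
      intro y hy
      have := hall y hy
      rw [ip_add_left, ip_smul_left, ip_sub_left, hfp] at this
      linarith
    have hbb := hb w hw1 hpw f hfF hfp
    have hineq : ∀ n, 0 ≤ -ip c (v n) + (1 / 2) * ip ((((τ n : ℝ) : ℂ)⁻¹ *
        (Complex.exp (τ n * I) - 1)) * (x n - p)) (v n) +
        τ n * ip (Complex.exp (τ n * I) * (x n - p)) (v n) := by
      intro n
      have hmid : ((1 / 2 : ℝ) : ℂ) * p + ((1 / 2 : ℝ) : ℂ) * x n ∈ F := by
        have := hF.2.1 hp (hxF n) (show (0 : ℝ) ≤ 1 / 2 by norm_num)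
          (show (0 : ℝ) ≤ 1 / 2 by norm_num) (by norm_num)
        simpa only [real_smul] using this
      have h1 := hv2 n _ hmid
      have hτn := hτ0 n
      have hτC : ((τ n : ℝ) : ℂ) ≠ 0 := by exact_mod_cast hτn.ne'
      have e : Z (τ n) (x n) - (((1 / 2 : ℝ) : ℂ) * p + ((1 / 2 : ℝ) : ℂ) * x n) =
          ((τ n : ℝ) : ℂ) * (((-1 : ℝ) : ℂ) * c + ((1 / 2 : ℝ) : ℂ) * ((((τ n : ℝ) : ℂ)⁻¹ *
            (Complex.exp (τ n * I) - 1)) * (x n - p)) +
            ((τ n : ℝ) : ℂ) * (Complex.exp (τ n * I) * (x n - p))) := by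
        simp only [hZ]
        push_cast
        field_simp
        ring
      have h2 : 0 < ip (Z (τ n) (x n) - (((1 / 2 : ℝ) : ℂ) * p + ((1 / 2 : ℝ) : ℂ) * x n)) (v n) := by
        rw [ip_sub_left]
        linarith
      rw [e, ip_smul_left, ip_add_left, ip_add_left, ip_smul_left, ip_smul_left, ip_smul_left] at h2
      have h3 := pos_of_mul_pos_right h2 hτn.le
      linarith
    have hL : Tendsto (fun n => -ip c (v (φ n)) + (1 / 2) * ip ((((τ (φ n) : ℝ) : ℂ)⁻¹ *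
        (Complex.exp (τ (φ n) * I) - 1)) * (x (φ n) - p)) (v (φ n)) +
        τ (φ n) * ip (Complex.exp (τ (φ n) * I) * (x (φ n) - p)) (v (φ n))) atTop
        (𝓝 (-ip c w + (1 / 2) * ip (I * (f - p)) w + 0 * ip (1 * (f - p)) w)) := by
      have e1 := exp_slope (τ := τ ∘ φ) (fun n => hτ0 _) hτ'
      have e2 := exp_tend hτ'
      exact (((ip_tendsto tendsto_const_nhds hv').neg).add
        ((ip_tendsto (e1.mul (hx'.sub_const p)) hv').const_mul (1 / 2))).add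
        (hτ'.mul (ip_tendsto (e2.mul (hx'.sub_const p)) hv'))
    have hge := ge_of_tendsto' hL (fun n => hineq (φ n))
    linarith
  -- claim 2
  have claim2 : ∃ τ₀ : ℝ, 0 < τ₀ ∧ ∀ τ, 0 < τ → τ < τ₀ → ∀ x ∈ F,
      (1 / 2 + τ ^ 2) * ip p d + (1 / 2 - τ ^ 2) * ip q0 d ≤ ip (Z τ x) d := by
    by_contra hcon
    obtain ⟨τ, hτ0, hτ, hn⟩ := seq_of hcon
    push Not at hn
    choose x hxF hxZ using hn
    obtain ⟨f, hfF, φ, hφ, hx'⟩ := hcF.tendsto_subseq (x := x) hxF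
    have hτ' : Tendsto (τ ∘ φ) atTop (𝓝 0) := hτ.comp hφ.tendsto_atTop
    have hfq : ip f d = ip q0 d := by
      have h1 : ip (p + ((1 / 2 : ℝ) : ℂ) * (f - p)) d ≤
          (1 / 2 + 0 ^ 2) * ip p d + (1 / 2 - 0 ^ 2) * ip q0 d := by
        apply le_of_tendsto_of_tendsto' (ip_tendsto (hZlim _ _ f hτ' hx') tendsto_const_nhds)
          (((tendsto_const_nhds.add (hτ'.pow 2)).mul_const _).add
            ((tendsto_const_nhds.sub (hτ'.pow 2)).mul_const _))
        intro n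
        exact (hxZ (φ n)).le
      rw [ip_add_left, ip_smul_left, ip_sub_left] at h1
      have h2 := hqd f hfF
      linarith
    have haa := ha f hfF hfq
    have hineq : ∀ n, 0 ≤ ip c d + 2 * τ n * (ip p d - ip q0 d) -
        (1 / 2 + τ n ^ 2) * ip ((((τ n : ℝ) : ℂ)⁻¹ *
        (Complex.exp (τ n * I) - 1)) * (x n - p)) d := by
      intro n
      have h1 := hxZ n
      have h0 := hqd (x n) (hxF n)
      have hτn := hτ0 n
      have hτC : ((τ n : ℝ) : ℂ) ≠ 0 := by exact_mod_cast hτn.ne'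
      have e : Z (τ n) (x n) = p + ((-τ n : ℝ) : ℂ) * c + ((1 / 2 + τ n ^ 2 : ℝ) : ℂ) * (x n - p) +
          ((τ n * (1 / 2 + τ n ^ 2) : ℝ) : ℂ) * ((((τ n : ℝ) : ℂ)⁻¹ *
            (Complex.exp (τ n * I) - 1)) * (x n - p)) := by
        simp only [hZ]
        push_cast
        field_simp
        ring
      rw [e, ip_add_left, ip_add_left, ip_add_left, ip_smul_left, ip_smul_left, ip_smul_left,
        ip_sub_left] at h1
      set W := ip ((((τ n : ℝ) : ℂ)⁻¹ * (Complex.exp (τ n * I) - 1)) * (x n - p)) d with hW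
      have h2 : (1 / 2 + τ n ^ 2) * ip q0 d ≤ (1 / 2 + τ n ^ 2) * ip (x n) d :=
        mul_le_mul_of_nonneg_left h0 (by positivity)
      have h3 : 0 < τ n * (ip c d + 2 * τ n * (ip p d - ip q0 d) - (1 / 2 + τ n ^ 2) * W) := by
        nlinarith
      exact (pos_of_mul_pos_right h3 hτn.le).le
    have hL : Tendsto (fun n => ip c d + 2 * τ (φ n) * (ip p d - ip q0 d) -
        (1 / 2 + τ (φ n) ^ 2) * ip ((((τ (φ n) : ℝ) : ℂ)⁻¹ *
        (Complex.exp (τ (φ n) * I) - 1)) * (x (φ n) - p)) d) atTop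
        (𝓝 (ip c d + 2 * 0 * (ip p d - ip q0 d) - (1 / 2 + 0 ^ 2) * ip (I * (f - p)) d)) := by
      have e1 := exp_slope (τ := τ ∘ φ) (fun n => hτ0 _) hτ'
      exact (tendsto_const_nhds.add ((hτ'.const_mul 2).mul_const _)).sub
        ((tendsto_const_nhds.add (hτ'.pow 2)).mul
          (ip_tendsto (e1.mul (hx'.sub_const p)) tendsto_const_nhds))
    have hge := ge_of_tendsto' hL (fun n => hineq (φ n))
    have hip : ip (p - f) (I * d) = ip (I * (f - p)) d := by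
      simp [ip]
      ring
    rw [hip] at haa
    linarith
  obtain ⟨t1, ht1, h1⟩ := claim1
  obtain ⟨t2, ht2, h2⟩ := claim2
  set τ := min (min t1 t2) (1 / 2) / 2 with hτ
  have hτ0 : 0 < τ := by positivity
  have hm1 : min (min t1 t2) (1 / 2) ≤ t1 := (min_le_left _ _).trans (min_le_left _ _)
  have hm2 : min (min t1 t2) (1 / 2) ≤ t2 := (min_le_left _ _).trans (min_le_right _ _)
  have hm3 : min (min t1 t2) (1 / 2) ≤ 1 / 2 := min_le_right _ _
  have hτ1 : τ < t1 := by linarith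
  have hτ2 : τ < t2 := by linarith
  have hτ3 : τ ≤ 1 / 4 := by linarith
  have hτs : τ ^ 2 ≤ 1 / 16 := by nlinarith
  set r := 1 / 2 + τ ^ 2 with hr
  have hr0 : 0 < r := by positivity
  have hew : ‖Complex.exp (τ * I)‖ = 1 := Complex.norm_exp_ofReal_mul_I τ
  refine ⟨r, (fun x => Z τ x) '' F, (fun x => (r : ℂ) * x + ((1 - r : ℝ) : ℂ) * q0) '' F,
    by rw [hr]; nlinarith [pow_pos hτ0 2], ?_, ?_, ?_, ?_, ?_⟩
  · refine ⟨(rotation ⟨Complex.exp (τ * I), mem_sphere_zero_iff_norm.mpr hew⟩).toIsometryEquiv.trans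
      (IsometryEquiv.addRight (p - (τ : ℂ) * c - (r : ℂ) * (Complex.exp (τ * I) * p))), ?_⟩
    rw [← image_smul, image_image]
    apply image_congr
    intro x _
    change Z τ x = Complex.exp (τ * I) * (r • x) + (p - (τ : ℂ) * c - (r : ℂ) * (Complex.exp (τ * I) * p))
    simp only [hZ, real_smul]
    rw [← hr]
    ring
  · refine ⟨IsometryEquiv.addRight (((1 - r : ℝ) : ℂ) * q0), ?_⟩
    rw [← image_smul, image_image]
    apply image_congr
    intro x _
    simp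
  · rintro _ ⟨x, hx, rfl⟩
    exact h1 τ hτ0 hτ1 x hx
  · rintro _ ⟨x, hx, rfl⟩
    have := hF.2.1 hx hq0 hr0.le (show 0 ≤ 1 - r by rw [hr]; linarith) (by ring)
    simpa only [real_smul] using this
  · -- separation by `ip · d`
    have hlin : ∃ g : ℂ →L[ℝ] ℝ, ∀ z, g z = ip z d := by
      refine ⟨d.re • Complex.reCLM + d.im • Complex.imCLM, fun z => ?_⟩
      simp [ip]
      ring
    obtain ⟨g, hg⟩ := hlin
    have hg0 : g ≠ 0 := by
      rintro rfl
      have h3 := hg d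
      have h4 : ip d d = 0 := by rw [← h3]; rfl
      apply hd
      unfold ip at h4
      apply Complex.ext
      · simp
        nlinarith [sq_nonneg d.re, sq_nonneg d.im]
      · simp
        nlinarith [sq_nonneg d.re, sq_nonneg d.im]
    refine SepSets.symm ⟨g, (1 / 2 + τ ^ 2) * ip p d + (1 / 2 - τ ^ 2) * ip q0 d, hg0, ?_, ?_⟩
    · rintro _ ⟨x, hx, rfl⟩
      rw [hg, ip_add_left, ip_smul_left, ip_smul_left, ← hr]
      have h3 := mul_le_mul_of_nonneg_left (hpd x hx) hr0.le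
      have h4 : 1 / 2 - τ ^ 2 = 1 - r := by rw [hr]; ring
      rw [h4]
      linarith
    · rintro _ ⟨x, hx, rfl⟩
      rw [hg]
      exact h2 τ hτ0 hτ2 x hx

end Pool.Agent.H50.CP
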