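import Pool.Agent.H50.CP.Defs

set_option autoImplicit false

/-!
# From packings of copies to admissible numbers, and back (row CP Adm)

PROOFS.
* `pack_conv`: `Pack T Q (L.map ((1+ε) * ·))` gives a list `A` with `Forall₂ (IsCopy T) (L.map ..) A`, all in `Q`,
  pairwise `SepSets`. For a copy `S = g '' (((1+ε) c) • T)` put `S' = {g (z + k) ...}`: from `F ⊆ o' + (1+ε) T`
  one has `c • F ⊆ c • o' + ((1+ε) c) • T`, so with `g' = (IsometryEquiv.addRight (-(c • o'))).trans g` the copy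
  `g' '' (c • F)` of `F` lies in `S`. Build the new list by induction on `Forall₂`; `SepSets.mono` (see Geom.lean
  / Basic.lean of H90/H21) for the separation, `⊆` for the containment.
* `adm_of_pack`: copy of `admissible_of_pack` in `Pool/Agent/H21/Tri/Adm.lean` (sorted_list, assign, scaleIso,
  area_clone, SepSets.disjoint) with `Tri 0 u v` replaced by `F`, `ε = 0`, no translation (`o = o' = 0`): container
  `s • F` with `s² area F = 1/θ`.
* `two_of_adm`: apply `h` to the two clones `c • F`, `c = sqrt (1 / (2 area F))` (area `1/2` each); the container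
  is `g '' (s • F)` with `s² area F = σ < 2 = (2c)² area F`, so `r = c / s > 1/2`; pull back by `g` and scale by
  `1/s` (`scaleIso`), get two copies of `F` of scale `c/s` in `F` with disjoint interiors, and
  `sep_of_disjoint` (H21/Tri/Final.lean) gives `SepSets`. See `equi_lower` there for the same computation.
  (If `σ ≤ 0` the hypothesis is contradictory, as the container has positive area: `area_pos`, `area_clone`.)
* `adm_translate`: every clone `g '' (c • F)` of `F` is a clone of `F + a` (compose `g` with a translation) and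
  conversely, and areas do not change.
-/

namespace Pool.Agent.H50.CP

open Pool.Agent.H90.Clone Pool.Agent.H21.Tri Complex Set Pointwise MeasureTheory

private lemma adm_conv_one {T F : Set ℂ} {o' : ℂ} {ε : ℝ} (hF : F ⊆ hom o' ε T) {c : ℝ} {S : Set ℂ}
    (h : IsCopy T ((1 + ε) * c) S) : ∃ S', IsCopy F c S' ∧ S' ⊆ S := by
  obtain ⟨g, rfl⟩ := h
  refine ⟨((IsometryEquiv.addRight (-(c • o'))).trans g) '' (c • F), ⟨_, rfl⟩, ?_⟩
  rintro _ ⟨_, ⟨f, hf, rfl⟩, rfl⟩
  obtain ⟨z, hz, hzf⟩ := hF hf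
  refine ⟨((1 + ε) * c) • z, ⟨z, hz, rfl⟩, ?_⟩
  have e1 : ((IsometryEquiv.addRight (-(c • o'))).trans g) (c • f) = g (c • f + -(c • o')) := rfl
  change g (((1 + ε) * c) • z) = ((IsometryEquiv.addRight (-(c • o'))).trans g) (c • f)
  rw [e1, ← hzf]
  apply congrArg g
  simp only [real_smul]
  push_cast
  ring

private lemma adm_conv_list {T F : Set ℂ} {o' : ℂ} {ε : ℝ} (hF : F ⊆ hom o' ε T) :
    ∀ (L : List ℝ) (A : List (Set ℂ)),
      List.Forall₂ (IsCopy T) (L.map fun c => (1 + ε) * c) A → A.Pairwise SepSets →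
      ∃ A' : List (Set ℂ), List.Forall₂ (IsCopy F) L A' ∧ (∀ S' ∈ A', ∃ S ∈ A, S' ⊆ S) ∧
        A'.Pairwise SepSets := by
  intro L
  induction L with
  | nil =>
    intro A _ _
    exact ⟨[], List.Forall₂.nil, by simp, List.Pairwise.nil⟩
  | cons c L ih =>
    intro A hA hp
    rw [List.map_cons] at hA
    obtain ⟨S, A0, hS, hA0, rfl⟩ := List.forall₂_cons_left_iff.mp hA
    obtain ⟨S', hS', hSS⟩ := adm_conv_one hF hS
    rw [List.pairwise_cons] at hp
    obtain ⟨A', b1, b2, b3⟩ := ih A0 hA0 hp.2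
    refine ⟨S' :: A', List.Forall₂.cons hS' b1, ?_, ?_⟩
    · intro X hX
      rcases List.mem_cons.mp hX with rfl | hX
      · exact ⟨S, List.mem_cons_self, hSS⟩
      · obtain ⟨Y, hY, hXY⟩ := b2 X hX
        exact ⟨Y, List.mem_cons_of_mem _ hY, hXY⟩
    · rw [List.pairwise_cons]
      refine ⟨?_, b3⟩
      intro X hX
      obtain ⟨Y, hY, hXY⟩ := b2 X hX
      exact (hp.1 Y hY).mono hSS hXY

/-- Copies of `T` of the scales `(1 + ε) c` contain copies of `F` of the scales `c`. -/
theorem pack_conv {T F Q : Set ℂ} {o' : ℂ} {ε : ℝ} (hε : 0 ≤ ε) (hF : F ⊆ hom o' ε T) (L : List ℝ)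
    (hpos : ∀ c ∈ L, 0 < c) (h : Pack T Q (L.map fun c => (1 + ε) * c)) : Pack F Q L := by
  obtain ⟨A, a1, a2, a3⟩ := h
  obtain ⟨A', b1, b2, b3⟩ := adm_conv_list hF L A a1 a3
  refine ⟨A', b1, ?_, b3⟩
  intro S' hS'
  obtain ⟨S, hS, hSS⟩ := b2 S' hS'
  exact hSS.trans (a2 S hS)

/-- a packing theorem for copies of `F` in `F` gives an admissible number -/
theorem adm_of_pack {F : Set ℂ} (hF : IsConvexFigure F) {θ : ℝ} (hθ : 0 < θ)
    (H : ∀ L : List ℝ, L.Pairwise (fun a b => b ≤ a) → (∀ c ∈ L, 0 < c) → sqs L ≤ θ → Pack F F L) :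
    Admissible F (1 / θ) := by
  have hAF := area_pos hF
  set σ := 1 / θ with hσ
  have hσ0 : 0 < σ := by positivity
  intro n G hG hsum
  choose c g hc hg using hG
  set s := Real.sqrt (σ / area F) with hs
  have hs0 : 0 < s := Real.sqrt_pos.mpr (by positivity)
  have hs2 : s ^ 2 = σ / area F := Real.sq_sqrt (by positivity)
  have hsum' : (∑ i, c i ^ 2) * area F = 1 := by
    rw [← hsum, Finset.sum_mul]
    apply Finset.sum_congr rfl
    intro i _
    rw [hg i, area_clone]
  set c' : Fin n → ℝ := fun i => c i / s with hc'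
  have hc'0 : ∀ i, 0 < c' i := fun i => div_pos (hc i) hs0
  obtain ⟨l, _, hl, hpw, hsq⟩ := sorted_list c'
  have hP : Pack F F (l.map c') := by
    apply H
    · rw [List.pairwise_map]
      exact hpw
    · intro x hx
      obtain ⟨i, _, rfl⟩ := List.mem_map.mp hx
      exact hc'0 i
    · have e0 : sqs (l.map c') = sq c' l := by
        rw [sqs, List.map_map]
        rfl
      rw [e0, hsq]
      have e1 : ∀ i, c' i ^ 2 = (1 / s ^ 2) * c i ^ 2 := by
        intro i
        rw [hc', div_pow]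
        ring
      simp only [e1]
      rw [← Finset.mul_sum]
      have e2 : ∑ i, c i ^ 2 = 1 / area F := by
        field_simp
        exact hsum'
      rw [e2, hs2, hσ]
      apply le_of_eq
      field_simp
  obtain ⟨S, hS, hSQ, hsep⟩ := assign c' l hl hP
  choose h hh using hS
  set t : Fin n → (ℂ ≃ᵢ ℂ) := fun i => scaleIso s hs0.ne' (h i) with ht
  have ht_apply : ∀ i z, t i z = s • h i (s⁻¹ • z) := fun i z => rfl
  have himg : ∀ i, ∀ z ∈ (t i) '' (c i • F), ∃ y ∈ S i, z = s • y := by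
    rintro i _ ⟨_, ⟨f, hf, rfl⟩, rfl⟩
    refine ⟨h i (s⁻¹ • (c i • f)), ?_, ht_apply i _⟩
    rw [hh i]
    refine ⟨c' i • f, ⟨f, hf, rfl⟩, ?_⟩
    apply congrArg (h i)
    rw [hc', smul_smul]
    congr 1
    field_simp
  have hrefl : (IsometryEquiv.refl ℂ) '' (s • F) = s • F := image_id _
  refine ⟨s • F, ⟨s, IsometryEquiv.refl ℂ, hs0, hrefl.symm⟩, ?_, ?_⟩
  · have := area_clone (IsometryEquiv.refl ℂ) (c := s) F
    rw [hrefl] at this
    rw [this, hs2]
    field_simp
  · have hcomp : ∀ i, ((g i).symm.trans (t i)) '' G i = (t i) '' (c i • F) := by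
      intro i
      rw [hg i, image_image]
      apply image_congr
      intro z _
      simp
    refine ⟨fun i => (g i).symm.trans (t i), ?_, ?_⟩
    · intro i
      rw [hcomp i]
      intro z hz
      obtain ⟨y, hy, rfl⟩ := himg i z hz
      exact ⟨y, hSQ i hy, rfl⟩
    · intro i j hij
      simp only [hcomp]
      apply SepSets.disjoint
      obtain ⟨f, a, hf, h1, h2⟩ := hsep i j hij
      refine ⟨f, s * a, hf, ?_, ?_⟩
      · intro z hz
        obtain ⟨y, hy, rfl⟩ := himg i z hz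
        rw [map_smul, smul_eq_mul]
        exact mul_le_mul_of_nonneg_left (h1 y hy) hs0.le
      · intro z hz
        obtain ⟨y, hy, rfl⟩ := himg j z hz
        rw [map_smul f s y, smul_eq_mul]
        exact mul_le_mul_of_nonneg_left (h2 y hy) hs0.le

private lemma adm_iso_interior (k : ℂ ≃ᵢ ℂ) (A : Set ℂ) :
    interior (k '' A) = k '' interior A := by
  have a1 := (k.toHomeomorph).image_interior A
  simp only [IsometryEquiv.coe_toHomeomorph] at a1
  exact a1.symm

/-- an admissible number below `2` gives two copies of scale `> 1/2` -/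
theorem two_of_adm {F : Set ℂ} (hF : IsConvexFigure F) {σ : ℝ} (hσ : σ < 2)
    (h : Admissible F σ) : Two F := by
  have hAF := area_pos hF
  set c := Real.sqrt (1 / (2 * area F)) with hcd
  have hc : 0 < c := Real.sqrt_pos.mpr (by positivity)
  have hc2 : c ^ 2 = 1 / (2 * area F) := Real.sq_sqrt (by positivity)
  have hrefl : (IsometryEquiv.refl ℂ) '' (c • F) = c • F := image_id _
  have harea : area (c • F) = 1 / 2 := by
    have := area_clone (IsometryEquiv.refl ℂ) (c := c) F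
    rw [hrefl] at this
    rw [this, hc2]
    field_simp
  obtain ⟨Q, ⟨s, g, hs, rfl⟩, hQ, hpack⟩ := h 2 (fun _ => c • F)
    (fun _ => ⟨c, IsometryEquiv.refl ℂ, hc, hrefl.symm⟩) (by simp [harea])
  obtain ⟨h, hin, hdis⟩ := hpack
  rw [area_clone] at hQ
  have hlt : s < 2 * c := by
    have h6 : (2 * c) ^ 2 * area F = 2 := by
      rw [mul_pow, hc2]
      field_simp
    have h7 : s ^ 2 * area F < (2 * c) ^ 2 * area F := by rw [h6, hQ]; exact hσ
    have h8 : s ^ 2 < (2 * c) ^ 2 := lt_of_mul_lt_mul_right h7 hAF.le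
    exact lt_of_pow_lt_pow_left₀ 2 (by positivity) h8
  have hsi : s⁻¹ ≠ 0 := inv_ne_zero hs.ne'
  set k : Fin 2 → (ℂ ≃ᵢ ℂ) := fun i => scaleIso s⁻¹ hsi ((h i).trans g.symm) with hk
  have hk_apply : ∀ i z, k i z = s⁻¹ • g.symm (h i (s • z)) := by
    intro i z
    have e := scaleIso_apply s⁻¹ hsi ((h i).trans g.symm) z
    rw [inv_inv] at e
    exact e
  have himg : ∀ i, k i '' ((c / s) • F) = s⁻¹ • (g.symm '' (h i '' (c • F))) := by
    intro i
    ext z
    constructor
    · rintro ⟨_, ⟨f, hf, rfl⟩, rfl⟩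
      refine ⟨g.symm (h i (c • f)), ⟨_, ⟨_, ⟨f, hf, rfl⟩, rfl⟩, rfl⟩, ?_⟩
      change s⁻¹ • g.symm (h i (c • f)) = k i ((c / s) • f)
      rw [hk_apply, smul_smul, mul_div_cancel₀ c hs.ne']
    · rintro ⟨_, ⟨_, ⟨_, ⟨f, hf, rfl⟩, rfl⟩, rfl⟩, rfl⟩
      refine ⟨(c / s) • f, ⟨f, hf, rfl⟩, ?_⟩
      change k i ((c / s) • f) = s⁻¹ • g.symm (h i (c • f))
      rw [hk_apply, smul_smul, mul_div_cancel₀ c hs.ne']
  have hsub : ∀ i, k i '' ((c / s) • F) ⊆ F := by
    intro i
    rw [himg]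
    rintro _ ⟨_, ⟨z, hz, rfl⟩, rfl⟩
    obtain ⟨_, ⟨f, hf, rfl⟩, hw⟩ := hin i hz
    change s⁻¹ • g.symm z ∈ F
    rw [← hw, IsometryEquiv.symm_apply_apply]
    change s⁻¹ • (s • f) ∈ F
    rw [smul_smul, inv_mul_cancel₀ hs.ne', one_smul]
    exact hf
  have hcs : 0 < c / s := div_pos hc hs
  have hint : ∀ i, (interior (k i '' ((c / s) • F))).Nonempty := by
    intro i
    rw [adm_iso_interior, interior_smul₀ hcs.ne']
    exact (hF.2.2.smul_set (a := c / s)).image _
  have hconv : ∀ i, Convex ℝ (k i '' ((c / s) • F)) := by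
    intro i
    have hcopy : IsCopy F (c / s) (k i '' ((c / s) • F)) := ⟨k i, rfl⟩
    exact hcopy.convex hF.2.1
  have hdis' : Disjoint (interior (k 0 '' ((c / s) • F))) (interior (k 1 '' ((c / s) • F))) := by
    have h01 := hdis 0 1 (by decide)
    have h02 := (Set.disjoint_image_iff g.symm.injective).mpr h01
    have e : ∀ i, interior (k i '' ((c / s) • F)) = s⁻¹ • (g.symm '' interior (h i '' (c • F))) := by
      intro i
      rw [himg, interior_smul₀ hsi, adm_iso_interior g.symm]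
    rw [e, e]
    exact (Set.disjoint_image_iff (smul_right_injective ℂ hsi)).mpr h02
  have hsep := sep_of_disjoint (hconv 0) (hconv 1) (hint 0) (hint 1) hdis'
  refine ⟨c / s, k 0 '' ((c / s) • F), k 1 '' ((c / s) • F), ?_, ⟨k 0, rfl⟩, ⟨k 1, rfl⟩,
    hsub 0, hsub 1, hsep⟩
  rw [lt_div_iff₀ hs]
  linarith

private lemma adm_clone_add {F : Set ℂ} (a : ℂ) (c : ℝ) (g : ℂ ≃ᵢ ℂ) :
    g '' (c • ((fun z => z + a) '' F)) =
      ((IsometryEquiv.addRight (c • a)).trans g) '' (c • F) := by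
  ext z
  constructor
  · rintro ⟨_, ⟨_, ⟨f, hf, rfl⟩, rfl⟩, rfl⟩
    refine ⟨c • f, ⟨f, hf, rfl⟩, ?_⟩
    change g (c • f + c • a) = g (c • (f + a))
    rw [smul_add]
  · rintro ⟨_, ⟨f, hf, rfl⟩, rfl⟩
    refine ⟨c • (f + a), ⟨f + a, ⟨f, hf, rfl⟩, rfl⟩, ?_⟩
    change g (c • (f + a)) = g (c • f + c • a)
    rw [smul_add]

/-- translations do not change the admissible numbers -/
theorem adm_translate {F : Set ℂ} {σ : ℝ} (a : ℂ) (h : Admissible ((fun z => z + a) '' F) σ) :
    Admissible F σ := by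
  intro n G hG hsum
  have hG' : ∀ i, IsClone ((fun z => z + a) '' F) (G i) := by
    intro i
    obtain ⟨c, g, hc, hg⟩ := hG i
    refine ⟨c, (IsometryEquiv.addRight (-(c • a))).trans g, hc, ?_⟩
    rw [adm_clone_add, hg]
    apply image_congr
    intro z _
    change g z = g (z + c • a + -(c • a))
    rw [add_neg_cancel_right]
  obtain ⟨Q, ⟨s, g, hs, rfl⟩, hQ, hpack⟩ := h n G hG' hsum
  exact ⟨_, ⟨s, (IsometryEquiv.addRight (s • a)).trans g, hs, adm_clone_add a s g⟩, hQ, hpack⟩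

end Pool.Agent.H50.CP
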