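import Pool.Agent.H50.CP.Corner

set_option autoImplicit false

/-!
# A vertex near a corner of the square (row CP SqCorner: prove `sq_corner`; `corner_abs` of Corner.lean may be used)

PROOF. Let `s = ‖u‖`, `n = u/s`, so `I n = I u / s`; `h = min (1/2) (η/2)`, `t = 1 - h`, `ε₀ = h²/1000`;
`d = n + t I n`, `m = n + I n`, `κ = h s / 5`, `ρ = h/10`, `δ = 2 ε s`; `y = o + u + I u`. Frame, coordinates and the
bounds `hcoord`, `hmax`, `hmin` are exactly those of the proof of `sq_edge` in SqEdge.lean (there `t` is small, here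
`1/2 ≤ t < 1`, so `ε/t ≤ 2 ε`). Put `A z = ip z n - ip o n`, `B z = ip z (I n) - ip o (I n)`: `-ε s ≤ A, B ≤ (1+ε) s` on `F`.
A maximiser `p` of `ip · d`: `A p ≥ s - t ε s`, `B p ≥ s - (ε/t) s ≥ s - 2 ε s`, so `‖p - y‖ ≤ 4 ε s ≤ η s`.
A minimiser `q`: `A q ≤ ε s`, `B q ≤ 2 ε s`. `corner_abs`:
* h1: `I d = I n - t n`, `ip (p-q) (I d) = (B p - B q) - t (A p - A q) ≥ (s - 4 ε s) - t (s + 2 ε s) ≥ (h - 6 ε) s`, and
  `κ ip m d = κ (1 + t) ≤ 2 κ = 2 h s/5 < (h - 6 ε) s/2`.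
* h3: `ip (x - p) n = A x - A p ≤ 2 ε s = δ`; and `2 δ = 4 ε s ≤ ρ κ = h² s/50`.
* h4: `v` unit, `a = ip v n`, `b = ip v (I n)`, `a² + b² = 1`. `o + u ∈ F`: `(s - A p) a ≤ B p b`, and `o + I u ∈ F`:
  `(s - B p) b ≤ A p a`. So `b ≥ -2 ε`, `a ≥ -3 ε` (`|a|, |b| ≤ 1`), both `≥ -ρ`, and `ip m v = a + b ≥ 2/5`
  (`(a+b)² = 1 + 2ab ≥ 1 - 6 ε`, or: if `a + b < 2/5` then `|a|, |b| ≤ 2/5 + 3 ε < 1/2`, contradiction).
Result: `p`, `v`; take `a' = s v` (`‖s v - u‖ = s ‖v - n‖ ≤ 2 ρ s ≤ η s`), `b' = s d = u + t I u` (`‖b' - (u + I u)‖ = h s ≤ η s`).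
-/

namespace Pool.Agent.H50.CP

open Pool.Agent.H90.Clone Pool.Agent.H21.Tri Complex Set Pointwise MeasureTheory

private theorem SqC_abs (z w : ℂ) (hw : ‖w‖ = 1) : |ip z w| ≤ ‖z‖ := by
  have h1 : ip z w = (z * (starRingEnd ℂ) w).re := by
    rw [mul_re, conj_re, conj_im]
    unfold ip
    ring
  rw [h1]
  refine (Complex.abs_re_le_norm _).trans ?_
  rw [norm_mul, RCLike.norm_conj, hw, mul_one]

private theorem SqC_sq {n : ℂ} (hn : ‖n‖ = 1) : n.re ^ 2 + n.im ^ 2 = 1 := by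
  have h := Complex.sq_norm n
  rw [hn, normSq_apply] at h
  linarith

private theorem SqC_dec {n : ℂ} (hn : n.re ^ 2 + n.im ^ 2 = 1) (z : ℂ) :
    z = ((ip z n : ℝ) : ℂ) * n + ((ip z (I * n) : ℝ) : ℂ) * (I * n) := by
  unfold ip
  apply Complex.ext
  · rw [add_re, re_ofReal_mul, re_ofReal_mul]
    simp only [mul_re, mul_im, I_re, I_im]
    linear_combination -z.re * hn
  · rw [add_im, im_ofReal_mul, im_ofReal_mul]
    simp only [mul_re, mul_im, I_re, I_im]
    linear_combination -z.im * hn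

private theorem SqC_norm {n : ℂ} (hn : ‖n‖ = 1) (z : ℂ) {α β : ℝ} (h1 : |ip z n| ≤ α)
    (h2 : |ip z (I * n)| ≤ β) : ‖z‖ ≤ α + β := by
  have h3 := SqC_dec (SqC_sq hn) z
  calc ‖z‖ = ‖((ip z n : ℝ) : ℂ) * n + ((ip z (I * n) : ℝ) : ℂ) * (I * n)‖ := by rw [← h3]
    _ ≤ ‖((ip z n : ℝ) : ℂ) * n‖ + ‖((ip z (I * n) : ℝ) : ℂ) * (I * n)‖ := norm_add_le _ _
    _ = |ip z n| + |ip z (I * n)| := by
        rw [norm_mul, norm_mul, norm_mul, hn, norm_I, Complex.norm_real, Complex.norm_real,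
          Real.norm_eq_abs, Real.norm_eq_abs]
        ring
    _ ≤ α + β := add_le_add h1 h2

private theorem SqC_ip_sub (z w v : ℂ) : ip (z - w) v = ip z v - ip w v := by
  unfold ip
  rw [sub_re, sub_im]
  ring

private theorem SqC_ip_add (z w v : ℂ) : ip (z + w) v = ip z v + ip w v := by
  unfold ip
  rw [add_re, add_im]
  ring

private theorem SqC_ip_smul (a : ℝ) (z v : ℂ) : ip ((a : ℂ) * z) v = a * ip z v := by
  unfold ip
  rw [re_ofReal_mul, im_ofReal_mul]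
  ring

private theorem SqC_ip_addr (z v w : ℂ) : ip z (v + w) = ip z v + ip z w := by
  unfold ip
  rw [add_re, add_im]
  ring

private theorem SqC_ip_subr (z v w : ℂ) : ip z (v - w) = ip z v - ip z w := by
  unfold ip
  rw [sub_re, sub_im]
  ring

private theorem SqC_ip_smulr (a : ℝ) (z v : ℂ) : ip z ((a : ℂ) * v) = a * ip z v := by
  unfold ip
  rw [re_ofReal_mul, im_ofReal_mul]
  ring

private theorem SqC_nn {n : ℂ} (hn : n.re ^ 2 + n.im ^ 2 = 1) : ip n n = 1 := by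
  unfold ip
  linarith

private theorem SqC_ii {n : ℂ} (hn : n.re ^ 2 + n.im ^ 2 = 1) : ip (I * n) (I * n) = 1 := by
  unfold ip
  simp only [mul_re, mul_im, I_re, I_im]
  linarith

private theorem SqC_ni (n : ℂ) : ip n (I * n) = 0 := by
  unfold ip
  simp only [mul_re, mul_im, I_re, I_im]
  ring

private theorem SqC_in (n : ℂ) : ip (I * n) n = 0 := by
  unfold ip
  simp only [mul_re, mul_im, I_re, I_im]
  ring

/-- real inequalities for `h4` -/
private theorem SqC_h4 {s ε A B a b ρ : ℝ} (hs : 0 < s) (hε : 0 ≤ ε) (hε1 : ε ≤ 1 / 1000)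
    (hρ : 10 * ε ≤ ρ) (hA1 : s - ε * s ≤ A) (hA2 : A ≤ s + ε * s) (hB1 : s - 2 * (ε * s) ≤ B)
    (hB2 : B ≤ s + ε * s) (hab : a ^ 2 + b ^ 2 = 1) (h1 : (s - A) * a ≤ B * b)
    (h2 : (s - B) * b ≤ A * a) : 2 / 5 ≤ a + b ∧ -ρ ≤ b ∧ -ρ ≤ a := by
  have ha1 : a ≤ 1 := by nlinarith [sq_nonneg b]
  have ha2 : -1 ≤ a := by nlinarith [sq_nonneg b]
  have hb1 : b ≤ 1 := by nlinarith [sq_nonneg a]
  have hb2 : -1 ≤ b := by nlinarith [sq_nonneg a]
  have hεs : 0 ≤ ε * s := mul_nonneg hε hs.le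
  have hεs1 : ε * s ≤ 1 / 1000 * s := mul_le_mul_of_nonneg_right hε1 hs.le
  have hA0 : s / 2 ≤ A := by linarith
  have hB0 : s / 2 ≤ B := by linarith
  -- lower bound for `b`
  have h3 : -(ε * s) ≤ (s - A) * a := by
    have e1 : |(s - A) * a| ≤ ε * s * 1 := by
      rw [abs_mul]
      exact mul_le_mul (abs_le.mpr ⟨by linarith, by linarith⟩) (abs_le.mpr ⟨ha2, ha1⟩)
        (abs_nonneg _) hεs
    have := (abs_le.mp e1).1
    linarith
  have h4 : -(2 * (ε * s)) ≤ (s - B) * b := by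
    have e1 : |(s - B) * b| ≤ 2 * (ε * s) * 1 := by
      rw [abs_mul]
      exact mul_le_mul (abs_le.mpr ⟨by linarith, by linarith⟩) (abs_le.mpr ⟨hb2, hb1⟩)
        (abs_nonneg _) (by linarith)
    have := (abs_le.mp e1).1
    linarith
  have h5 : -(4 * ε) ≤ b := by
    by_contra hc
    push Not at hc
    have e1 : B * b ≤ s / 2 * b := mul_le_mul_of_nonpos_right hB0 (by linarith)
    have e2 : s / 2 * b < s / 2 * (-(4 * ε)) := mul_lt_mul_of_pos_left hc (by linarith)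
    have e3 : s / 2 * (-(4 * ε)) = -(2 * (ε * s)) := by ring
    linarith
  have h6 : -(4 * ε) ≤ a := by
    by_contra hc
    push Not at hc
    have e1 : A * a ≤ s / 2 * a := mul_le_mul_of_nonpos_right hA0 (by linarith)
    have e2 : s / 2 * a < s / 2 * (-(4 * ε)) := mul_lt_mul_of_pos_left hc (by linarith)
    have e3 : s / 2 * (-(4 * ε)) = -(2 * (ε * s)) := by ring
    linarith
  refine ⟨?_, by linarith, by linarith⟩
  by_contra hc
  push Not at hc
  have e1 : a ^ 2 ≤ 1 / 4 := by nlinarith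
  have e2 : b ^ 2 ≤ 1 / 4 := by nlinarith
  linarith

/-- a vertex near the corner `o + u + I u`, for the side from `o + u` to `o + u + I u` -/
theorem sq_corner (o u : ℂ) (hu : u ≠ 0) {η : ℝ} (hη : 0 < η) : ∃ ε₀ : ℝ, 0 < ε₀ ∧
    ∀ ε : ℝ, 0 ≤ ε → ε ≤ ε₀ → ∀ (F : Set ℂ) (o' : ℂ), IsConvexFigure F → Par o u (I * u) ⊆ F →
      F ⊆ Par o' (((1 + ε : ℝ) : ℂ) * u) (((1 + ε : ℝ) : ℂ) * (I * u)) → ¬ Two F →
      HasVertex F (o + u + I * u) u (u + I * u) (η * ‖u‖) := by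
  obtain ⟨h, hh0, hh1, hh2⟩ : ∃ h : ℝ, 0 < h ∧ h ≤ 1 / 2 ∧ h ≤ η / 2 :=
    ⟨min (1 / 2) (η / 2), lt_min (by norm_num) (by linarith), min_le_left _ _, min_le_right _ _⟩
  obtain ⟨t, ht⟩ : ∃ t : ℝ, t = 1 - h := ⟨_, rfl⟩
  have ht0 : 1 / 2 ≤ t := by linarith
  have ht1 : t < 1 := by linarith
  refine ⟨h ^ 2 / 1000, by positivity, ?_⟩
  intro ε hε0 hε1 F o' hF hin hout h2
  have hh3 : h ^ 2 ≤ 1 / 2 * h := by
    rw [pow_two]
    exact mul_le_mul_of_nonneg_right hh1 hh0.le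
  have hεh : ε ≤ h / 2000 := by linarith
  obtain ⟨s, hs⟩ : ∃ s : ℝ, s = ‖u‖ := ⟨_, rfl⟩
  have hs0 : 0 < s := by rw [hs]; exact norm_pos_iff.mpr hu
  have hsc : (s : ℂ) ≠ 0 := by exact_mod_cast hs0.ne'
  obtain ⟨n, hn⟩ : ∃ n : ℂ, n = ((s⁻¹ : ℝ) : ℂ) * u := ⟨_, rfl⟩
  have hun : u = (s : ℂ) * n := by
    rw [hn, ofReal_inv]
    field_simp
  have hn1 : ‖n‖ = 1 := by
    rw [hn, norm_mul, Complex.norm_real, Real.norm_of_nonneg (by positivity), ← hs]
    field_simp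
  have hnn := SqC_sq hn1
  have e1 := SqC_nn hnn
  have e2 := SqC_ii hnn
  have e3 := SqC_ni n
  have e4 := SqC_in n
  rw [← hs]
  have hεs : 0 ≤ ε * s := mul_nonneg hε0 hs0.le
  have hεs1 : ε * s ≤ h / 2000 * s := mul_le_mul_of_nonneg_right hεh hs0.le
  have hhs : 0 < h * s := mul_pos hh0 hs0
  -- coordinates
  have hmem : ∀ x y : ℝ, 0 ≤ x → x ≤ 1 → 0 ≤ y → y ≤ 1 → o + (x : ℂ) * u + (y : ℂ) * (I * u) ∈ F :=
    fun x y h1 h3 h4 h5 => hin ⟨x, y, h1, h3, h4, h5, rfl⟩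
  have m00 : o ∈ F := by
    have := hmem 0 0 le_rfl zero_le_one le_rfl zero_le_one
    simpa using this
  have m10 : o + u ∈ F := by
    have := hmem 1 0 zero_le_one le_rfl le_rfl zero_le_one
    simpa using this
  have m01 : o + I * u ∈ F := by
    have := hmem 0 1 le_rfl zero_le_one zero_le_one le_rfl
    simpa using this
  have m11 : o + u + I * u ∈ F := by
    have := hmem 1 1 zero_le_one le_rfl zero_le_one le_rfl
    simpa using this
  have hP : ∀ z, ∀ x y : ℝ, z = o' + (x : ℂ) * (((1 + ε : ℝ) : ℂ) * u) +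
      (y : ℂ) * (((1 + ε : ℝ) : ℂ) * (I * u)) →
      ip z n = ip o' n + x * ((1 + ε) * s) ∧ ip z (I * n) = ip o' (I * n) + y * ((1 + ε) * s) := by
    intro z x y hz
    have hIu : I * u = (s : ℂ) * (I * n) := by rw [hun]; ring
    rw [hIu, hun] at hz
    rw [hz]
    constructor
    · rw [SqC_ip_add, SqC_ip_add, SqC_ip_smul, SqC_ip_smul, SqC_ip_smul,
        SqC_ip_smul, SqC_ip_smul, SqC_ip_smul, e1, e4]
      ring
    · rw [SqC_ip_add, SqC_ip_add, SqC_ip_smul, SqC_ip_smul, SqC_ip_smul,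
        SqC_ip_smul, SqC_ip_smul, SqC_ip_smul, e2, e3]
      ring
  have hu1 : ip (o + u) n = ip o n + s ∧ ip (o + u) (I * n) = ip o (I * n) := by
    rw [hun]
    constructor
    · rw [SqC_ip_add, SqC_ip_smul, e1]
      ring
    · rw [SqC_ip_add, SqC_ip_smul, e3]
      ring
  have hu2 : ip (o + I * u) n = ip o n ∧ ip (o + I * u) (I * n) = ip o (I * n) + s := by
    have hIu : I * u = (s : ℂ) * (I * n) := by rw [hun]; ring
    rw [hIu]
    constructor
    · rw [SqC_ip_add, SqC_ip_smul, e4]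
      ring
    · rw [SqC_ip_add, SqC_ip_smul, e2]
      ring
  have hu3 : ip (o + u + I * u) n = ip o n + s ∧ ip (o + u + I * u) (I * n) = ip o (I * n) + s := by
    have hIu : I * u = (s : ℂ) * (I * n) := by rw [hun]; ring
    rw [hIu]
    constructor
    · rw [SqC_ip_add, hu1.1, SqC_ip_smul, e4]
      ring
    · rw [SqC_ip_add, hu1.2, SqC_ip_smul, e2, mul_one]
  have hKs : 0 < (1 + ε) * s := by positivity
  have ho' : (ip o' n ≤ ip o n ∧ ip o n - ε * s ≤ ip o' n) ∧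
      (ip o' (I * n) ≤ ip o (I * n) ∧ ip o (I * n) - ε * s ≤ ip o' (I * n)) := by
    obtain ⟨x, y, x0, x1, y0, y1, hz⟩ := hout m00
    obtain ⟨a1, a2⟩ := hP _ x y hz
    obtain ⟨x', y', x0', x1', y0', y1', hz'⟩ := hout m11
    obtain ⟨b1, b2⟩ := hP _ x' y' hz'
    rw [hu3.1] at b1
    rw [hu3.2] at b2
    have c1 : 0 ≤ x * ((1 + ε) * s) := by positivity
    have c2 : 0 ≤ y * ((1 + ε) * s) := by positivity
    have c3 : x' * ((1 + ε) * s) ≤ 1 * ((1 + ε) * s) := mul_le_mul_of_nonneg_right x1' hKs.le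
    have c4 : y' * ((1 + ε) * s) ≤ 1 * ((1 + ε) * s) := mul_le_mul_of_nonneg_right y1' hKs.le
    refine ⟨⟨by linarith, by linarith⟩, ⟨by linarith, by linarith⟩⟩
  have hcoord : ∀ z ∈ F, (ip o n - ε * s ≤ ip z n ∧ ip z n ≤ ip o n + (1 + ε) * s) ∧
      (ip o (I * n) - ε * s ≤ ip z (I * n) ∧ ip z (I * n) ≤ ip o (I * n) + (1 + ε) * s) := by
    intro z hz
    obtain ⟨x, y, x0, x1, y0, y1, hz'⟩ := hout hz
    obtain ⟨a1, a2⟩ := hP _ x y hz'
    have c1 : 0 ≤ x * ((1 + ε) * s) := by positivity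
    have c2 : 0 ≤ y * ((1 + ε) * s) := by positivity
    have c3 : x * ((1 + ε) * s) ≤ 1 * ((1 + ε) * s) := mul_le_mul_of_nonneg_right x1 hKs.le
    have c4 : y * ((1 + ε) * s) ≤ 1 * ((1 + ε) * s) := mul_le_mul_of_nonneg_right y1 hKs.le
    obtain ⟨⟨d1, d2⟩, d3, d4⟩ := ho'
    refine ⟨⟨by linarith, by linarith⟩, ⟨by linarith, by linarith⟩⟩
  have hd : ∀ z : ℂ, ip z (n + t * (I * n)) = ip z n + t * ip z (I * n) := by
    intro z
    rw [SqC_ip_addr, SqC_ip_smulr]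
  have htε : t * (ε * s) ≤ ε * s := by nlinarith
  have hmax : ∀ p ∈ F, (∀ x ∈ F, ip x (n + t * (I * n)) ≤ ip p (n + t * (I * n))) →
      ip o n + s - ε * s ≤ ip p n ∧ ip o (I * n) + s - 2 * (ε * s) ≤ ip p (I * n) := by
    intro p hp hx
    have h3 := hx _ m11
    rw [hd, hd, hu3.1, hu3.2] at h3
    obtain ⟨⟨d1, d2⟩, d3, d4⟩ := hcoord p hp
    constructor
    · have := mul_le_mul_of_nonneg_left d4 (show 0 ≤ t by linarith)
      linarith
    · have h4 : t * (ip o (I * n) + s - 2 * (ε * s)) ≤ t * ip p (I * n) := by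
        have h5 : 1 / 2 * (ε * s) ≤ t * (ε * s) := mul_le_mul_of_nonneg_right ht0 hεs
        have h6 : t * (ip o (I * n) + s - 2 * (ε * s)) =
          t * (ip o (I * n) + s) - 2 * (t * (ε * s)) := by ring
        rw [h6]
        linarith
      exact le_of_mul_le_mul_left h4 (by linarith)
  have hmin : ∀ q ∈ F, (∀ x ∈ F, ip q (n + t * (I * n)) ≤ ip x (n + t * (I * n))) →
      ip q n ≤ ip o n + ε * s ∧ ip q (I * n) ≤ ip o (I * n) + 2 * (ε * s) := by
    intro q hq hx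
    have h3 := hx _ m00
    rw [hd, hd] at h3
    obtain ⟨⟨d1, d2⟩, d3, d4⟩ := hcoord q hq
    constructor
    · have := mul_le_mul_of_nonneg_left d3 (show 0 ≤ t by linarith)
      linarith
    · have h4 : t * ip q (I * n) ≤ t * (ip o (I * n) + 2 * (ε * s)) := by
        have h5 : 1 / 2 * (ε * s) ≤ t * (ε * s) := mul_le_mul_of_nonneg_right ht0 hεs
        have h6 : t * (ip o (I * n) + 2 * (ε * s)) =
          t * ip o (I * n) + 2 * (t * (ε * s)) := by ring
        rw [h6]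
        linarith
      exact le_of_mul_le_mul_left h4 (by linarith)
  have hd0 : n + (t : ℂ) * (I * n) ≠ 0 := by
    intro h0
    have h3 := hd n
    rw [h0, e1, e3] at h3
    simp [ip] at h3
  obtain ⟨p, hp, hpmax, v, hv, hvn, hvs⟩ := corner_abs hF h2 (n := n) (d := n + t * (I * n))
    (m := n + I * n) (κ := h * s / 5) (δ := 2 * (ε * s)) (ρ := h / 10) hn1 hd0 (by positivity)
    (by positivity) (by linarith)
    (by
      have h3 : h ^ 2 / 1000 * s ≤ h / 10 * (h * s / 5) / 20 := by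
        have : h / 10 * (h * s / 5) / 20 = h ^ 2 / 1000 * s := by ring
        rw [this]
      have h4 : ε * s ≤ h ^ 2 / 1000 * s := mul_le_mul_of_nonneg_right hε1 hs0.le
      linarith)
    (by
      intro p hp hx q hq hy
      obtain ⟨g1, g2⟩ := hmax p hp hx
      obtain ⟨g3, g4⟩ := hmin q hq hy
      obtain ⟨⟨d1, d2⟩, d3, d4⟩ := hcoord p hp
      obtain ⟨⟨d1', d2'⟩, d3', d4'⟩ := hcoord q hq
      have h3 : I * (n + (t : ℂ) * (I * n)) = I * n - (t : ℂ) * n := by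
        linear_combination ((t : ℂ) * n) * I_mul_I
      rw [h3, SqC_ip_subr, SqC_ip_smulr, SqC_ip_sub, SqC_ip_sub, hd, SqC_ip_add, SqC_ip_add,
        e1, e2, e3, e4]
      have h5 : t * (ip p n - ip q n) ≤ t * (s + 2 * (ε * s)) :=
        mul_le_mul_of_nonneg_left (by linarith) (by linarith)
      have h6 : t * (s + 2 * (ε * s)) = s - h * s + 2 * (t * (ε * s)) := by rw [ht]; ring
      have h7 : h * s / 5 * (1 + 0 + t * (0 + 1)) ≤ h * s / 5 * 2 :=
        mul_le_mul_of_nonneg_left (by linarith) (by positivity)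
      have h8 : h / 2000 * s = h * s / 2000 := by ring
      linarith)
    (by
      intro p hp hx x hxF
      obtain ⟨g1, g2⟩ := hmax p hp hx
      obtain ⟨⟨d1, d2⟩, d3, d4⟩ := hcoord x hxF
      rw [SqC_ip_sub]
      linarith)
    (by
      intro p hp hx v hv hvs
      obtain ⟨g1, g2⟩ := hmax p hp hx
      obtain ⟨⟨d1, d2⟩, d3, d4⟩ := hcoord p hp
      have f1 := hvs _ m10
      have f2 := hvs _ m01
      have hfr := frame_sq hn1 v
      rw [hv] at hfr
      -- `ip z v = ip z n * ip v n + ip z (I n) * ip v (I n)`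
      have hzv : ∀ z : ℂ, ip z v = ip z n * ip v n + ip z (I * n) * ip v (I * n) := by
        intro z
        have h3 := frame hn1 v
        have h4 : ip z v = ip z (((ip v n : ℝ) : ℂ) * n + ((ip v (I * n) : ℝ) : ℂ) * (I * n)) := by
          rw [← h3]
        rw [h4, SqC_ip_addr, SqC_ip_smulr, SqC_ip_smulr]
        ring
      have h5 : ip (n + I * n) v = ip v n + ip v (I * n) := by
        rw [hzv, SqC_ip_add, SqC_ip_add, e1, e2, e3, e4]
        ring
      rw [h5]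
      rw [hzv, hzv p, hu1.1, hu1.2] at f1
      rw [hzv, hzv p, hu2.1, hu2.2] at f2
      obtain ⟨k1, k2, k3⟩ := SqC_h4 (s := s) (ε := ε) (A := ip p n - ip o n)
        (B := ip p (I * n) - ip o (I * n)) (a := ip v n) (b := ip v (I * n)) (ρ := h / 10) hs0 hε0
        (by linarith) (by linarith) (by linarith) (by linarith) (by linarith) (by linarith)
        (by linarith) (by linarith) (by linarith)
      exact ⟨k1, k2, fun _ => k3⟩)
  obtain ⟨g1, g2⟩ := hmax p hp hpmax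
  obtain ⟨⟨d1, d2⟩, d3, d4⟩ := hcoord p hp
  have hηs : 2 * (h * s) ≤ η * s := by
    have := mul_le_mul_of_nonneg_right hh2 hs0.le
    linarith
  refine ⟨p, hp, ?_, (s : ℂ) * v, (s : ℂ) * (n + t * (I * n)), ?_, ?_, ?_, ?_⟩
  · have h3 : |ip (p - (o + u + I * u)) n| ≤ 2 * (ε * s) := by
      rw [SqC_ip_sub, hu3.1, abs_le]
      constructor
      · linarith
      · linarith
    have h4 : |ip (p - (o + u + I * u)) (I * n)| ≤ 2 * (ε * s) := by
      rw [SqC_ip_sub, hu3.2, abs_le]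
      constructor
      · linarith
      · linarith
    refine (SqC_norm hn1 _ h3 h4).trans ?_
    linarith
  · rw [hun, ← mul_sub, norm_mul, Complex.norm_real, Real.norm_of_nonneg hs0.le]
    have := mul_le_mul_of_nonneg_left hvn hs0.le
    linarith
  · have h3 : (s : ℂ) * (n + t * (I * n)) - (u + I * u) = -((h * s : ℝ) : ℂ) * (I * n) := by
      rw [hun, ht]
      push_cast
      ring
    rw [h3, norm_mul, norm_neg, Complex.norm_real, Real.norm_of_nonneg hhs.le, norm_mul, norm_I,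
      hn1]
    linarith
  · intro x hx
    rw [SqC_ip_smulr, SqC_ip_smulr]
    exact mul_le_mul_of_nonneg_left (hvs x hx) hs0.le
  · intro x hx
    rw [SqC_ip_smulr, SqC_ip_smulr]
    exact mul_le_mul_of_nonneg_left (hpmax x hx) hs0.le

end Pool.Agent.H50.CP
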