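import Pool.Agent.H50.CP.Edge

set_option autoImplicit false

/-!
# Long edges near an equilateral triangle (row CP TriEdge: prove `tri_edge`, `edge` may be used)

PROOF. Let `s = ‖u‖`, `n = -I u/s`, so `I n = u/s`; `t = min (1/20) (η/20)`, `ε₀ = t²/1000`; `y = o + u`, `v = om u`. Write points
as `z = o + X u + Y v`. From the inclusions: `X, Y ≥ -ε`, `X + Y ≤ 1 + ε` on `F` (the corner `o'` has coordinates
`a, b ≤ 0`, `a + b ≥ -ε`). `ip u n = 0`, `ip u (I n) = s`, `ip v n = -(√3/2) s`, `ip v (I n) = s/2`. With `d = n + t I n`: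
`ip z d = const + s (t (X + Y/2) - (√3/2) Y)`. A maximiser `p` has value `≥` the value `t` at `y`: so `Y ≤ 2 t ε` and
`X + Y/2 ≥ 1 - ε/t`, hence `|Yp| ≤ ε`, `1 - 2ε/t ≤ Xp ≤ 1 + 2ε`, `‖p - y‖ ≤ s (|X-1| + |Y|) ≤ δ := 4 s ε/t ≤ t s/100`. A minimiser `q`
has value `≤ t/2 - √3/2` (the value at `v`): `Xq ≤ 2ε/t`, `Yq ≥ 1 - 2tε`, `Yq ≤ 1 + 2ε`. Hence `ip (p-q) (I n - t n) =
s ((Xp + Yp/2) - (Xq + Yq/2) - t (√3/2)(Yq - Yp)) ≥ s (1/2 - 6ε/t - t) ≥ b := s (1/2 - 2t)`. `edge` with `a = s/2`, `h = (√3/2) s`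
(`o + v = y - a I n - h n ∈ F`, `o = y - s I n ∈ F`) gives `p, f`: put `b := p`, `a := f`, `Λ = ‖f-p‖ ≥ (1-3t)(1/2-2t) s ≥ (1/2 - 4t) s`.
The point `x` for `b` is `y`. For `a`: `X + Y/2 ≥ -2ε` on `F`, and for `f` it is `≤ 1 + 2ε - (1-2t) Λ/s`, so `Λ ≤ (1 + 4t) s`; take
`x = y - min Λ s • (I n)`: `‖f - x‖ ≤ ‖p - y‖ + ‖f - p + Λ I n‖ + |Λ - min Λ s| ≤ η s`.
-/

namespace Pool.Agent.H50.CP

open Pool.Agent.H90.Clone Pool.Agent.H21.Tri Complex Set Pointwise MeasureTheory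

/-- the rotation by 60 degrees -/
noncomputable def om : ℂ := ⟨1 / 2, Real.sqrt 3 / 2⟩

private lemma tE_ip_add (a b c : ℂ) : ip (a + b) c = ip a c + ip b c := by
  simp only [ip, add_re, add_im]; ring

private lemma tE_ip_sub (a b c : ℂ) : ip (a - b) c = ip a c - ip b c := by
  simp only [ip, sub_re, sub_im]; ring

private lemma tE_ip_addr (a b c : ℂ) : ip a (b + c) = ip a b + ip a c := by
  simp only [ip, add_re, add_im]; ring

private lemma tE_ip_subr (a b c : ℂ) : ip a (b - c) = ip a b - ip a c := by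
  simp only [ip, sub_re, sub_im]; ring

private lemma tE_ip_smul (t : ℝ) (a c : ℂ) : ip ((t : ℂ) * a) c = t * ip a c := by
  simp only [ip, re_ofReal_mul, im_ofReal_mul]; ring

private lemma tE_ip_smulr (t : ℝ) (a c : ℂ) : ip a ((t : ℂ) * c) = t * ip a c := by
  simp only [ip, re_ofReal_mul, im_ofReal_mul]; ring

private lemma tE_ip_le (a c : ℂ) : ip a c ≤ ‖a‖ * ‖c‖ := by
  have h1 : ip a c = (a * (starRingEnd ℂ) c).re := by
    simp only [ip, mul_re, conj_re, conj_im]; ring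
  rw [h1]
  refine (re_le_norm _).trans ?_
  rw [norm_mul, RCLike.norm_conj]

private lemma tE_om_norm : ‖om‖ = 1 := by
  have h3 : Real.sqrt 3 ^ 2 = 3 := Real.sq_sqrt (by norm_num)
  have h : ‖om‖ ^ 2 = 1 := by
    rw [← Complex.normSq_eq_norm_sq, Complex.normSq_apply]
    simp only [om]
    nlinarith
  have h0 : 0 ≤ ‖om‖ := norm_nonneg _
  nlinarith [sq_nonneg (‖om‖ - 1)]

/-- the coordinates of the points of `F` -/
private lemma tE_coord {o u : ℂ} (hu : u ≠ 0) {ε : ℝ} {F : Set ℂ} {o' : ℂ} (h1 : Tri o u (om * u) ⊆ F)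
    (h2 : F ⊆ Tri o' (((1 + ε : ℝ) : ℂ) * u) (((1 + ε : ℝ) : ℂ) * (om * u))) (hε : 0 ≤ ε) :
    ∀ z ∈ F, ∃ X Y : ℝ, -ε ≤ X ∧ -ε ≤ Y ∧ X + Y ≤ 1 + ε ∧ z = o + X * u + Y * (om * u) := by
  have hind : ∀ c d : ℝ, (c : ℂ) * u + (d : ℂ) * (om * u) = 0 → c = 0 ∧ d = 0 := by
    intro c d h
    have h3 : ((c : ℂ) + (d : ℂ) * om) * u = 0 := by rw [← h]; ring
    have h4 : (c : ℂ) + (d : ℂ) * om = 0 := by
      rcases mul_eq_zero.1 h3 with h | h
      · exact h
      · exact absurd h hu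
    have him := congrArg Complex.im h4
    have hre := congrArg Complex.re h4
    simp only [om, add_re, add_im, re_ofReal_mul, im_ofReal_mul, ofReal_re, ofReal_im, zero_re,
      zero_im] at him hre
    have hs : 0 < Real.sqrt 3 := Real.sqrt_pos.2 (by norm_num)
    have hd : d = 0 := by
      have : d * (Real.sqrt 3 / 2) = 0 := by linarith
      rcases mul_eq_zero.1 this with h | h
      · exact h
      · linarith
    rw [hd] at hre
    exact ⟨by linarith, hd⟩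
  have ho : o ∈ Tri o u (om * u) := ⟨0, 0, le_rfl, le_rfl, by norm_num, by simp⟩
  have hou : o + u ∈ Tri o u (om * u) := ⟨1, 0, by norm_num, le_rfl, by norm_num, by simp⟩
  obtain ⟨x0, y0, hx0, hy0, hxy0, e0⟩ := h2 (h1 ho)
  obtain ⟨x1, y1, hx1, hy1, hxy1, e1⟩ := h2 (h1 hou)
  have hk := hind (1 + x0 * (1 + ε) - x1 * (1 + ε)) (y0 * (1 + ε) - y1 * (1 + ε)) (by
    push_cast
    have : (u : ℂ) = (o + u) - o := by ring
    push_cast at e0 e1
    linear_combination e1 - e0)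
  obtain ⟨k1, k2⟩ := hk
  intro z hz
  obtain ⟨x, y, hx, hy, hxy, e⟩ := h2 hz
  have hp0 : 0 ≤ 1 + ε := by linarith
  have g0 : 0 ≤ x0 * (1 + ε) := mul_nonneg hx0 hp0
  have g0' : 0 ≤ y0 * (1 + ε) := mul_nonneg hy0 hp0
  have g1 : 0 ≤ x1 * (1 + ε) := mul_nonneg hx1 hp0
  have g1' : 0 ≤ y1 * (1 + ε) := mul_nonneg hy1 hp0
  have g2 : 0 ≤ x * (1 + ε) := mul_nonneg hx hp0
  have g2' : 0 ≤ y * (1 + ε) := mul_nonneg hy hp0
  have g3 : (x + y) * (1 + ε) ≤ 1 * (1 + ε) := mul_le_mul_of_nonneg_right hxy hp0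
  have g4 : (x1 + y1) * (1 + ε) ≤ 1 * (1 + ε) := mul_le_mul_of_nonneg_right hxy1 hp0
  refine ⟨x * (1 + ε) - x0 * (1 + ε), y * (1 + ε) - y0 * (1 + ε), by nlinarith, by nlinarith,
    by nlinarith, ?_⟩
  push_cast at e e0 ⊢
  linear_combination e - e0

private lemma tE_num1 {t r ε k X Y : ℝ} (ht0 : 0 < t) (ht1 : t ≤ 1 / 20) (hr : 17 / 20 ≤ r)
    (hr1 : r ≤ 9 / 10) (hε : 0 ≤ ε) (he : ε = t * k) (hk0 : 0 ≤ k)
    (hY : -ε ≤ Y) (hXY : X + Y ≤ 1 + ε) (h4 : t ≤ t * (X + Y / 2) - r * Y) :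
    Y ≤ 2 * t * ε ∧ 1 - k ≤ X + Y / 2 ∧ 1 - 2 * k ≤ X := by
  have htε : 0 ≤ t * ε := mul_nonneg ht0.le hε
  have h5 : Y ≤ 2 * t * ε := by
    by_contra hc
    push Not at hc
    have hY0 : 0 < Y := lt_of_le_of_lt (by positivity) hc
    have a1 : t * (X + Y / 2) ≤ t * (1 + ε - Y / 2) :=
      mul_le_mul_of_nonneg_left (by linarith) ht0.le
    have a2 : 17 / 20 * Y ≤ r * Y := mul_le_mul_of_nonneg_right hr hY0.le
    have a3 : 0 ≤ t * Y := mul_nonneg ht0.le hY0.le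
    have a4 : t * (1 + ε - Y / 2) = t + t * ε - t * Y / 2 := by ring
    linarith
  have h6 : 1 - k ≤ X + Y / 2 := by
    have a1 : r * (-ε) ≤ r * Y := mul_le_mul_of_nonneg_left hY (by linarith)
    have a2 : r * ε ≤ 9 / 10 * ε := mul_le_mul_of_nonneg_right hr1 hε
    have a3 : t * (1 - k) ≤ t * (X + Y / 2) := by
      have : t * (1 - k) = t - ε := by rw [he]; ring
      linarith
    exact le_of_mul_le_mul_left a3 ht0
  refine ⟨h5, h6, ?_⟩
  have a1 : t * ε ≤ k := by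
    have b1 : t * ε = t * t * k := by rw [he]; ring
    have b2 : t * t ≤ 1 := by nlinarith
    rw [b1]
    calc t * t * k ≤ 1 * k := mul_le_mul_of_nonneg_right b2 hk0
      _ = k := one_mul k
  linarith

private lemma tE_num2 {t r ε k X Y : ℝ} (ht0 : 0 < t) (ht1 : t ≤ 1 / 20) (hr : 17 / 20 ≤ r)
    (hr1 : r ≤ 9 / 10) (hε : 0 ≤ ε) (he : ε = t * k)
    (hX : -ε ≤ X) (hXY : X + Y ≤ 1 + ε)
    (h3 : t * (X + Y / 2) - r * Y ≤ t * (0 + 1 / 2) - r * 1) :
    X ≤ 2 * k ∧ Y ≤ 1 + 2 * ε := by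
  have hY2 : Y - 1 ≤ 2 * ε := by linarith
  refine ⟨?_, by linarith⟩
  have h4 : t * X ≤ (r - t / 2) * (Y - 1) := by
    have : (r - t / 2) * (Y - 1) = r * Y - r * 1 - t * Y / 2 + t / 2 := by ring
    rw [this]
    have e : t * (X + Y / 2) = t * X + t * Y / 2 := by ring
    rw [e] at h3
    linarith
  have h5 : (r - t / 2) * (Y - 1) ≤ (r - t / 2) * (2 * ε) :=
    mul_le_mul_of_nonneg_left hY2 (by linarith)
  have h6 : (r - t / 2) * (2 * ε) ≤ 1 * (2 * ε) :=
    mul_le_mul_of_nonneg_right (by linarith) (by linarith)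
  have h7 : t * X ≤ t * (2 * k) := by
    have : t * (2 * k) = 2 * ε := by rw [he]; ring
    linarith
  exact le_of_mul_le_mul_left h7 ht0

private lemma tE_num3 {t r ε k A B D : ℝ} (ht0 : 0 < t) (ht1 : t ≤ 1 / 20) (hr : 0 ≤ r)
    (hr1 : r ≤ 9 / 10) (hε : 0 ≤ ε) (hεk : ε ≤ k) (hk1 : k ≤ t / 1000)
    (hA : 1 - k ≤ A) (hB : B ≤ 2 * k + (1 + 2 * ε) / 2) (hD : D ≤ 1 + 3 * ε) :
    1 / 2 - 2 * t ≤ A - B - t * r * D := by
  have c2 : t * r * D ≤ t * r * (1 + 3 * ε) :=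
    mul_le_mul_of_nonneg_left hD (mul_nonneg ht0.le hr)
  have c3 : r * (1 + 3 * ε) ≤ 9 / 10 * (1 + 3 * ε) :=
    mul_le_mul_of_nonneg_right hr1 (by linarith)
  have c4 : t * (r * (1 + 3 * ε)) ≤ t * 1 := mul_le_mul_of_nonneg_left (by linarith) ht0.le
  have c5 : t * (r * (1 + 3 * ε)) = t * r * (1 + 3 * ε) := by ring
  linarith

private lemma tE_num4 {t ε : ℝ} (ht0 : 0 < t) (ht1 : t ≤ 1 / 20) (hε : ε ≤ t / 1000) :
    1 + 4 * ε ≤ (1 - 2 * t) * (1 + 4 * t) := by nlinarith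

/-- the side from `o` to `o + u` -/
theorem tri_edge (o u : ℂ) (hu : u ≠ 0) {η : ℝ} (hη : 0 < η) : ∃ ε₀ : ℝ, 0 < ε₀ ∧
    ∀ ε : ℝ, 0 ≤ ε → ε ≤ ε₀ → ∀ (F : Set ℂ) (o' : ℂ), IsConvexFigure F → Tri o u (om * u) ⊆ F →
      F ⊆ Tri o' (((1 + ε : ℝ) : ℂ) * u) (((1 + ε : ℝ) : ℂ) * (om * u)) → ¬ Two F →
      ∃ a b : ℂ, segment ℝ a b ⊆ frontier F ∧ (1 / 2 - η) * ‖u‖ ≤ ‖a - b‖ ∧
        (∃ x ∈ segment ℝ o (o + u), ‖a - x‖ ≤ η * ‖u‖) ∧
        ∃ x ∈ segment ℝ o (o + u), ‖b - x‖ ≤ η * ‖u‖ := by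
  set t : ℝ := min (1 / 20) (η / 20) with ht
  have ht0 : 0 < t := lt_min (by norm_num) (by positivity)
  have ht1 : t ≤ 1 / 20 := min_le_left _ _
  have htη : t ≤ η / 20 := min_le_right _ _
  refine ⟨t ^ 2 / 1000, by positivity, ?_⟩
  intro ε hε hε0 F o' hF hT1 hT2 hTwo
  have hcoord := tE_coord hu hT1 hT2 hε
  set s : ℝ := ‖u‖ with hs
  have hs0 : 0 < s := norm_pos_iff.2 hu
  set n : ℂ := -(I * u) / (s : ℂ) with hn
  have hsC : (s : ℂ) ≠ 0 := by exact_mod_cast hs0.ne'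
  have hIn : I * n = u / (s : ℂ) := by
    rw [hn]
    field_simp
    rw [I_sq]; ring
  have hsIn : (s : ℂ) * (I * n) = u := by rw [hIn]; field_simp
  have hsn : (s : ℂ) * n = -(I * u) := by rw [hn]; field_simp
  have hnn : ‖n‖ = 1 := by
    rw [hn, norm_div, norm_neg, norm_mul, norm_I, one_mul, norm_real, Real.norm_eq_abs,
      abs_of_pos hs0, ← hs, div_self hs0.ne']
  have hInn : ‖I * n‖ = 1 := by rw [norm_mul, norm_I, one_mul, hnn]
  -- products with the frame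
  have hsq : u.re ^ 2 + u.im ^ 2 = s ^ 2 := by
    rw [hs, ← Complex.normSq_eq_norm_sq, Complex.normSq_apply]; ring
  have hs3 : Real.sqrt 3 ^ 2 = 3 := Real.sq_sqrt (by norm_num)
  set r : ℝ := Real.sqrt 3 / 2 with hr
  have hr2 : r ^ 2 = 3 / 4 := by rw [hr, div_pow, hs3]; norm_num
  have hr0 : 0 ≤ r := by rw [hr]; positivity
  have hr1 : 17 / 20 ≤ r := by
    clear_value r
    by_contra hc
    push Not at hc
    have : r ^ 2 < (17 / 20) ^ 2 := pow_lt_pow_left₀ hc hr0 (by norm_num)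
    rw [hr2] at this
    norm_num at this
  have hr1' : r ≤ 9 / 10 := by
    clear_value r
    by_contra hc
    push Not at hc
    have : (9 / 10 : ℝ) ^ 2 < r ^ 2 := pow_lt_pow_left₀ hc (by norm_num) (by norm_num)
    rw [hr2] at this
    norm_num at this
  have nre : n.re = u.im / s := by
    have h := congrArg Complex.re hsn
    rw [re_ofReal_mul] at h
    simp only [neg_re, mul_re, I_re, I_im] at h
    field_simp
    linarith
  have nim : n.im = -u.re / s := by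
    have h := congrArg Complex.im hsn
    rw [im_ofReal_mul] at h
    simp only [neg_im, mul_im, I_re, I_im] at h
    field_simp
    linarith
  have iun : ip u n = 0 := by
    simp only [ip, nre, nim]; ring
  have iue : ip u (I * n) = s := by
    have e1 : (I * n).re = u.re / s := by
      simp only [mul_re, I_re, I_im, nim]; ring
    have e2 : (I * n).im = u.im / s := by
      simp only [mul_im, I_re, I_im, nre]; ring
    simp only [ip, e1, e2]
    have : u.re * (u.re / s) + u.im * (u.im / s) = (u.re ^ 2 + u.im ^ 2) / s := by ring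
    rw [this, hsq]; field_simp
  have ivn : ip (om * u) n = -(r * s) := by
    simp only [ip, nre, nim, mul_re, mul_im, om]
    have : ((1 / 2 * u.re - Real.sqrt 3 / 2 * u.im) * (u.im / s) +
        (1 / 2 * u.im + Real.sqrt 3 / 2 * u.re) * (-u.re / s)) = -(r * ((u.re ^ 2 + u.im ^ 2) / s)) := by
      rw [hr]; ring
    rw [this, hsq]; field_simp
  have ive : ip (om * u) (I * n) = s / 2 := by
    have e1 : (I * n).re = u.re / s := by
      simp only [mul_re, I_re, I_im, nim]; ring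
    have e2 : (I * n).im = u.im / s := by
      simp only [mul_im, I_re, I_im, nre]; ring
    simp only [ip, e1, e2, mul_re, mul_im, om]
    have : ((1 / 2 * u.re - Real.sqrt 3 / 2 * u.im) * (u.re / s) +
        (1 / 2 * u.im + Real.sqrt 3 / 2 * u.re) * (u.im / s)) = ((u.re ^ 2 + u.im ^ 2) / s) / 2 := by
      ring
    rw [this, hsq]; field_simp
  -- values on `F`
  have vn : ∀ X Y : ℝ, ip (o + X * u + Y * (om * u)) n = ip o n - s * (r * Y) := by
    intro X Y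
    rw [tE_ip_add, tE_ip_add, tE_ip_smul, tE_ip_smul, iun, ivn]; ring
  have ve : ∀ X Y : ℝ, ip (o + X * u + Y * (om * u)) (I * n) = ip o (I * n) + s * (X + Y / 2) := by
    intro X Y
    rw [tE_ip_add, tE_ip_add, tE_ip_smul, tE_ip_smul, iue, ive]; ring
  have vd : ∀ X Y : ℝ, ip (o + X * u + Y * (om * u)) (n + t * (I * n)) =
      (ip o n + t * ip o (I * n)) + s * (t * (X + Y / 2) - r * Y) := by
    intro X Y
    rw [tE_ip_addr, tE_ip_smulr, vn, ve]; ring
  have hoF : o ∈ F := hT1 ⟨0, 0, le_rfl, le_rfl, by norm_num, by simp⟩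
  have hyF : o + u ∈ F := hT1 ⟨1, 0, by norm_num, le_rfl, by norm_num, by simp⟩
  have hvF : o + om * u ∈ F := hT1 ⟨0, 1, le_rfl, by norm_num, by norm_num, by simp⟩
  have hεt : ε / t ≤ t / 1000 := by
    rw [div_le_iff₀ ht0]
    have : t / 1000 * t = t ^ 2 / 1000 := by ring
    rw [this]; exact hε0
  have hεt0 : 0 ≤ ε / t := by positivity
  have hεeq : ε = t * (ε / t) := by field_simp
  set k : ℝ := ε / t with hk
  have hεk : ε ≤ k := by
    rw [hεeq]
    calc t * k ≤ 1 * k := mul_le_mul_of_nonneg_right (by linarith) hεt0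
      _ = k := one_mul k
  -- maximisers
  have hmax : ∀ X Y : ℝ, -ε ≤ X → -ε ≤ Y → X + Y ≤ 1 + ε →
      ip (o + u) (n + t * (I * n)) ≤ ip (o + X * u + Y * (om * u)) (n + t * (I * n)) →
      Y ≤ 2 * t * ε ∧ 1 - k ≤ X + Y / 2 ∧ 1 - 2 * k ≤ X ∧ X ≤ 1 + 2 * ε := by
    intro X Y hX hY hXY hv
    have h1 := vd 1 0
    have e1 : o + ((1 : ℝ) : ℂ) * u + ((0 : ℝ) : ℂ) * (om * u) = o + u := by push_cast; ring
    rw [e1] at h1
    rw [h1, vd] at hv
    have h2 : s * (t * (1 + 0 / 2) - r * 0) ≤ s * (t * (X + Y / 2) - r * Y) := by linarith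
    have h3 : t * (1 + 0 / 2) - r * 0 ≤ t * (X + Y / 2) - r * Y := le_of_mul_le_mul_left h2 hs0
    have h4 : t ≤ t * (X + Y / 2) - r * Y := by linarith
    obtain ⟨a1, a2, a3⟩ := tE_num1 ht0 ht1 hr1 hr1' hε hεeq hεt0 hY hXY h4
    exact ⟨a1, a2, a3, by linarith⟩
  have hxmaxn : ∀ X Y : ℝ, -ε ≤ X → -ε ≤ Y → X + Y ≤ 1 + ε →
      ip (o + u) (n + t * (I * n)) ≤ ip (o + X * u + Y * (om * u)) (n + t * (I * n)) →
      ‖(o + X * u + Y * (om * u)) - (o + u)‖ ≤ 4 * s * k := by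
    intro X Y hX hY hXY hv
    obtain ⟨a1, a2, a3, a4⟩ := hmax X Y hX hY hXY hv
    have e1 : (o + X * u + Y * (om * u)) - (o + u) = ((X - 1 : ℝ) : ℂ) * u + (Y : ℂ) * (om * u) := by
      push_cast; ring
    rw [e1]
    refine (norm_add_le _ _).trans ?_
    rw [norm_mul, norm_mul, norm_mul, norm_real, norm_real, tE_om_norm, one_mul, ← hs,
      Real.norm_eq_abs, Real.norm_eq_abs]
    have b1 : |X - 1| ≤ 2 * k := abs_le.2 ⟨by linarith, by linarith⟩
    have b2 : |Y| ≤ 2 * k := by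
      refine abs_le.2 ⟨by linarith, a1.trans ?_⟩
      have : t * ε ≤ 1 * ε := mul_le_mul_of_nonneg_right (by linarith) hε
      linarith
    have b3 : |X - 1| * s ≤ 2 * k * s := mul_le_mul_of_nonneg_right b1 hs0.le
    have b4 : |Y| * s ≤ 2 * k * s := mul_le_mul_of_nonneg_right b2 hs0.le
    linarith
  -- minimisers
  have hmin : ∀ X Y : ℝ, -ε ≤ X → -ε ≤ Y → X + Y ≤ 1 + ε →
      ip (o + X * u + Y * (om * u)) (n + t * (I * n)) ≤ ip (o + om * u) (n + t * (I * n)) →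
      X ≤ 2 * k ∧ Y ≤ 1 + 2 * ε := by
    intro X Y hX hY hXY hv
    have h1 := vd 0 1
    have e1 : o + ((0 : ℝ) : ℂ) * u + ((1 : ℝ) : ℂ) * (om * u) = o + om * u := by push_cast; ring
    rw [e1] at h1
    rw [h1, vd] at hv
    have h2 : s * (t * (X + Y / 2) - r * Y) ≤ s * (t * (0 + 1 / 2) - r * 1) := by linarith
    have h3 : t * (X + Y / 2) - r * Y ≤ t * (0 + 1 / 2) - r * 1 := le_of_mul_le_mul_left h2 hs0
    exact tE_num2 ht0 ht1 hr1 hr1' hε hεeq hX hXY h3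
  -- apply `edge`
  have hkt : 4 * s * k ≤ t * s / 100 := by
    have : s * k ≤ s * (t / 1000) := mul_le_mul_of_nonneg_left hεt hs0.le
    have h0 : 0 ≤ t * s := by positivity
    linarith
  have key := edge (F := F) hF hTwo (y := o + u) (n := n) (s := s) (t := t) (δ := 4 * s * k)
    (b := s * (1 / 2 - 2 * t)) (h := r * s) hnn hs0 ht0 (by linarith) (by positivity) hkt
    (by apply mul_pos hs0; linarith) (by
      have := mul_le_mul_of_nonneg_right hr1 hs0.le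
      linarith)
    (by
      rw [hsIn]
      have : o + u - u = o := by ring
      rw [this]; exact hoF)
    (by
      refine ⟨s / 2, by positivity, le_rfl, ?_⟩
      have e1 : ((s / 2 : ℝ) : ℂ) * (I * n) = u / 2 := by
        have : ((s / 2 : ℝ) : ℂ) * (I * n) = ((s : ℂ) * (I * n)) / 2 := by push_cast; ring
        rw [this, hsIn]
      have e2 : ((r * s : ℝ) : ℂ) * n = -((r : ℂ) * (I * u)) := by
        have : ((r * s : ℝ) : ℂ) * n = (r : ℂ) * ((s : ℂ) * n) := by push_cast; ring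
        rw [this, hsn]; ring
      rw [e1, e2]
      have e3 : om = 1 / 2 + (r : ℂ) * I := by
        apply Complex.ext
        · simp [om]
        · simp [om, hr]
      have e4 : o + u - u / 2 - -((r : ℂ) * (I * u)) = o + om * u := by
        rw [e3]; ring
      rw [e4]; exact hvF)
    (by
      intro p hp hpm
      obtain ⟨X, Y, hX, hY, hXY, rfl⟩ := hcoord p hp
      exact hxmaxn X Y hX hY hXY (hpm _ hyF))
    (by
      intro p hp hpm q hq hqm
      obtain ⟨X, Y, hX, hY, hXY, rfl⟩ := hcoord p hp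
      obtain ⟨X', Y', hX', hY', hXY', rfl⟩ := hcoord q hq
      obtain ⟨a1, a2, a3, a4⟩ := hmax X Y hX hY hXY (hpm _ hyF)
      obtain ⟨b1, b2⟩ := hmin X' Y' hX' hY' hXY' (hqm _ hvF)
      rw [tE_ip_subr, tE_ip_smulr, tE_ip_sub, tE_ip_sub, vn, vn, ve, ve]
      have e : ip o (I * n) + s * (X + Y / 2) - (ip o (I * n) + s * (X' + Y' / 2)) -
          t * (ip o n - s * (r * Y) - (ip o n - s * (r * Y'))) =
          s * ((X + Y / 2) - (X' + Y' / 2) - t * r * (Y' - Y)) := by ring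
      rw [e]
      apply mul_le_mul_of_nonneg_left _ hs0.le
      exact tE_num3 ht0 ht1 hr0 hr1' hε hεk hεt a2 (by linarith) (by linarith))
  obtain ⟨p, f, hseg, hpy, hlow, hdir⟩ := key
  set Λ : ℝ := ‖f - p‖ with hΛ
  have hΛ0 : 0 ≤ Λ := norm_nonneg _
  have hfr : frontier F ⊆ F := by
    intro x hx
    have := frontier_subset_closure hx
    rwa [hF.1.isClosed.closure_eq] at this
  have hpF : p ∈ F := hfr (hseg (left_mem_segment ℝ p f))
  have hfF : f ∈ F := hfr (hseg (right_mem_segment ℝ p f))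
  obtain ⟨Xp, Yp, hXp, hYp, hXYp, ep⟩ := hcoord p hpF
  obtain ⟨Xf, Yf, hXf, hYf, hXYf, ef⟩ := hcoord f hfF
  have hΛ1 : Λ ≤ (1 + 4 * t) * s := by
    have h1 : ip (f - p) (I * n) = s * ((Xf + Yf / 2) - (Xp + Yp / 2)) := by
      rw [tE_ip_sub, ep, ef, ve, ve]; ring
    have h2 : ip (f - p + (Λ : ℂ) * (I * n)) (I * n) ≤ 2 * t * Λ := by
      refine (tE_ip_le _ _).trans ?_
      rw [hInn, mul_one]; exact hdir
    have h3 : ip (I * n) (I * n) = 1 := by
      have : ip (I * n) (I * n) = ‖I * n‖ ^ 2 := by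
        rw [← Complex.normSq_eq_norm_sq, Complex.normSq_apply]; simp only [ip]
      rw [this, hInn]; norm_num
    rw [tE_ip_add, tE_ip_smul, h3, h1] at h2
    have h4 : (1 - 2 * t) * Λ ≤ s * (1 + 4 * ε) := by
      have : s * ((Xp + Yp / 2) - (Xf + Yf / 2)) ≤ s * (1 + 4 * ε) :=
        mul_le_mul_of_nonneg_left (by linarith) hs0.le
      linarith
    have h5 : s * (1 + 4 * ε) ≤ (1 - 2 * t) * ((1 + 4 * t) * s) := by
      have : 1 + 4 * ε ≤ (1 - 2 * t) * (1 + 4 * t) := tE_num4 ht0 ht1 (hεk.trans hεt)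
      calc s * (1 + 4 * ε) ≤ s * ((1 - 2 * t) * (1 + 4 * t)) := mul_le_mul_of_nonneg_left this hs0.le
        _ = _ := by ring
    have h6 : 0 < 1 - 2 * t := by linarith
    exact le_of_mul_le_mul_left (h4.trans h5) h6
  refine ⟨f, p, ?_, ?_, ?_, ?_⟩
  · rw [segment_symm]; exact hseg
  · refine le_trans ?_ hlow
    have : (1 - 3 * t) * (s * (1 / 2 - 2 * t)) = ((1 - 3 * t) * (1 / 2 - 2 * t)) * s := by ring
    rw [this]
    apply mul_le_mul_of_nonneg_right _ hs0.le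
    have e : (1 - 3 * t) * (1 / 2 - 2 * t) = 1 / 2 - 7 / 2 * t + 6 * t ^ 2 := by ring
    rw [e]
    have : 0 ≤ t ^ 2 := sq_nonneg t
    linarith
  · set m : ℝ := min Λ s with hm
    have hm0 : 0 ≤ m := le_min hΛ0 hs0.le
    have hm1 : m ≤ s := min_le_right _ _
    have hm2 : |Λ - m| ≤ 4 * t * s := by
      rcases le_total Λ s with h | h
      · rw [hm, min_eq_left h, sub_self, abs_zero]; positivity
      · rw [hm, min_eq_right h, abs_of_nonneg (by linarith)]; linarith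
    refine ⟨o + u - (m : ℂ) * (I * n), ?_, ?_⟩
    · refine ⟨m / s, 1 - m / s, by positivity, ?_, by ring, ?_⟩
      · rw [sub_nonneg, div_le_one hs0]; exact hm1
      · rw [hIn]
        simp only [Complex.real_smul]
        push_cast
        field_simp
        ring
    · have e1 : f - (o + u - (m : ℂ) * (I * n)) =
          (f - p + (Λ : ℂ) * (I * n)) + (p - (o + u)) - ((Λ - m : ℝ) : ℂ) * (I * n) := by
        push_cast; ring
      rw [e1]
      refine (norm_sub_le _ _).trans ?_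
      have e2 : ‖((Λ - m : ℝ) : ℂ) * (I * n)‖ = |Λ - m| := by
        rw [norm_mul, hInn, mul_one, norm_real, Real.norm_eq_abs]
      rw [e2]
      have e3 := norm_add_le (f - p + (Λ : ℂ) * (I * n)) (p - (o + u))
      have e4 : 2 * t * Λ ≤ 2 * t * ((1 + 4 * t) * s) := mul_le_mul_of_nonneg_left hΛ1 (by positivity)
      have e5 : 2 * t * ((1 + 4 * t) * s) ≤ 3 * t * s := by
        have : 2 * t * ((1 + 4 * t) * s) = (2 * (1 + 4 * t)) * (t * s) := by ring
        rw [this]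
        have h0 : 0 ≤ t * s := by positivity
        have h1 : 2 * (1 + 4 * t) ≤ 3 := by linarith
        calc 2 * (1 + 4 * t) * (t * s) ≤ 3 * (t * s) := mul_le_mul_of_nonneg_right h1 h0
          _ = 3 * t * s := by ring
      have e6 : 8 * (t * s) ≤ η * s := by
        have h1 : 8 * t ≤ η := by linarith
        calc 8 * (t * s) = 8 * t * s := by ring
          _ ≤ η * s := mul_le_mul_of_nonneg_right h1 hs0.le
      have e7 : 0 ≤ t * s := by positivity
      linarith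
  · refine ⟨o + u, right_mem_segment ℝ _ _, hpy.trans (hkt.trans ?_)⟩
    have h1 : t / 100 ≤ η := by linarith
    calc t * s / 100 = t / 100 * s := by ring
      _ ≤ η * s := mul_le_mul_of_nonneg_right h1 hs0.le

end Pool.Agent.H50.CP
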