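import Pool.Agent.H50.CP.Corner
import Pool.Agent.H50.CP.TriEdge

set_option autoImplicit false

/-!
# A vertex near a corner of the equilateral triangle (row CP TriCorner: prove `tri_corner`; `corner_abs` may be used)

PROOF. As in TriEdge.lean: `s = ‖u‖`, `n = -I u/s`, `I n = u/s`, `r = √3/2`; points of `F` are `z = o + X u + Y (om u)` with
`X, Y ≥ -ε`, `X + Y ≤ 1 + ε` (`tE_coord`, copy it), `ip z n = ip o n - r s Y`, `ip z (I n) = ip o (I n) + s (X + Y/2)`.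
`y = o + u`; `d = n + 3 I n`, `m = (1/2) n + r I n`, `κ = s/10`; `ρ = min (1/2) (η/2)`, `ε₀ = ρ/1000`; `δ = 3 ε s`.
`ip z d = const + s (3 X + k Y)`, `k = 3/2 - r`, `3/5 ≤ k ≤ 7/10`.
Maximiser `p` of `ip · d` (value at `y` is `3`): `3 X + k Y ≥ 3`, so `Y ≤ 3 ε/(3-k) ≤ 2 ε`, `X ≥ 1 - ε` (`k Y ≤ 3 ε`), `X ≤ 1 + 2 ε`;
so `‖p - y‖ ≤ 4 ε s ≤ η s`. Minimiser `q` (value at `o` is `0`): `3 X + k Y ≤ 0`: `X ≤ ε`, `Y ≤ 5 ε`. `corner_abs`:
* h1: `I d = I n - 3 n`, `ip z (I d) = const + s (X + (1/2 + 3 r) Y)`, `1/2 + 3 r ≤ 16/5`: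
  `ip (p-q) (I d) ≥ s ((1 - 2 ε) - (16/5)(6 ε)) ≥ s (1 - 22 ε)`; `κ ip m d = (s/10)(1/2 + 3 r) ≤ (s/10)(16/5) < s (1 - 22 ε)/2`.
* h3: `ip (x - p) n = r s (Yp - Yx) ≤ 3 ε s = δ`; `2 δ = 6 ε s ≤ ρ κ = ρ s/10`.
* h4: `v` unit, `a = ip v n`, `b = ip v (I n)`, `a² + b² = 1`; for `w = x u + y om u`: `ip w v = s (x b + y (b/2 - r a))`.
  `o ∈ F`: `Xp b + Yp (b/2 - r a) ≥ 0`, so `b ≥ -4 ε`. `o + om u ∈ F`: `-Xp b + (1 - Yp)(b/2 - r a) ≤ 0`, so
  `r a + b/2 ≥ -8 ε` (`|a|, |b| ≤ 1`, `|Xp - 1|, |Yp| ≤ 2 ε`). If `b ≤ ρ` then `r a ≥ -8 ε - ρ/2`, so `a ≥ -ρ`.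
  `M = ip m v = a/2 + r b`, `N = b/2 - r a`: `M² + N² = 1`, `b = r M + N/2`, `r a + b/2 = r M - N/2`. So `|N| ≤ 2 r M + 16 ε`, and
  `M < 2/5` would give `-7 ε ≤ M`, `|N| ≤ 71/100`, `M² + N² < 1`.
Result: `p`, `v`: `s d = -I u + 3 u`, `a' = s v`, `‖s v - (-I u)‖ = s ‖v - n‖ ≤ 2 ρ s ≤ η s`.
-/

namespace Pool.Agent.H50.CP

open Pool.Agent.H90.Clone Pool.Agent.H21.Tri Complex Set Pointwise MeasureTheory

private lemma tC_ip_add (a b c : ℂ) : ip (a + b) c = ip a c + ip b c := by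
  simp only [ip, add_re, add_im]; ring

private lemma tC_ip_sub (a b c : ℂ) : ip (a - b) c = ip a c - ip b c := by
  simp only [ip, sub_re, sub_im]; ring

private lemma tC_ip_addr (a b c : ℂ) : ip a (b + c) = ip a b + ip a c := by
  simp only [ip, add_re, add_im]; ring

private lemma tC_ip_subr (a b c : ℂ) : ip a (b - c) = ip a b - ip a c := by
  simp only [ip, sub_re, sub_im]; ring

private lemma tC_ip_smul (t : ℝ) (a c : ℂ) : ip ((t : ℂ) * a) c = t * ip a c := by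
  simp only [ip, re_ofReal_mul, im_ofReal_mul]; ring

private lemma tC_ip_smulr (t : ℝ) (a c : ℂ) : ip a ((t : ℂ) * c) = t * ip a c := by
  simp only [ip, re_ofReal_mul, im_ofReal_mul]; ring

private lemma tC_ip_le (a c : ℂ) : ip a c ≤ ‖a‖ * ‖c‖ := by
  have h1 : ip a c = (a * (starRingEnd ℂ) c).re := by
    simp only [ip, mul_re, conj_re, conj_im]; ring
  rw [h1]
  refine (re_le_norm _).trans ?_
  rw [norm_mul, RCLike.norm_conj]

private lemma tC_om_norm : ‖om‖ = 1 := by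
  have h3 : Real.sqrt 3 ^ 2 = 3 := Real.sq_sqrt (by norm_num)
  have h : ‖om‖ ^ 2 = 1 := by
    rw [← Complex.normSq_eq_norm_sq, Complex.normSq_apply]
    simp only [om]
    nlinarith
  have h0 : 0 ≤ ‖om‖ := norm_nonneg _
  nlinarith [sq_nonneg (‖om‖ - 1)]

/-- the coordinates of the points of `F` -/
private lemma tC_coord {o u : ℂ} (hu : u ≠ 0) {ε : ℝ} {F : Set ℂ} {o' : ℂ} (h1 : Tri o u (om * u) ⊆ F)
    (h2 : F ⊆ Tri o' (((1 + ε : ℝ) : ℂ) * u) (((1 + ε : ℝ) : ℂ) * (om * u))) (hε : 0 ≤ ε) :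
    ∀ z ∈ F, ∃ X Y : ℝ, -ε ≤ X ∧ -ε ≤ Y ∧ X + Y ≤ 1 + ε ∧ z = o + X * u + Y * (om * u) := by
  have hind : ∀ c d : ℝ, (c : ℂ) * u + (d : ℂ) * (om * u) = 0 → c = 0 ∧ d = 0 := by
    intro c d h
    have h3 : ((c : ℂ) + (d : ℂ) * om) * u = 0 := by rw [← h]; ring
    have h4 : (c : ℂ) + (d : ℂ) * om = 0 := by
      rcases mul_eq_zero.1 h3 with h | h
      · exact h
      · exact absurd h hu
    have him := congrArg Complex.im h4
    have hre := congrArg Complex.re h4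
    simp only [om, add_re, add_im, re_ofReal_mul, im_ofReal_mul, ofReal_re, ofReal_im, zero_re,
      zero_im] at him hre
    have hs : 0 < Real.sqrt 3 := Real.sqrt_pos.2 (by norm_num)
    have hd : d = 0 := by
      have : d * (Real.sqrt 3 / 2) = 0 := by linarith
      rcases mul_eq_zero.1 this with h | h
      · exact h
      · linarith
    rw [hd] at hre
    exact ⟨by linarith, hd⟩
  have ho : o ∈ Tri o u (om * u) := ⟨0, 0, le_rfl, le_rfl, by norm_num, by simp⟩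
  have hou : o + u ∈ Tri o u (om * u) := ⟨1, 0, by norm_num, le_rfl, by norm_num, by simp⟩
  obtain ⟨x0, y0, hx0, hy0, hxy0, e0⟩ := h2 (h1 ho)
  obtain ⟨x1, y1, hx1, hy1, hxy1, e1⟩ := h2 (h1 hou)
  have hk := hind (1 + x0 * (1 + ε) - x1 * (1 + ε)) (y0 * (1 + ε) - y1 * (1 + ε)) (by
    push_cast
    have : (u : ℂ) = (o + u) - o := by ring
    push_cast at e0 e1
    linear_combination e1 - e0)
  obtain ⟨k1, k2⟩ := hk
  intro z hz
  obtain ⟨x, y, hx, hy, hxy, e⟩ := h2 hz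
  have hp0 : 0 ≤ 1 + ε := by linarith
  have g0 : 0 ≤ x0 * (1 + ε) := mul_nonneg hx0 hp0
  have g0' : 0 ≤ y0 * (1 + ε) := mul_nonneg hy0 hp0
  have g1 : 0 ≤ x1 * (1 + ε) := mul_nonneg hx1 hp0
  have g1' : 0 ≤ y1 * (1 + ε) := mul_nonneg hy1 hp0
  have g2 : 0 ≤ x * (1 + ε) := mul_nonneg hx hp0
  have g2' : 0 ≤ y * (1 + ε) := mul_nonneg hy hp0
  have g3 : (x + y) * (1 + ε) ≤ 1 * (1 + ε) := mul_le_mul_of_nonneg_right hxy hp0
  have g4 : (x1 + y1) * (1 + ε) ≤ 1 * (1 + ε) := mul_le_mul_of_nonneg_right hxy1 hp0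
  refine ⟨x * (1 + ε) - x0 * (1 + ε), y * (1 + ε) - y0 * (1 + ε), by nlinarith, by nlinarith,
    by nlinarith, ?_⟩
  push_cast at e e0 ⊢
  linear_combination e - e0

private lemma tC_max {k ε X Y : ℝ} (hk0 : 3 / 5 ≤ k) (hk1 : k ≤ 13 / 20) (hε : 0 ≤ ε)
    (hY : -ε ≤ Y) (hXY : X + Y ≤ 1 + ε) (h : 3 ≤ 3 * X + k * Y) :
    Y ≤ 2 * ε ∧ 1 - ε ≤ X ∧ X ≤ 1 + 2 * ε := by
  have h1 : Y ≤ 2 * ε := by
    by_contra hc
    push Not at hc
    have hY0 : 0 < Y := lt_of_le_of_lt (by positivity) hc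
    have a1 : k * Y ≤ 13 / 20 * Y := mul_le_mul_of_nonneg_right hk1 hY0.le
    linarith
  refine ⟨h1, ?_, by linarith⟩
  by_cases hY0 : 0 ≤ Y
  · have a1 : k * Y ≤ 13 / 20 * Y := mul_le_mul_of_nonneg_right hk1 hY0
    linarith
  · push Not at hY0
    have a1 : k * Y ≤ 0 := mul_nonpos_of_nonneg_of_nonpos (by linarith) hY0.le
    linarith

private lemma tC_min {k ε X Y : ℝ} (hk0 : 3 / 5 ≤ k) (hk1 : k ≤ 13 / 20) (hε : 0 ≤ ε)
    (hX : -ε ≤ X) (hY : -ε ≤ Y) (h : 3 * X + k * Y ≤ 0) : X ≤ ε ∧ Y ≤ 5 * ε := by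
  constructor
  · have a1 : k * (-ε) ≤ k * Y := mul_le_mul_of_nonneg_left hY (by linarith)
    have a2 : k * ε ≤ 13 / 20 * ε := mul_le_mul_of_nonneg_right hk1 hε
    linarith
  · by_contra hc
    push Not at hc
    have hY0 : 0 < Y := lt_of_le_of_lt (by positivity) hc
    have a1 : 3 / 5 * Y ≤ k * Y := mul_le_mul_of_nonneg_right hk0 hY0.le
    linarith

private lemma tC_abs {a b c e : ℝ} (h : a ^ 2 + b ^ 2 = 1) (h' : c ^ 2 + e ^ 2 = 1) :
    |a * c + b * e| ≤ 1 := by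
  rw [abs_le]
  constructor
  · nlinarith [sq_nonneg (a + c), sq_nonneg (b + e)]
  · nlinarith [sq_nonneg (a - c), sq_nonneg (b - e)]

/-- The inequalities for the second functional; `P = b / 2 - r a`. -/
private lemma tC_v {a b r ε ρ X Y : ℝ} (hab : a ^ 2 + b ^ 2 = 1) (hr2 : r ^ 2 = 3 / 4)
    (hr0 : 17 / 20 ≤ r) (hr1 : r ≤ 9 / 10) (hε : 0 ≤ ε) (hερ : ε ≤ ρ / 1000) (hρ : ρ ≤ 1 / 2)
    (hX0 : 1 - ε ≤ X) (hX1 : X ≤ 1 + 2 * ε) (hY0 : -ε ≤ Y) (hY1 : Y ≤ 2 * ε)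
    (h1 : 0 ≤ X * b + Y * (b / 2 - r * a))
    (h2 : b / 2 - r * a ≤ X * b + Y * (b / 2 - r * a)) :
    2 / 5 ≤ a / 2 + r * b ∧ -ρ ≤ b ∧ (b ≤ ρ → -ρ ≤ a) := by
  have hb : |b| ≤ 1 := abs_le_of_sq_le_sq (by nlinarith [sq_nonneg a]) zero_le_one
  have hP : |b / 2 - r * a| ≤ 1 := by
    have := tC_abs (a := b) (b := a) (c := 1 / 2) (e := -r) (by linarith)
      (by nlinarith)
    have e : b * (1 / 2) + a * -r = b / 2 - r * a := by ring
    rwa [e] at this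
  have hb1 := abs_le.1 hb
  have hP1 := abs_le.1 hP
  have hYP : |Y * (b / 2 - r * a)| ≤ 2 * ε := by
    rw [abs_mul]
    have hY : |Y| ≤ 2 * ε := abs_le.2 ⟨by linarith, hY1⟩
    calc |Y| * |b / 2 - r * a| ≤ 2 * ε * 1 := mul_le_mul hY hP (abs_nonneg _) (by linarith)
      _ = 2 * ε := mul_one _
  have hXb : |(X - 1) * b| ≤ 2 * ε := by
    rw [abs_mul]
    have hX : |X - 1| ≤ 2 * ε := abs_le.2 ⟨by linarith, by linarith⟩
    calc |X - 1| * |b| ≤ 2 * ε * 1 := mul_le_mul hX hb (abs_nonneg _) (by linarith)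
      _ = 2 * ε := mul_one _
  have hYP1 := abs_le.1 hYP
  have hXb1 := abs_le.1 hXb
  have eX : X * b = b + (X - 1) * b := by ring
  have k1 : -(4 * ε) ≤ b := by
    rw [eX] at h1
    linarith
  have k2 : -(4 * ε) ≤ r * a + b / 2 := by
    rw [eX] at h2
    linarith
  have hρ0 : 0 ≤ ρ := by linarith
  refine ⟨?_, by linarith, fun hbρ => ?_⟩
  · by_contra hc
    push Not at hc
    set M := a / 2 + r * b with hM
    set N := b / 2 - r * a with hN
    have e1 : M ^ 2 + N ^ 2 = 1 := by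
      have : M ^ 2 + N ^ 2 = (a ^ 2 + b ^ 2) * (1 / 4 + r ^ 2) := by rw [hM, hN]; ring
      rw [this, hab, hr2]
      norm_num
    have e2 : b = r * M + N / 2 := by
      have : r * M + N / 2 = r ^ 2 * b + b / 4 := by rw [hM, hN]; ring
      rw [this, hr2]
      ring
    have e3 : r * a + b / 2 = r * M - N / 2 := by
      have : r * M - N / 2 = r * a + r ^ 2 * b - b / 4 := by rw [hM, hN]; ring
      rw [this, hr2]
      ring
    rw [e2] at k1
    rw [e3] at k2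
    have hM0 : -(10 * ε) ≤ M := by
      have h5 : -(4 * ε) ≤ r * M := by linarith
      by_contra hc2
      push Not at hc2
      have : r * M ≤ 17 / 20 * M := by
        have : M < 0 := lt_of_lt_of_le hc2 (by linarith)
        nlinarith
      linarith
    have hrM : r * M ≤ 9 / 25 := by
      by_cases hM1 : 0 ≤ M
      · nlinarith
      · push Not at hM1
        have : r * M ≤ 0 := mul_nonpos_of_nonneg_of_nonpos (by linarith) hM1.le
        linarith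
    have hN1 : N ≤ 3 / 4 := by linarith
    have hN2 : -(3 / 4) ≤ N := by linarith
    have hM2 : M ^ 2 ≤ (2 / 5) ^ 2 := by
      apply sq_le_sq'
      · linarith
      · exact hc.le
    have hN3 : N ^ 2 ≤ (3 / 4) ^ 2 := sq_le_sq' hN2 hN1
    norm_num at hM2 hN3
    linarith
  · by_contra hc
    push Not at hc
    have h5 : r * a ≤ 17 / 20 * a := by
      have : a < 0 := lt_of_lt_of_le hc (by linarith)
      nlinarith
    linarith

/-- a vertex near the corner `o + u`, for the side from `o` to `o + u` -/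
theorem tri_corner (o u : ℂ) (hu : u ≠ 0) {η : ℝ} (hη : 0 < η) : ∃ ε₀ : ℝ, 0 < ε₀ ∧
    ∀ ε : ℝ, 0 ≤ ε → ε ≤ ε₀ → ∀ (F : Set ℂ) (o' : ℂ), IsConvexFigure F → Tri o u (om * u) ⊆ F →
      F ⊆ Tri o' (((1 + ε : ℝ) : ℂ) * u) (((1 + ε : ℝ) : ℂ) * (om * u)) → ¬ Two F →
      ∃ p ∈ F, ‖p - (o + u)‖ ≤ η * ‖u‖ ∧
        (∀ x ∈ F, ip x (3 * u - I * u) ≤ ip p (3 * u - I * u)) ∧
        ∃ a : ℂ, ‖a - -(I * u)‖ ≤ η * ‖u‖ ∧ ∀ x ∈ F, ip x a ≤ ip p a := by
  set ρ : ℝ := min (1 / 2) (η / 2) with hρd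
  have hρ0 : 0 < ρ := lt_min (by norm_num) (by positivity)
  have hρ1 : ρ ≤ 1 / 2 := min_le_left _ _
  have hρη : ρ ≤ η / 2 := min_le_right _ _
  refine ⟨ρ / 1000, by positivity, ?_⟩
  intro ε hε hε0 F o' hF hT1 hT2 hTwo
  have hcoord := tC_coord hu hT1 hT2 hε
  set s : ℝ := ‖u‖ with hs
  have hs0 : 0 < s := norm_pos_iff.2 hu
  set n : ℂ := -(I * u) / (s : ℂ) with hn
  have hsC : (s : ℂ) ≠ 0 := by exact_mod_cast hs0.ne'
  have hIn : I * n = u / (s : ℂ) := by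
    rw [hn]
    field_simp
    rw [I_sq]; ring
  have hsIn : (s : ℂ) * (I * n) = u := by rw [hIn]; field_simp
  have hsn : (s : ℂ) * n = -(I * u) := by rw [hn]; field_simp
  have hnn : ‖n‖ = 1 := by
    rw [hn, norm_div, norm_neg, norm_mul, norm_I, one_mul, norm_real, Real.norm_eq_abs,
      abs_of_pos hs0, ← hs, div_self hs0.ne']
  have hInn : ‖I * n‖ = 1 := by rw [norm_mul, norm_I, one_mul, hnn]
  -- products with the frame
  have hsq : u.re ^ 2 + u.im ^ 2 = s ^ 2 := by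
    rw [hs, ← Complex.normSq_eq_norm_sq, Complex.normSq_apply]; ring
  have hs3 : Real.sqrt 3 ^ 2 = 3 := Real.sq_sqrt (by norm_num)
  set r : ℝ := Real.sqrt 3 / 2 with hr
  have hr2 : r ^ 2 = 3 / 4 := by rw [hr, div_pow, hs3]; norm_num
  have hr0 : 0 ≤ r := by rw [hr]; positivity
  have hr1 : 17 / 20 ≤ r := by
    clear_value r
    by_contra hc
    push Not at hc
    have : r ^ 2 < (17 / 20) ^ 2 := pow_lt_pow_left₀ hc hr0 (by norm_num)
    rw [hr2] at this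
    norm_num at this
  have hr1' : r ≤ 9 / 10 := by
    clear_value r
    by_contra hc
    push Not at hc
    have : (9 / 10 : ℝ) ^ 2 < r ^ 2 := pow_lt_pow_left₀ hc (by norm_num) (by norm_num)
    rw [hr2] at this
    norm_num at this
  have nre : n.re = u.im / s := by
    have h := congrArg Complex.re hsn
    rw [re_ofReal_mul] at h
    simp only [neg_re, mul_re, I_re, I_im] at h
    field_simp
    linarith
  have nim : n.im = -u.re / s := by
    have h := congrArg Complex.im hsn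
    rw [im_ofReal_mul] at h
    simp only [neg_im, mul_im, I_re, I_im] at h
    field_simp
    linarith
  have iun : ip u n = 0 := by
    simp only [ip, nre, nim]; ring
  have iue : ip u (I * n) = s := by
    have e1 : (I * n).re = u.re / s := by
      simp only [mul_re, I_re, I_im, nim]; ring
    have e2 : (I * n).im = u.im / s := by
      simp only [mul_im, I_re, I_im, nre]; ring
    simp only [ip, e1, e2]
    have : u.re * (u.re / s) + u.im * (u.im / s) = (u.re ^ 2 + u.im ^ 2) / s := by ring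
    rw [this, hsq]; field_simp
  have ivn : ip (om * u) n = -(r * s) := by
    simp only [ip, nre, nim, mul_re, mul_im, om]
    have : ((1 / 2 * u.re - Real.sqrt 3 / 2 * u.im) * (u.im / s) +
        (1 / 2 * u.im + Real.sqrt 3 / 2 * u.re) * (-u.re / s)) = -(r * ((u.re ^ 2 + u.im ^ 2) / s)) := by
      rw [hr]; ring
    rw [this, hsq]; field_simp
  have ive : ip (om * u) (I * n) = s / 2 := by
    have e1 : (I * n).re = u.re / s := by
      simp only [mul_re, I_re, I_im, nim]; ring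
    have e2 : (I * n).im = u.im / s := by
      simp only [mul_im, I_re, I_im, nre]; ring
    simp only [ip, e1, e2, mul_re, mul_im, om]
    have : ((1 / 2 * u.re - Real.sqrt 3 / 2 * u.im) * (u.re / s) +
        (1 / 2 * u.im + Real.sqrt 3 / 2 * u.re) * (u.im / s)) = ((u.re ^ 2 + u.im ^ 2) / s) / 2 := by
      ring
    rw [this, hsq]; field_simp
  -- values on `F`
  have vn : ∀ X Y : ℝ, ip (o + X * u + Y * (om * u)) n = ip o n - s * (r * Y) := by
    intro X Y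
    rw [tC_ip_add, tC_ip_add, tC_ip_smul, tC_ip_smul, iun, ivn]; ring
  have ve : ∀ X Y : ℝ, ip (o + X * u + Y * (om * u)) (I * n) = ip o (I * n) + s * (X + Y / 2) := by
    intro X Y
    rw [tC_ip_add, tC_ip_add, tC_ip_smul, tC_ip_smul, iue, ive]; ring
  set k : ℝ := 3 / 2 - r with hk
  have hk0 : 3 / 5 ≤ k := by linarith
  have hk1 : k ≤ 13 / 20 := by linarith
  have i3 : ∀ w : ℂ, ip w (n + (3 : ℝ) * (I * n)) = ip w n + 3 * ip w (I * n) := by
    intro w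
    rw [tC_ip_addr, tC_ip_smulr]
  have vd : ∀ X Y : ℝ, ip (o + X * u + Y * (om * u)) (n + (3 : ℝ) * (I * n)) =
      (ip o n + 3 * ip o (I * n)) + s * (3 * X + k * Y) := by
    intro X Y
    rw [i3, vn, ve, hk]; ring
  have hoF : o ∈ F := hT1 ⟨0, 0, le_rfl, le_rfl, by norm_num, by simp⟩
  have hyF : o + u ∈ F := hT1 ⟨1, 0, by norm_num, le_rfl, by norm_num, by simp⟩
  have hvF : o + om * u ∈ F := hT1 ⟨0, 1, le_rfl, by norm_num, by norm_num, by simp⟩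
  have ey : o + ((1 : ℝ) : ℂ) * u + ((0 : ℝ) : ℂ) * (om * u) = o + u := by push_cast; ring
  have eo : o + ((0 : ℝ) : ℂ) * u + ((0 : ℝ) : ℂ) * (om * u) = o := by push_cast; ring
  -- maximisers and minimisers
  have hmax : ∀ p ∈ F, (∀ x ∈ F, ip x (n + (3 : ℝ) * (I * n)) ≤ ip p (n + (3 : ℝ) * (I * n))) →
      ∃ X Y : ℝ, p = o + X * u + Y * (om * u) ∧ -ε ≤ Y ∧ Y ≤ 2 * ε ∧ 1 - ε ≤ X ∧
        X ≤ 1 + 2 * ε := by
    intro p hp hpm
    obtain ⟨X, Y, hX, hY, hXY, e⟩ := hcoord p hp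
    have h1 := hpm _ hyF
    have h2 := vd 1 0
    rw [ey] at h2
    rw [h2, e, vd] at h1
    have h3 : s * (3 * 1 + k * 0) ≤ s * (3 * X + k * Y) := by linarith
    have h4 := le_of_mul_le_mul_left h3 hs0
    obtain ⟨a1, a2, a3⟩ := tC_max hk0 hk1 hε hY hXY (by linarith)
    exact ⟨X, Y, e, hY, a1, a2, a3⟩
  have hmin : ∀ q ∈ F, (∀ x ∈ F, ip q (n + (3 : ℝ) * (I * n)) ≤ ip x (n + (3 : ℝ) * (I * n))) →
      ∃ X Y : ℝ, q = o + X * u + Y * (om * u) ∧ X ≤ ε ∧ Y ≤ 5 * ε := by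
    intro q hq hqm
    obtain ⟨X, Y, hX, hY, hXY, e⟩ := hcoord q hq
    have h1 := hqm _ hoF
    have h2 := vd 0 0
    rw [eo] at h2
    rw [h2, e, vd] at h1
    have h3 : s * (3 * X + k * Y) ≤ s * (3 * 0 + k * 0) := by linarith
    have h4 := le_of_mul_le_mul_left h3 hs0
    obtain ⟨a1, a2⟩ := tC_min hk0 hk1 hε hX hY (by linarith)
    exact ⟨X, Y, e, a1, a2⟩
  have hId : I * (n + (3 : ℝ) * (I * n)) = I * n - (3 : ℝ) * n := by
    have : I * (n + (3 : ℝ) * (I * n)) = I * n + (3 : ℝ) * (I * I) * n := by ring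
    rw [this, I_mul_I]
    ring
  have inn : ip n n = 1 := by
    have h1 := ip_self_one hnn
    simp only [ip]
    linarith
  have ine : ip n (I * n) = 0 := by
    simp only [ip, mul_re, mul_im, I_re, I_im]; ring
  have ien : ip (I * n) n = 0 := by
    simp only [ip, mul_re, mul_im, I_re, I_im]; ring
  have iee : ip (I * n) (I * n) = 1 := by
    have h1 := ip_self_one hnn
    simp only [ip, mul_re, mul_im, I_re, I_im]
    nlinarith
  have hd0 : n + (3 : ℝ) * (I * n) ≠ 0 := by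
    intro h0
    have h1 := i3 n
    rw [h0, inn, ine] at h1
    simp [ip] at h1
  have hε1 : ε ≤ 1 / 2000 := by linarith
  have h1c : ∀ p ∈ F, (∀ x ∈ F, ip x (n + (3 : ℝ) * (I * n)) ≤ ip p (n + (3 : ℝ) * (I * n))) →
      ∀ q ∈ F, (∀ x ∈ F, ip q (n + (3 : ℝ) * (I * n)) ≤ ip x (n + (3 : ℝ) * (I * n))) →
      s / 10 * ip (((1 / 2 : ℝ) : ℂ) * n + (r : ℂ) * (I * n)) (n + (3 : ℝ) * (I * n)) <
        ip (p - q) (I * (n + (3 : ℝ) * (I * n))) / 2 := by
    intro p hp hpm q hq hqm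
    obtain ⟨X, Y, e, hY0, hY1, hX0, hX1⟩ := hmax p hp hpm
    obtain ⟨X', Y', e', hX', hY'⟩ := hmin q hq hqm
    have l1 : ip (((1 / 2 : ℝ) : ℂ) * n + (r : ℂ) * (I * n)) (n + (3 : ℝ) * (I * n)) =
        1 / 2 + 3 * r := by
      rw [i3, tC_ip_add, tC_ip_add, tC_ip_smul, tC_ip_smul, tC_ip_smul, tC_ip_smul, inn, ine, ien,
        iee]
      ring
    have l2 : ip (p - q) (I * (n + (3 : ℝ) * (I * n))) =
        s * ((X - X') + (1 / 2 + 3 * r) * (Y - Y')) := by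
      rw [hId, tC_ip_subr, tC_ip_smulr, tC_ip_sub, tC_ip_sub, e, e', vn, vn, ve, ve]
      ring
    rw [l1, l2]
    have l3 : (1 / 2 + 3 * r) * (-(6 * ε)) ≤ (1 / 2 + 3 * r) * (Y - Y') :=
      mul_le_mul_of_nonneg_left (by linarith) (by linarith)
    have l4 : (1 / 2 + 3 * r) * (6 * ε) ≤ 16 / 5 * (6 * ε) :=
      mul_le_mul_of_nonneg_right (by linarith) (by linarith)
    have l5 : 49 / 50 ≤ (X - X') + (1 / 2 + 3 * r) * (Y - Y') := by linarith
    have l6 : s * (49 / 50) ≤ s * ((X - X') + (1 / 2 + 3 * r) * (Y - Y')) :=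
      mul_le_mul_of_nonneg_left l5 hs0.le
    have l7 : s / 10 * (1 / 2 + 3 * r) ≤ s / 10 * (16 / 5) :=
      mul_le_mul_of_nonneg_left (by linarith) (by linarith)
    linarith
  have h3c : ∀ p ∈ F, (∀ x ∈ F, ip x (n + (3 : ℝ) * (I * n)) ≤ ip p (n + (3 : ℝ) * (I * n))) →
      ∀ x ∈ F, ip (x - p) n ≤ 3 * ε * s := by
    intro p hp hpm x hx
    obtain ⟨X, Y, e, hY0, hY1, hX0, hX1⟩ := hmax p hp hpm
    obtain ⟨X', Y', hX', hY', hXY', e'⟩ := hcoord x hx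
    rw [tC_ip_sub, e, e', vn, vn]
    have l1 : r * (Y - Y') ≤ r * (3 * ε) := mul_le_mul_of_nonneg_left (by linarith) hr0
    have l2 : r * (3 * ε) ≤ 1 * (3 * ε) := mul_le_mul_of_nonneg_right (by linarith) (by linarith)
    have l3 : s * (r * (Y - Y')) ≤ s * (3 * ε) := mul_le_mul_of_nonneg_left (by linarith) hs0.le
    linarith
  have h4c : ∀ p ∈ F, (∀ x ∈ F, ip x (n + (3 : ℝ) * (I * n)) ≤ ip p (n + (3 : ℝ) * (I * n))) →
      ∀ v : ℂ, ‖v‖ = 1 → (∀ x ∈ F, ip x v ≤ ip p v) →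
      2 / 5 ≤ ip (((1 / 2 : ℝ) : ℂ) * n + (r : ℂ) * (I * n)) v ∧ -ρ ≤ ip v (I * n) ∧
        (ip v (I * n) ≤ ρ → -ρ ≤ ip v n) := by
    intro p hp hpm v hv hvm
    obtain ⟨X, Y, e, hY0, hY1, hX0, hX1⟩ := hmax p hp hpm
    have comm : ∀ z w : ℂ, ip z w = ip w z := fun z w => by simp only [ip]; ring
    have hab := frame_sq hnn v
    rw [hv, one_pow] at hab
    have iuv : ip u v = s * ip v (I * n) := by
      have : ip u v = ip ((s : ℂ) * (I * n)) v := by rw [hsIn]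
      rw [this, tC_ip_smul, comm]
    have iov : ip (om * u) v = s * (ip v (I * n) / 2 - r * ip v n) := by
      have h5 := frame hnn (om * u)
      rw [ivn, ive] at h5
      have : ip (om * u) v = ip (((-(r * s) : ℝ) : ℂ) * n + ((s / 2 : ℝ) : ℂ) * (I * n)) v := by
        rw [← h5]
      rw [this, tC_ip_add, tC_ip_smul, tC_ip_smul, comm n v, comm (I * n) v]
      ring
    have vv : ∀ X Y : ℝ, ip (o + X * u + Y * (om * u)) v = ip o v +
        s * (X * ip v (I * n) + Y * (ip v (I * n) / 2 - r * ip v n)) := by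
      intro X Y
      rw [tC_ip_add, tC_ip_add, tC_ip_smul, tC_ip_smul, iuv, iov]; ring
    have l0 := hvm o hoF
    rw [e, vv] at l0
    have l1 : s * 0 ≤ s * (X * ip v (I * n) + Y * (ip v (I * n) / 2 - r * ip v n)) := by linarith
    have l2 := le_of_mul_le_mul_left l1 hs0
    have l3 := hvm _ hvF
    rw [e, vv, tC_ip_add, iov] at l3
    have l4 : s * (ip v (I * n) / 2 - r * ip v n) ≤
        s * (X * ip v (I * n) + Y * (ip v (I * n) / 2 - r * ip v n)) := by linarith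
    have l5 := le_of_mul_le_mul_left l4 hs0
    have l6 := tC_v hab hr2 hr1 hr1' hε hε0 hρ1 hX0 hX1 hY0 hY1 l2 l5
    have l7 : ip (((1 / 2 : ℝ) : ℂ) * n + (r : ℂ) * (I * n)) v =
        ip v n / 2 + r * ip v (I * n) := by
      rw [tC_ip_add, tC_ip_smul, tC_ip_smul, comm n v, comm (I * n) v]; ring
    rw [l7]
    exact l6
  have hδρ : 2 * (3 * ε * s) ≤ ρ * (s / 10) := by
    have : ε * s ≤ ρ / 1000 * s := mul_le_mul_of_nonneg_right hε0 hs0.le
    have h0 : 0 ≤ ρ * s := by positivity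
    linarith
  obtain ⟨p, hp, hpm, v, hv, hvn, hvm⟩ := corner_abs hF hTwo (n := n)
    (d := n + (3 : ℝ) * (I * n)) (m := ((1 / 2 : ℝ) : ℂ) * n + (r : ℂ) * (I * n))
    (κ := s / 10) (δ := 3 * ε * s) (ρ := ρ) hnn hd0 (by positivity) hρ0.le hρ1 hδρ h1c h3c h4c
  obtain ⟨X, Y, e, hY0, hY1, hX0, hX1⟩ := hmax p hp hpm
  refine ⟨p, hp, ?_, ?_, (s : ℂ) * v, ?_, ?_⟩
  · have e1 : p - (o + u) = ((X - 1 : ℝ) : ℂ) * u + (Y : ℂ) * (om * u) := by
      rw [e]; push_cast; ring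
    rw [e1]
    refine (norm_add_le _ _).trans ?_
    rw [norm_mul, norm_mul, norm_mul, norm_real, norm_real, tC_om_norm, one_mul, ← hs,
      Real.norm_eq_abs, Real.norm_eq_abs]
    have b1 : |X - 1| ≤ 2 * ε := abs_le.2 ⟨by linarith, by linarith⟩
    have b2 : |Y| ≤ 2 * ε := abs_le.2 ⟨by linarith, hY1⟩
    have b3 : |X - 1| * s ≤ 2 * ε * s := mul_le_mul_of_nonneg_right b1 hs0.le
    have b4 : |Y| * s ≤ 2 * ε * s := mul_le_mul_of_nonneg_right b2 hs0.le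
    have b5 : 4 * ε * s ≤ η * s := mul_le_mul_of_nonneg_right (by linarith) hs0.le
    linarith
  · have e1 : 3 * u - I * u = (s : ℂ) * (n + (3 : ℝ) * (I * n)) := by
      rw [mul_add, hsn]
      have : (s : ℂ) * ((3 : ℝ) * (I * n)) = 3 * ((s : ℂ) * (I * n)) := by push_cast; ring
      rw [this, hsIn]
      ring
    intro x hx
    rw [e1, tC_ip_smulr, tC_ip_smulr]
    exact mul_le_mul_of_nonneg_left (hpm x hx) hs0.le
  · have e1 : (s : ℂ) * v - -(I * u) = (s : ℂ) * (v - n) := by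
      rw [← hsn]; ring
    rw [e1, norm_mul, norm_real, Real.norm_eq_abs, abs_of_pos hs0]
    have : s * ‖v - n‖ ≤ s * η := mul_le_mul_of_nonneg_left (by linarith) hs0.le
    linarith
  · intro x hx
    rw [tC_ip_smulr, tC_ip_smulr]
    exact mul_le_mul_of_nonneg_left (hvm x hx) hs0.le

end Pool.Agent.H50.CP
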