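import Pool.Agent.H50.CP.Fin
import Pool.Agent.H50.CP.SqCorner
import Pool.Agent.H50.CP.TriCorner

set_option autoImplicit false

/-!
# Vertices: reflections and assembly
-/

namespace Pool.Agent.H50.CP

open Pool.Agent.H90.Clone Pool.Agent.H21.Tri Complex Set Pointwise MeasureTheory

/-- near `y` the figure has vertices for both sides of a corner of a square with outer normals
`a`, `b`: supporting lines nearly orthogonal to `a` and `a + b`, and to `b` and `a + b` -/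
def HasCorner (F : Set ℂ) (y a b : ℂ) (r : ℝ) : Prop :=
  HasVertex F y a (a + b) r ∧ HasVertex F y b (a + b) r

lemma HasCorner.symm {F : Set ℂ} {y a b : ℂ} {r : ℝ} (h : HasCorner F y a b r) :
    HasCorner F y b a r := by
  obtain ⟨h1, h2⟩ := h
  rw [add_comm] at h1 h2
  exact ⟨h2, h1⟩

lemma HasVertex.smul {F : Set ℂ} {y a b : ℂ} {r c : ℝ} (h0 : 0 ≤ c) (h1 : c ≤ 1)
    (h : HasVertex F y a b r) : HasVertex F y ((c : ℂ) * a) ((c : ℂ) * b) r := by
  obtain ⟨p, hp, hy, a', b', h2, h3, h4, h5⟩ := h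
  have key : ∀ z w : ℂ, ‖z - w‖ ≤ r → ‖(c : ℂ) * z - (c : ℂ) * w‖ ≤ r := by
    intro z w h
    rw [← mul_sub, norm_mul, Complex.norm_real, Real.norm_of_nonneg h0]
    calc c * ‖z - w‖ ≤ 1 * ‖z - w‖ := mul_le_mul_of_nonneg_right h1 (norm_nonneg _)
      _ ≤ r := by rw [one_mul]; exact h
  refine ⟨p, hp, hy, (c : ℂ) * a', (c : ℂ) * b', key _ _ h2, key _ _ h3, ?_, ?_⟩
  · intro x hx
    rw [ip_smul_right, ip_smul_right]
    exact mul_le_mul_of_nonneg_left (h4 x hx) h0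
  · intro x hx
    rw [ip_smul_right, ip_smul_right]
    exact mul_le_mul_of_nonneg_left (h5 x hx) h0

lemma fig_image {F : Set ℂ} (hF : IsConvexFigure F) (g : ℂ ≃ᵢ ℂ) : IsConvexFigure (g '' F) := by
  refine ⟨hF.1.image g.continuous, convex_image_iso _ hF.2.1, ?_⟩
  rw [interior_image_iso]
  exact hF.2.2.image _

lemma smul_image_iso (g : ℂ ≃ᵢ ℂ) (F : Set ℂ) {c : ℝ} (hc : c ≠ 0) :
    c • (g '' F) = (scaleIso c hc g) '' (c • F) := by
  ext z
  rw [mem_smul_set]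
  constructor
  · rintro ⟨_, ⟨x, hx, rfl⟩, rfl⟩
    refine ⟨c • x, smul_mem_smul_set hx, ?_⟩
    rw [scaleIso_apply, inv_smul_smul₀ hc]
  · rintro ⟨_, ⟨x, hx, rfl⟩, rfl⟩
    refine ⟨g x, ⟨x, hx, rfl⟩, ?_⟩
    rw [scaleIso_apply]
    simp only []
    rw [inv_smul_smul₀ hc]

lemma twoFit_image (g : ℂ ≃ᵢ ℂ) {F : Set ℂ} (h : TwoFit (g '' F)) : TwoFit F := by
  obtain ⟨c, hc, f, h1, h2⟩ := h
  have hc0 : c ≠ 0 := by
    intro h0
    rw [h0] at hc
    norm_num at hc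
  have e : ∀ i : Fin 2, (((scaleIso c hc0 g).trans (f i)).trans g.symm) '' (c • F) =
      g.symm '' (f i '' (c • (g '' F))) := by
    intro i
    rw [smul_image_iso g F hc0, ← image_comp, ← image_comp]
    rfl
  refine ⟨c, hc, fun i => ((scaleIso c hc0 g).trans (f i)).trans g.symm, ?_, ?_⟩
  · intro i
    simp only []
    rw [e i]
    rintro _ ⟨z, hz, rfl⟩
    obtain ⟨x, hx, hxz⟩ := h1 i hz
    rw [← hxz, IsometryEquiv.symm_apply_apply]
    exact hx
  · intro i j hij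
    simp only []
    rw [e i, e j, interior_image_iso, interior_image_iso g.symm]
    exact (disjoint_image_iff g.symm.injective).2 (h2 i j hij)

lemma two_image {F : Set ℂ} (hF : IsConvexFigure F) (g : ℂ ≃ᵢ ℂ) (h : Two (g '' F)) : Two F := by
  rw [← twoFit_iff (fig_image hF g)] at h
  rw [← twoFit_iff hF]
  exact twoFit_image g h

lemma ip_refl (κ z w : ℂ) : ip (κ * (starRingEnd ℂ) z) w = ip z (κ * (starRingEnd ℂ) w) := by
  simp only [ip, mul_re, mul_im, conj_re, conj_im]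
  ring

lemma refl_invol {κ : ℂ} (hκ : ‖κ‖ = 1) (z : ℂ) :
    κ * (starRingEnd ℂ) (κ * (starRingEnd ℂ) z) = z := by
  have h : κ * (starRingEnd ℂ) κ = 1 := by
    rw [Complex.mul_conj, Complex.normSq_eq_norm_sq, hκ]
    norm_num
  rw [map_mul, Complex.conj_conj, ← mul_assoc, h, one_mul]

lemma sup_refl {F : Set ℂ} {κ b a p : ℂ} (hκ : ‖κ‖ = 1)
    (h : ∀ x ∈ refl κ b hκ '' F, ip x a ≤ ip (refl κ b hκ p) a) :
    ∀ x ∈ F, ip x (κ * (starRingEnd ℂ) a) ≤ ip p (κ * (starRingEnd ℂ) a) := by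
  intro x hx
  have h1 := h _ ⟨x, hx, rfl⟩
  rw [refl_apply, refl_apply, ip_add_left, ip_add_left, ip_refl, ip_refl] at h1
  linarith

lemma norm_refl_sub {κ : ℂ} (hκ : ‖κ‖ = 1) (z w : ℂ) :
    ‖κ * (starRingEnd ℂ) z - κ * (starRingEnd ℂ) w‖ = ‖z - w‖ := by
  rw [← mul_sub, ← map_sub, norm_mul, hκ, one_mul, RCLike.norm_conj]

lemma HasVertex.of_refl {F : Set ℂ} {κ b y a c : ℂ} {r : ℝ} (hκ : ‖κ‖ = 1)
    (h : HasVertex (refl κ b hκ '' F) (κ * (starRingEnd ℂ) y + b) a c r) :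
    HasVertex F y (κ * (starRingEnd ℂ) a) (κ * (starRingEnd ℂ) c) r := by
  obtain ⟨_, ⟨p, hp, rfl⟩, hy, a', c', h2, h3, h4, h5⟩ := h
  refine ⟨p, hp, ?_, κ * (starRingEnd ℂ) a', κ * (starRingEnd ℂ) c', ?_, ?_, sup_refl hκ h4,
    sup_refl hκ h5⟩
  · rw [refl_apply, add_sub_add_right_eq_sub, norm_refl_sub hκ] at hy
    exact hy
  · rw [norm_refl_sub hκ]
    exact h2
  · rw [norm_refl_sub hκ]
    exact h3

lemma par_refl {κ b : ℂ} (hκ : ‖κ‖ = 1) (o u v : ℂ) : refl κ b hκ '' Par o u v =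
    Par (κ * (starRingEnd ℂ) o + b) (κ * (starRingEnd ℂ) u) (κ * (starRingEnd ℂ) v) := by
  ext z
  constructor
  · rintro ⟨_, ⟨x, y, h1, h2, h3, h4, rfl⟩, rfl⟩
    refine ⟨x, y, h1, h2, h3, h4, ?_⟩
    rw [refl_apply]
    simp only [map_add, map_mul, conj_ofReal]
    ring
  · rintro ⟨x, y, h1, h2, h3, h4, rfl⟩
    refine ⟨_, ⟨x, y, h1, h2, h3, h4, rfl⟩, ?_⟩
    rw [refl_apply]
    simp only [map_add, map_mul, conj_ofReal]
    ring

lemma tri_refl {κ b : ℂ} (hκ : ‖κ‖ = 1) (o u v : ℂ) : refl κ b hκ '' Tri o u v =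
    Tri (κ * (starRingEnd ℂ) o + b) (κ * (starRingEnd ℂ) u) (κ * (starRingEnd ℂ) v) := by
  ext z
  constructor
  · rintro ⟨_, ⟨x, y, h1, h2, h3, rfl⟩, rfl⟩
    refine ⟨x, y, h1, h2, h3, ?_⟩
    rw [refl_apply]
    simp only [map_add, map_mul, conj_ofReal]
    ring
  · rintro ⟨x, y, h1, h2, h3, rfl⟩
    refine ⟨_, ⟨x, y, h1, h2, h3, rfl⟩, ?_⟩
    rw [refl_apply]
    simp only [map_add, map_mul, conj_ofReal]
    ring

/-- the reflection for the square -/
lemma sq_kappa {u : ℂ} (hu : u ≠ 0) : ∃ κ : ℂ, ‖κ‖ = 1 ∧ κ * (starRingEnd ℂ) u = I * u ∧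
    κ * (starRingEnd ℂ) (I * u) = u := by
  have hc : (starRingEnd ℂ) u ≠ 0 := by simpa using hu
  refine ⟨I * u / (starRingEnd ℂ) u, ?_, ?_, ?_⟩
  · rw [norm_div, norm_mul, norm_I, one_mul, RCLike.norm_conj, div_self]
    exact norm_ne_zero_iff.mpr hu
  · field_simp
  · rw [map_mul, conj_I]
    field_simp
    rw [I_sq]
    ring

/-- both vertices near one corner of a square -/
lemma sq_corner2 (o u : ℂ) (hu : u ≠ 0) {η : ℝ} (hη : 0 < η) : ∃ ε₀ : ℝ, 0 < ε₀ ∧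
    ∀ ε : ℝ, 0 ≤ ε → ε ≤ ε₀ → ∀ (F : Set ℂ) (o' : ℂ), IsConvexFigure F → Par o u (I * u) ⊆ F →
      F ⊆ Par o' (((1 + ε : ℝ) : ℂ) * u) (((1 + ε : ℝ) : ℂ) * (I * u)) → ¬ Two F →
      HasCorner F (o + u + I * u) u (I * u) (η * ‖u‖) := by
  obtain ⟨κ, hκ, k1, k2⟩ := sq_kappa hu
  obtain ⟨e1, p1, H1⟩ := sq_corner o u hu hη
  refine ⟨e1, p1, fun ε hε hε1 F o' hF hin hout h2 => ?_⟩
  refine ⟨H1 ε hε hε1 F o' hF hin hout h2, ?_⟩
  set b : ℂ := o - κ * (starRingEnd ℂ) o with hb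
  set R := refl κ b hκ with hR
  set K : ℝ := 1 + ε with hK
  have hin' : Par o u (I * u) ⊆ R '' F := by
    have h3 : R '' Par o u (I * u) = Par o u (I * u) := by
      rw [hR, par_refl, k1, k2, par_swap]
      congr 1
      rw [hb]
      ring
    rw [← h3]
    exact image_mono hin
  have hout' : R '' F ⊆ Par (κ * (starRingEnd ℂ) o' + b) ((K : ℂ) * u) ((K : ℂ) * (I * u)) := by
    have h3 : R '' Par o' ((K : ℂ) * u) ((K : ℂ) * (I * u)) =
        Par (κ * (starRingEnd ℂ) o' + b) ((K : ℂ) * u) ((K : ℂ) * (I * u)) := by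
      rw [hR, par_refl, map_mul, conj_ofReal, map_mul (starRingEnd ℂ) (K : ℂ) (I * u), conj_ofReal]
      have g1 : κ * ((K : ℂ) * (starRingEnd ℂ) u) = (K : ℂ) * (I * u) := by
        rw [← k1]; ring
      have g2 : κ * ((K : ℂ) * (starRingEnd ℂ) (I * u)) = (K : ℂ) * u := by
        calc κ * ((K : ℂ) * (starRingEnd ℂ) (I * u)) = (K : ℂ) * (κ * (starRingEnd ℂ) (I * u)) := by
              ring
          _ = (K : ℂ) * u := by rw [k2]
      rw [g1, g2, par_swap]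
    rw [← h3]
    exact image_mono hout
  have h4 := H1 ε hε hε1 (R '' F) _ (fig_image hF R) hin' hout' (fun h => h2 (two_image hF R h))
  have h5 : o + u + I * u = κ * (starRingEnd ℂ) (o + u + I * u) + b := by
    rw [map_add, map_add, mul_add, mul_add, k1, k2, hb]
    ring
  rw [h5] at h4
  have h6 := HasVertex.of_refl hκ h4
  rw [k1, map_add, mul_add, k1, k2, add_comm (I * u) u] at h6
  exact h6

lemma sq_corners (o u : ℂ) (hu : u ≠ 0) {η : ℝ} (hη : 0 < η) : ∃ ε₀ : ℝ, 0 < ε₀ ∧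
    ∀ ε : ℝ, 0 ≤ ε → ε ≤ ε₀ → ∀ (F : Set ℂ) (o' : ℂ), IsConvexFigure F → Par o u (I * u) ⊆ F →
      F ⊆ Par o' (((1 + ε : ℝ) : ℂ) * u) (((1 + ε : ℝ) : ℂ) * (I * u)) → ¬ Two F →
      HasCorner F o (-u) (-(I * u)) (η * ‖u‖) ∧ HasCorner F (o + u) u (-(I * u)) (η * ‖u‖) ∧
      HasCorner F (o + I * u) (-u) (I * u) (η * ‖u‖) ∧
      HasCorner F (o + u + I * u) u (I * u) (η * ‖u‖) := by
  have hI : I * (I * u) = -u := by linear_combination u * Complex.I_mul_I
  have hI2 : I * -u = -(I * u) := by ring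
  have hI3 : I * -(I * u) = u := by linear_combination (-u) * Complex.I_mul_I
  have hn1 : ‖I * u‖ = ‖u‖ := by rw [norm_mul, Complex.norm_I, one_mul]
  obtain ⟨e1, p1, H1⟩ := sq_corner2 o u hu hη
  obtain ⟨e2, p2, H2⟩ := sq_corner2 (o + u) (I * u) (by simpa using hu) hη
  obtain ⟨e3, p3, H3⟩ := sq_corner2 (o + u + I * u) (-u) (by simpa using hu) hη
  obtain ⟨e4, p4, H4⟩ := sq_corner2 (o + I * u) (-(I * u)) (by simpa using hu) hη
  refine ⟨min (min e1 e2) (min e3 e4), by positivity, ?_⟩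
  intro ε hε hεm F o' hF hin hout h2
  have m1 : ε ≤ e1 := hεm.trans ((min_le_left _ _).trans (min_le_left _ _))
  have m2 : ε ≤ e2 := hεm.trans ((min_le_left _ _).trans (min_le_right _ _))
  have m3 : ε ≤ e3 := hεm.trans ((min_le_right _ _).trans (min_le_left _ _))
  have m4 : ε ≤ e4 := hεm.trans ((min_le_right _ _).trans (min_le_right _ _))
  set K : ℂ := ((1 + ε : ℝ) : ℂ) with hK
  have r1 := H1 ε hε m1 F o' hF hin hout h2
  have r2 := H2 ε hε m2 F (o' + K * u) hF (by rw [hI, par_turn]; exact hin)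
    (by
      rw [hI, mul_neg, par_turn]
      exact hout) h2
  have r3 := H3 ε hε m3 F (o' + K * u + K * (I * u)) hF
    (by rw [hI2, par_turn2]; exact hin)
    (by
      rw [hI2, mul_neg, mul_neg, par_turn2]
      exact hout) h2
  have r4 := H4 ε hε m4 F (o' + K * (I * u)) hF
    (by
      rw [hI3, par_turn3]
      exact hin)
    (by
      rw [hI3, mul_neg, par_turn3]
      exact hout) h2
  rw [norm_neg, hn1, hI3] at r4
  rw [norm_neg, hI2] at r3
  rw [hn1, hI] at r2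
  have e2' : o + u + I * u + -u = o + I * u := by ring
  have e3' : o + u + I * u + -u + -(I * u) = o := by ring
  have e4' : o + I * u + -(I * u) + u = o + u := by ring
  rw [e2'] at r2
  rw [e3'] at r3
  rw [e4'] at r4
  exact ⟨r3, r4.symm, r2.symm, r1⟩

lemma om_conj : (starRingEnd ℂ) om = 1 - om := by
  apply Complex.ext
  · simp [om]; norm_num
  · simp [om]

/-- the reflection for the triangle: `κ conj u = (1 - om) u`, and so on -/
lemma tri_kappa {u : ℂ} (hu : u ≠ 0) : ∃ κ : ℂ, ‖κ‖ = 1 ∧ κ * (starRingEnd ℂ) u = (1 - om) * u ∧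
    κ * (starRingEnd ℂ) (om * u) = -(om * u) ∧
    κ * (starRingEnd ℂ) (I * u) = -(I * ((1 - om) * u)) := by
  have hc : (starRingEnd ℂ) u ≠ 0 := by simpa using hu
  have hn : ‖(1 - om : ℂ)‖ = 1 := by rw [← om_conj, RCLike.norm_conj, om_norm]
  refine ⟨(1 - om) * u / (starRingEnd ℂ) u, ?_, ?_, ?_, ?_⟩
  · rw [norm_div, norm_mul, hn, one_mul, RCLike.norm_conj, div_self]
    exact norm_ne_zero_iff.mpr hu
  · field_simp
  · rw [map_mul, om_conj]
    field_simp
    linear_combination om_sq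
  · rw [map_mul, conj_I]
    field_simp

lemma turn2 (a b c : ℂ) : Tri (a + c) (-c) (b - c) = Tri a b c := by
  ext z
  constructor
  · rintro ⟨x, y, h1, h2, h3, rfl⟩
    refine ⟨y, 1 - x - y, h2, by linarith, by linarith, ?_⟩
    push_cast
    ring
  · rintro ⟨x, y, h1, h2, h3, rfl⟩
    refine ⟨1 - x - y, x, by linarith, h1, by linarith, ?_⟩
    push_cast
    ring

/-- real inequalities behind `p = p'` -/
lemma same_num {x y α β r η : ℝ} (hr : 17 / 20 ≤ r) (hr1 : r ≤ 9 / 10) (hη0 : 0 ≤ η) (hη : η ≤ 1 / 8)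
    (hα : |α| ≤ η) (hβ : |β + 1| ≤ η) (h1 : x * α + y * β ≤ 0) (h2 : 3 * x - y ≤ 0)
    (h3 : 0 ≤ (3 / 2 + r) * x + (1 / 2 - 3 * r) * y) : x = 0 ∧ y = 0 := by
  obtain ⟨a1, a2⟩ := abs_le.mp hα
  obtain ⟨b1, b2⟩ := abs_le.mp hβ
  -- `y ≤ (6/5) x` if `y ≤ 0`; first `x ≤ 0`
  have hx : x ≤ 0 := by
    by_contra hc
    push Not at hc
    have : 3 * x ≤ y := by linarith
    have h4 : (3 * r - 1 / 2) * (3 * x) ≤ (3 * r - 1 / 2) * y :=
      mul_le_mul_of_nonneg_left this (by linarith)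
    have h5 : r * x ≥ 17 / 20 * x := mul_le_mul_of_nonneg_right hr hc.le
    nlinarith
  have hy : y ≤ 0 := by
    by_contra hc
    push Not at hc
    have h4 : (3 / 2 + r) * x ≤ 0 := mul_nonpos_of_nonneg_of_nonpos (by linarith) hx
    have h5 : (1 / 2 - 3 * r) * y < 0 := mul_neg_of_neg_of_pos (by linarith) hc
    linarith
  -- `-y ≤ η (-x - y)`
  have h6 : x * α ≥ η * x := by nlinarith
  have h7 : y * β ≥ -y + η * y := by nlinarith
  have h8 : -y ≤ -(η * x) - η * y := by linarith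
  have h9 : η * x ≥ 1 / 8 * x := by nlinarith
  have h10 : η * y ≥ 1 / 8 * y := by nlinarith
  -- so `-7/8 y ≤ -1/8 x`, i.e. `x ≤ 7 y`
  have h11 : x ≤ 7 * y := by linarith
  have h12 : y = 0 := by
    by_contra hne
    have hy' : y < 0 := lt_of_le_of_ne hy hne
    have h13 : (3 / 2 + r) * x ≤ (3 / 2 + r) * (7 * y) :=
      mul_le_mul_of_nonneg_left h11 (by linarith)
    have h14 : 0 ≤ (3 / 2 + r) * (7 * y) + (1 / 2 - 3 * r) * y := by linarith
    have h15 : ((3 / 2 + r) * 7 + (1 / 2 - 3 * r)) * y < 0 :=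
      mul_neg_of_pos_of_neg (by linarith) hy'
    linarith
  rw [h12] at h11 h3
  refine ⟨?_, h12⟩
  have h16 : 0 ≤ (3 / 2 + r) * x := by linarith
  have h17 : 0 ≤ x := by
    by_contra hc
    push Not at hc
    have := mul_neg_of_pos_of_neg (show 0 < 3 / 2 + r by linarith) hc
    linarith
  linarith

lemma sqrt3_bounds : 17 / 20 ≤ Real.sqrt 3 / 2 ∧ Real.sqrt 3 / 2 ≤ 9 / 10 := by
  have h1 : (17 / 10 : ℝ) ≤ Real.sqrt 3 := Real.le_sqrt_of_sq_le (by norm_num)
  have h2 : Real.sqrt 3 ≤ 18 / 10 := Real.sqrt_le_iff.mpr ⟨by norm_num, by norm_num⟩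
  constructor <;> linarith

/-- coordinates of the difference: both maximisers coincide -/
lemma same_point {u p q a : ℂ} {η : ℝ} (hu : u ≠ 0) (hη0 : 0 ≤ η) (hη : η ≤ 1 / 8)
    (ha : ‖a - -(I * u)‖ ≤ η * ‖u‖) (h1 : ip q a ≤ ip p a)
    (h2 : ip q (3 * u - I * u) ≤ ip p (3 * u - I * u))
    (h3 : ip p ((3 + I) * ((1 - om) * u)) ≤ ip q ((3 + I) * ((1 - om) * u))) : q = p := by
  have hs : 0 < ‖u‖ := norm_pos_iff.mpr hu
  -- `q - p = u e`, `a = u f`
  obtain ⟨e, he⟩ : ∃ e : ℂ, e = (q - p) / u := ⟨_, rfl⟩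
  obtain ⟨f, hf⟩ : ∃ f : ℂ, f = a / u := ⟨_, rfl⟩
  have he' : q - p = u * e := by rw [he]; field_simp
  have hf' : a = u * f := by rw [hf]; field_simp
  have hipu : ∀ z w : ℂ, ip (u * z) (u * w) = ‖u‖ ^ 2 * ip z w := by
    intro z w
    rw [Complex.sq_norm, Complex.normSq_apply]
    simp only [ip, mul_re, mul_im]
    ring
  have hpos : 0 < ‖u‖ ^ 2 := by positivity
  have g1 : ip e f ≤ 0 := by
    have : ip (q - p) a ≤ 0 := by rw [ip_sub_left]; linarith
    rw [he', hf', hipu] at this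
    by_contra hc
    push Not at hc
    have := mul_pos hpos hc
    linarith
  have g2 : ip e (3 - I) ≤ 0 := by
    have : ip (q - p) (3 * u - I * u) ≤ 0 := by rw [ip_sub_left]; linarith
    have e1 : 3 * u - I * u = u * (3 - I) := by ring
    rw [he', e1, hipu] at this
    by_contra hc
    push Not at hc
    have := mul_pos hpos hc
    linarith
  have g3 : 0 ≤ ip e ((3 + I) * (1 - om)) := by
    have : 0 ≤ ip (q - p) ((3 + I) * ((1 - om) * u)) := by rw [ip_sub_left]; linarith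
    have e1 : (3 + I) * ((1 - om) * u) = u * ((3 + I) * (1 - om)) := by ring
    rw [he', e1, hipu] at this
    by_contra hc
    push Not at hc
    have := mul_neg_of_pos_of_neg hpos hc
    linarith
  have g4 : ‖f - -I‖ ≤ η := by
    have e1 : a - -(I * u) = u * (f - -I) := by rw [hf']; ring
    rw [e1, norm_mul, mul_comm η] at ha
    exact le_of_mul_le_mul_left ha hs
  have g5 : |f.re| ≤ η := by
    have := (Complex.abs_re_le_norm (f - -I)).trans g4
    simpa using this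
  have g6 : |f.im + 1| ≤ η := by
    have := (Complex.abs_im_le_norm (f - -I)).trans g4
    simpa using this
  obtain ⟨r1, r2⟩ := sqrt3_bounds
  have key := same_num (x := e.re) (y := e.im) (α := f.re) (β := f.im) (r := Real.sqrt 3 / 2)
    (η := η) r1 r2 hη0 hη g5 g6 (by simpa [ip] using g1)
    (by
      simp only [ip, sub_re, sub_im, I_re, I_im] at g2
      norm_num at g2
      linarith)
    (by
      simp only [ip, om, mul_re, mul_im, add_re, add_im, sub_re, sub_im, I_re, I_im, one_re,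
        one_im] at g3
      norm_num at g3
      linarith)
  have he0 : e = 0 := Complex.ext key.1 key.2
  rw [he0, mul_zero, sub_eq_zero] at he'
  exact he'

/-- the vertex near one corner of an equilateral triangle -/
lemma tri_vertex (o u : ℂ) (hu : u ≠ 0) {η : ℝ} (hη : 0 < η) : ∃ ε₀ : ℝ, 0 < ε₀ ∧
    ∀ ε : ℝ, 0 ≤ ε → ε ≤ ε₀ → ∀ (F : Set ℂ) (o' : ℂ), IsConvexFigure F → Tri o u (om * u) ⊆ F →
      F ⊆ Tri o' (((1 + ε : ℝ) : ℂ) * u) (((1 + ε : ℝ) : ℂ) * (om * u)) → ¬ Two F →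
      HasVertex F (o + u) (-(I * u)) (I * ((1 - om) * u)) (η * ‖u‖) := by
  obtain ⟨κ, hκ, k1, k2, k3⟩ := tri_kappa hu
  obtain ⟨η', h0', h1', h2'⟩ : ∃ η' : ℝ, 0 < η' ∧ η' ≤ 1 / 8 ∧ η' ≤ η :=
    ⟨min (1 / 8) η, lt_min (by norm_num) hη, min_le_left _ _, min_le_right _ _⟩
  obtain ⟨e1, p1, H1⟩ := tri_corner o u hu h0'
  refine ⟨e1, p1, fun ε hε hε1 F o' hF hin hout h2 => ?_⟩
  obtain ⟨p, hp, hy, hd, a, ha, hsa⟩ := H1 ε hε hε1 F o' hF hin hout h2
  set b : ℂ := (o + u) - κ * (starRingEnd ℂ) (o + u) with hb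
  set R := refl κ b hκ with hR
  set K : ℝ := 1 + ε with hK
  have hv : (1 - om) * u = u - om * u := by ring
  have hin' : Tri o u (om * u) ⊆ R '' F := by
    have h3 : R '' Tri o u (om * u) = Tri o u (om * u) := by
      rw [hR, tri_refl, k1, k2, hv, Tri_swap, ← turn2 o u (om * u)]
      congr 1
      rw [hb, map_add, mul_add, k1]
      ring
    rw [← h3]
    exact image_mono hin
  have hout' : R '' F ⊆ Tri (κ * (starRingEnd ℂ) o' + b - (K : ℂ) * (om * u)) ((K : ℂ) * u)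
      ((K : ℂ) * (om * u)) := by
    have h3 : R '' Tri o' ((K : ℂ) * u) ((K : ℂ) * (om * u)) =
        Tri (κ * (starRingEnd ℂ) o' + b - (K : ℂ) * (om * u)) ((K : ℂ) * u)
          ((K : ℂ) * (om * u)) := by
      rw [hR, tri_refl, map_mul, conj_ofReal, map_mul (starRingEnd ℂ) (K : ℂ) (om * u),
        conj_ofReal]
      have g1 : κ * ((K : ℂ) * (starRingEnd ℂ) u) = (K : ℂ) * u - (K : ℂ) * (om * u) := by
        calc κ * ((K : ℂ) * (starRingEnd ℂ) u) = (K : ℂ) * (κ * (starRingEnd ℂ) u) := by ring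
          _ = (K : ℂ) * u - (K : ℂ) * (om * u) := by rw [k1]; ring
      have g2 : κ * ((K : ℂ) * (starRingEnd ℂ) (om * u)) = -((K : ℂ) * (om * u)) := by
        calc κ * ((K : ℂ) * (starRingEnd ℂ) (om * u)) =
            (K : ℂ) * (κ * (starRingEnd ℂ) (om * u)) := by ring
          _ = -((K : ℂ) * (om * u)) := by rw [k2]; ring
      rw [g1, g2, Tri_swap, ← turn2 _ ((K : ℂ) * u) ((K : ℂ) * (om * u)), sub_add_cancel]
    rw [← h3]
    exact image_mono hout
  obtain ⟨_, ⟨q, hq, rfl⟩, hy', hd', a', ha', hsa'⟩ :=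
    H1 ε hε hε1 (R '' F) _ (fig_image hF R) hin' hout' (fun h => h2 (two_image hF R h))
  have hd1 := sup_refl hκ hd'
  have hsa1 := sup_refl hκ hsa'
  have e1 : κ * (starRingEnd ℂ) (3 * u - I * u) = (3 + I) * ((1 - om) * u) := by
    rw [map_sub, mul_sub, k3]
    have : κ * (starRingEnd ℂ) (3 * u) = 3 * ((1 - om) * u) := by
      rw [map_mul, ← k1]
      have h3 : (starRingEnd ℂ) (3 : ℂ) = 3 := by
        have := conj_ofReal (3 : ℝ)
        exact_mod_cast this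
      rw [h3]
      ring
    rw [this]
    ring
  rw [e1] at hd1
  have hqp : q = p := same_point hu h0'.le h1' ha (hsa q hq) (hd q hq) (hd1 p hp)
  have hle : η' * ‖u‖ ≤ η * ‖u‖ := mul_le_mul_of_nonneg_right h2' (norm_nonneg _)
  refine ⟨p, hp, hy.trans hle, a, κ * (starRingEnd ℂ) a', ha.trans hle, ?_, hsa, ?_⟩
  · have h5 : I * ((1 - om) * u) = κ * (starRingEnd ℂ) (-(I * u)) := by
      rw [map_neg, mul_neg, k3, neg_neg]
    rw [h5, norm_refl_sub hκ]
    exact ha'.trans hle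
  · rw [← hqp]
    exact hsa1

/-- the vertices near all corners of an equilateral triangle -/
lemma tri_vertices (o u : ℂ) (hu : u ≠ 0) {η : ℝ} (hη : 0 < η) : ∃ ε₀ : ℝ, 0 < ε₀ ∧
    ∀ ε : ℝ, 0 ≤ ε → ε ≤ ε₀ → ∀ (F : Set ℂ) (o' : ℂ), IsConvexFigure F → Tri o u (om * u) ⊆ F →
      F ⊆ Tri o' (((1 + ε : ℝ) : ℂ) * u) (((1 + ε : ℝ) : ℂ) * (om * u)) → ¬ Two F →
      HasVertex F o (-(I * u)) (I * (om * u)) (η * ‖u‖) ∧
      HasVertex F (o + u) (-(I * u)) (I * ((1 - om) * u)) (η * ‖u‖) ∧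
      HasVertex F (o + om * u) (I * (om * u)) (I * ((1 - om) * u)) (η * ‖u‖) := by
  have h1 : om * (om * u - u) = -u := by linear_combination u * om_sq
  have h2' : om * -(om * u) = u - om * u := by linear_combination (-u) * om_sq
  have hn1 : ‖om * u - u‖ = ‖u‖ := by
    have e : om * u - u = om * (om * u) := by linear_combination (-u) * om_sq
    rw [e, norm_mul, norm_mul, om_norm, one_mul, one_mul]
  have hn2 : ‖-(om * u)‖ = ‖u‖ := by rw [norm_neg, norm_mul, om_norm, one_mul]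
  have hu1 : om * u - u ≠ 0 := by
    rw [← norm_pos_iff, hn1]
    exact norm_pos_iff.mpr hu
  have hu2 : -(om * u) ≠ 0 := by
    rw [← norm_pos_iff, hn2]
    exact norm_pos_iff.mpr hu
  obtain ⟨e1, p1, H1⟩ := tri_vertex o u hu hη
  obtain ⟨e2, p2, H2⟩ := tri_vertex (o + u) (om * u - u) hu1 hη
  obtain ⟨e3, p3, H3⟩ := tri_vertex (o + om * u) (-(om * u)) hu2 hη
  refine ⟨min e1 (min e2 e3), by positivity, ?_⟩
  intro ε hε hεm F o' hF hin hout h2
  have m1 : ε ≤ e1 := hεm.trans (min_le_left _ _)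
  have m2 : ε ≤ e2 := hεm.trans ((min_le_right _ _).trans (min_le_left _ _))
  have m3 : ε ≤ e3 := hεm.trans ((min_le_right _ _).trans (min_le_right _ _))
  set K : ℂ := ((1 + ε : ℝ) : ℂ) with hK
  have r1 := H1 ε hε m1 F o' hF hin hout h2
  have r2 := H2 ε hε m2 F (o' + K * u) hF (by rw [h1, tri_turn]; exact hin)
    (by
      rw [h1, mul_neg, mul_sub, tri_turn]
      exact hout) h2
  have r3 := H3 ε hε m3 F (o' + K * (om * u)) hF (by rw [h2', turn2]; exact hin)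
    (by
      rw [h2', mul_neg, mul_sub, turn2]
      exact hout) h2
  rw [hn1] at r2
  rw [hn2] at r3
  have e1 : o + u + (om * u - u) = o + om * u := by ring
  have e2 : o + om * u + -(om * u) = o := by ring
  rw [e1] at r2
  rw [e2] at r3
  have f1 : -(I * (om * u - u)) = I * ((1 - om) * u) := by ring
  have f2 : I * ((1 - om) * (om * u - u)) = I * (om * u) := by
    linear_combination (-(I * u)) * om_sq
  have f3 : -(I * -(om * u)) = I * (om * u) := by ring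
  have f4 : I * ((1 - om) * -(om * u)) = -(I * u) := by
    linear_combination (I * u) * om_sq
  rw [f1, f2] at r2
  rw [f3, f4] at r3
  exact ⟨r3.symm, r1, r2.symm⟩

end Pool.Agent.H50.CP
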