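import Pool.Agent.H50.CP.Edge

set_option autoImplicit false

/-!
# Rotating a half copy, with a rotating separating line
-/

namespace Pool.Agent.H50.CP

open Pool.Agent.H90.Clone Pool.Agent.H21.Tri Complex Set Pointwise MeasureTheory Filter Topology

/-- the copy `p - τ c + (1/2 + τ²) e^{iτ} (F - p)` lies in `F` for small `τ > 0` -/
lemma rot_in {F : Set ℂ} (hF : IsConvexFigure F) {p c : ℂ} (hp : p ∈ F)
    (hb : ∀ v : ℂ, ‖v‖ = 1 → (∀ x ∈ F, ip x v ≤ ip p v) → ∀ f ∈ F, ip f v = ip p v →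
      ip (I * (f - p)) v / 2 < ip c v) :
    ∃ τ₀ : ℝ, 0 < τ₀ ∧ ∀ τ : ℝ, 0 < τ → τ < τ₀ → ∀ x ∈ F,
      p - (τ : ℂ) * c + ((1 / 2 + τ ^ 2 : ℝ) : ℂ) * (Complex.exp (τ * I) * (x - p)) ∈ F := by
  have hcF := hF.1
  -- the moving point
  set Z : ℝ → ℂ → ℂ := fun τ x =>
    p - (τ : ℂ) * c + ((1 / 2 + τ ^ 2 : ℝ) : ℂ) * (Complex.exp (τ * I) * (x - p)) with hZ
  have hZlim : ∀ (τ : ℕ → ℝ) (x : ℕ → ℂ) (f : ℂ), Tendsto τ atTop (𝓝 0) → Tendsto x atTop (𝓝 f) →
      Tendsto (fun n => Z (τ n) (x n)) atTop (𝓝 (p + ((1 / 2 : ℝ) : ℂ) * (f - p))) := by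
    intro τ x f hτ hx
    have hτC : Tendsto (fun n => ((τ n : ℝ) : ℂ)) atTop (𝓝 0) := by
      have := (Complex.continuous_ofReal.tendsto 0).comp hτ
      simpa [Function.comp_def] using this
    have e1 : Tendsto (fun n => ((1 / 2 + τ n ^ 2 : ℝ) : ℂ)) atTop (𝓝 ((1 / 2 : ℝ) : ℂ)) := by
      have : Tendsto (fun n => (1 / 2 + τ n ^ 2 : ℝ)) atTop (𝓝 (1 / 2 + 0 ^ 2)) :=
        tendsto_const_nhds.add (hτ.pow 2)
      have h2 := (Complex.continuous_ofReal.tendsto _).comp this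
      simpa [Function.comp_def] using h2
    have e2 := (exp_tend hτ).mul (hx.sub_const p)
    have e3 := ((hτC.mul_const c).const_sub p).add (e1.mul e2)
    simpa [hZ] using e3
  by_contra hcon
  obtain ⟨τ, hτ0, hτ, hn⟩ := seq_of hcon
  push Not at hn
  choose x hxF hxZ using hn
  choose v hv1 hv2 using fun n => sep_pt hF (hxZ n)
  obtain ⟨⟨f, w⟩, hfw, φ, hφ, hlim⟩ := (hcF.prod (isCompact_sphere (0 : ℂ) 1)).tendsto_subseq
    (x := fun n => (x n, v n)) (fun n => ⟨hxF n, by simpa using hv1 n⟩)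
  obtain ⟨hfF, hw⟩ := hfw
  have hx' : Tendsto (x ∘ φ) atTop (𝓝 f) := (continuous_fst.tendsto (f, w)).comp hlim
  have hv' : Tendsto (v ∘ φ) atTop (𝓝 w) := (continuous_snd.tendsto (f, w)).comp hlim
  have hτ' : Tendsto (τ ∘ φ) atTop (𝓝 0) := hτ.comp hφ.tendsto_atTop
  have hw1 : ‖w‖ = 1 := by simpa using hw
  have hall : ∀ y ∈ F, ip y w ≤ ip (p + ((1 / 2 : ℝ) : ℂ) * (f - p)) w := by
    intro y hy
    apply le_of_tendsto_of_tendsto' (ip_tendsto tendsto_const_nhds hv')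
      (ip_tendsto (hZlim _ _ f hτ' hx') hv')
    intro n
    exact (hv2 (φ n) y hy).le
  have hp1 := hall p hp
  have hf1 := hall f hfF
  rw [ip_add_left, ip_smul_left, ip_sub_left] at hp1 hf1
  have hfp : ip f w = ip p w := by linarith
  have hpw : ∀ y ∈ F, ip y w ≤ ip p w := by
    intro y hy
    have := hall y hy
    rw [ip_add_left, ip_smul_left, ip_sub_left, hfp] at this
    linarith
  have hbb := hb w hw1 hpw f hfF hfp
  have hineq : ∀ n, 0 ≤ -ip c (v n) + (1 / 2) * ip ((((τ n : ℝ) : ℂ)⁻¹ *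
      (Complex.exp (τ n * I) - 1)) * (x n - p)) (v n) +
      τ n * ip (Complex.exp (τ n * I) * (x n - p)) (v n) := by
    intro n
    have hmid : ((1 / 2 : ℝ) : ℂ) * p + ((1 / 2 : ℝ) : ℂ) * x n ∈ F := by
      have := hF.2.1 hp (hxF n) (show (0 : ℝ) ≤ 1 / 2 by norm_num)
        (show (0 : ℝ) ≤ 1 / 2 by norm_num) (by norm_num)
      simpa only [real_smul] using this
    have h1 := hv2 n _ hmid
    have hτn := hτ0 n
    have hτC : ((τ n : ℝ) : ℂ) ≠ 0 := by exact_mod_cast hτn.ne'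
    have e : Z (τ n) (x n) - (((1 / 2 : ℝ) : ℂ) * p + ((1 / 2 : ℝ) : ℂ) * x n) =
        ((τ n : ℝ) : ℂ) * (((-1 : ℝ) : ℂ) * c + ((1 / 2 : ℝ) : ℂ) * ((((τ n : ℝ) : ℂ)⁻¹ *
          (Complex.exp (τ n * I) - 1)) * (x n - p)) +
          ((τ n : ℝ) : ℂ) * (Complex.exp (τ n * I) * (x n - p))) := by
      simp only [hZ]
      push_cast
      field_simp
      ring
    have h2 : 0 < ip (Z (τ n) (x n) - (((1 / 2 : ℝ) : ℂ) * p + ((1 / 2 : ℝ) : ℂ) * x n)) (v n) := by
      rw [ip_sub_left]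
      linarith
    rw [e, ip_smul_left, ip_add_left, ip_add_left, ip_smul_left, ip_smul_left, ip_smul_left] at h2
    have h3 := pos_of_mul_pos_right h2 hτn.le
    linarith
  have hL : Tendsto (fun n => -ip c (v (φ n)) + (1 / 2) * ip ((((τ (φ n) : ℝ) : ℂ)⁻¹ *
      (Complex.exp (τ (φ n) * I) - 1)) * (x (φ n) - p)) (v (φ n)) +
      τ (φ n) * ip (Complex.exp (τ (φ n) * I) * (x (φ n) - p)) (v (φ n))) atTop
      (𝓝 (-ip c w + (1 / 2) * ip (I * (f - p)) w + 0 * ip (1 * (f - p)) w)) := by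
    have e1 := exp_slope (τ := τ ∘ φ) (fun n => hτ0 _) hτ'
    have e2 := exp_tend hτ'
    exact (((ip_tendsto tendsto_const_nhds hv').neg).add
      ((ip_tendsto (e1.mul (hx'.sub_const p)) hv').const_mul (1 / 2))).add
      (hτ'.mul (ip_tendsto (e2.mul (hx'.sub_const p)) hv'))
  have hge := ge_of_tendsto' hL (fun n => hineq (φ n))
  linarith

lemma ip_rot {w : ℂ} (hw : ‖w‖ = 1) (a b : ℂ) : ip (w * a) (w * b) = ip a b := by
  have h := ip_self_one hw
  simp only [ip, mul_re, mul_im]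
  linear_combination (a.re * b.re + a.im * b.im) * h

/-- variant of `rot_gain`: the separating line turns with the first copy -/
theorem rot_gain2 {F : Set ℂ} (hF : IsConvexFigure F) {p q0 d c : ℂ} (hp : p ∈ F) (hq0 : q0 ∈ F)
    (hd : d ≠ 0)
    (hpd : ∃ τ₀ : ℝ, 0 < τ₀ ∧ ∀ τ : ℝ, 0 < τ → τ < τ₀ → ∀ x ∈ F,
      ip x (Complex.exp (τ * I) * d) ≤ ip p (Complex.exp (τ * I) * d))
    (hqd : ∀ x ∈ F, ip q0 d ≤ ip x d)
    (ha : ip c d < ip (p - q0) (I * d) / 2)
    (hb : ∀ v : ℂ, ‖v‖ = 1 → (∀ x ∈ F, ip x v ≤ ip p v) → ∀ f ∈ F, ip f v = ip p v →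
      ip (I * (f - p)) v / 2 < ip c v) :
    Two F := by
  obtain ⟨t1, ht1, h1⟩ := rot_in hF hp hb
  obtain ⟨t3, ht3, h3⟩ := hpd
  -- the gap
  have claim2 : ∃ τ₀ : ℝ, 0 < τ₀ ∧ ∀ τ : ℝ, 0 < τ → τ < τ₀ →
      0 ≤ (1 / 2 - τ ^ 2) * ip (p - q0) (Complex.exp (τ * I) * d) -
        τ * ip c (Complex.exp (τ * I) * d) - (1 / 2 + τ ^ 2) * ip (p - q0) d := by
    by_contra hcon
    obtain ⟨τ, hτ0, hτ, hn⟩ := seq_of hcon
    push Not at hn
    have hineq : ∀ n, (1 / 2) * ip (p - q0) ((((τ n : ℝ) : ℂ)⁻¹ *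
        (Complex.exp (τ n * I) - 1)) * d) - τ n * (ip (p - q0) (Complex.exp (τ n * I) * d) +
          ip (p - q0) d) - ip c (Complex.exp (τ n * I) * d) ≤ 0 := by
      intro n
      have h4 := hn n
      have hτn := hτ0 n
      have hτC : ((τ n : ℝ) : ℂ) ≠ 0 := by exact_mod_cast hτn.ne'
      have e : Complex.exp (τ n * I) * d = d + ((τ n : ℝ) : ℂ) * ((((τ n : ℝ) : ℂ)⁻¹ *
        (Complex.exp (τ n * I) - 1)) * d) := by
        field_simp
        ring
      have e2 : ip (p - q0) (Complex.exp (τ n * I) * d) = ip (p - q0) d +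
          τ n * ip (p - q0) ((((τ n : ℝ) : ℂ)⁻¹ * (Complex.exp (τ n * I) - 1)) * d) := by
        conv_lhs => rw [e]
        rw [ip_add_right, ip_smul_right]
      set W := ip (p - q0) ((((τ n : ℝ) : ℂ)⁻¹ * (Complex.exp (τ n * I) - 1)) * d) with hW
      set U := ip (p - q0) (Complex.exp (τ n * I) * d) with hU
      set V := ip c (Complex.exp (τ n * I) * d) with hV
      have h5 : τ n * ((1 / 2) * W - τ n * (U + ip (p - q0) d) - V) < 0 := by
        have e3 : τ n * ((1 / 2) * W - τ n * (U + ip (p - q0) d) - V) =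
            (1 / 2 - τ n ^ 2) * U - τ n * V - (1 / 2 + τ n ^ 2) * ip (p - q0) d := by
          have : τ n * W = U - ip (p - q0) d := by rw [e2]; ring
          linear_combination (1 / 2) * this
        rw [e3]
        exact h4
      by_contra hc
      push Not at hc
      have := mul_pos hτn hc
      linarith
    have hL : Tendsto (fun n => (1 / 2) * ip (p - q0) ((((τ n : ℝ) : ℂ)⁻¹ *
        (Complex.exp (τ n * I) - 1)) * d) - τ n * (ip (p - q0) (Complex.exp (τ n * I) * d) +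
          ip (p - q0) d) - ip c (Complex.exp (τ n * I) * d)) atTop
        (𝓝 ((1 / 2) * ip (p - q0) (I * d) - 0 * (ip (p - q0) (1 * d) + ip (p - q0) d) -
          ip c (1 * d))) := by
      have e1 := exp_slope hτ0 hτ
      have e2 := exp_tend hτ
      have e3 : Tendsto (fun n => ip (p - q0) (Complex.exp (τ n * I) * d)) atTop
          (𝓝 (ip (p - q0) (1 * d))) := ip_tendsto tendsto_const_nhds (e2.mul_const d)
      have e4 : Tendsto (fun n => ip c (Complex.exp (τ n * I) * d)) atTop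
          (𝓝 (ip c (1 * d))) := ip_tendsto tendsto_const_nhds (e2.mul_const d)
      have e5 : Tendsto (fun n => ip (p - q0) ((((τ n : ℝ) : ℂ)⁻¹ *
          (Complex.exp (τ n * I) - 1)) * d)) atTop (𝓝 (ip (p - q0) (I * d))) :=
        ip_tendsto tendsto_const_nhds (e1.mul_const d)
      exact ((e5.const_mul (1 / 2)).sub (hτ.mul (e3.add_const _))).sub e4
    have hge := le_of_tendsto' hL hineq
    rw [one_mul] at hge
    linarith
  obtain ⟨t2, ht2, h2⟩ := claim2
  set m0 := min (min t1 t2) (min t3 (1 / 2)) with hm0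
  set τ := m0 / 2 with hτ
  have hm00 : 0 < m0 := by positivity
  have hτ0 : 0 < τ := by positivity
  have hm1 : m0 ≤ t1 := (min_le_left _ _).trans (min_le_left _ _)
  have hm2 : m0 ≤ t2 := (min_le_left _ _).trans (min_le_right _ _)
  have hm3 : m0 ≤ t3 := (min_le_right _ _).trans (min_le_left _ _)
  have hm4 : m0 ≤ 1 / 2 := (min_le_right _ _).trans (min_le_right _ _)
  have hτ1 : τ < t1 := by linarith
  have hτ2 : τ < t2 := by linarith
  have hτ3 : τ < t3 := by linarith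
  have hτ4 : τ ≤ 1 / 4 := by linarith
  have hτs : τ ^ 2 ≤ 1 / 16 := by nlinarith
  set r := 1 / 2 + τ ^ 2 with hr
  have hr0 : 0 < r := by positivity
  have hew : ‖Complex.exp (τ * I)‖ = 1 := Complex.norm_exp_ofReal_mul_I τ
  refine ⟨r, (fun x => p - (τ : ℂ) * c + (r : ℂ) * (Complex.exp (τ * I) * (x - p))) '' F,
    (fun x => (r : ℂ) * x + ((1 - r : ℝ) : ℂ) * q0) '' F,
    by rw [hr]; nlinarith [pow_pos hτ0 2], ?_, ?_, ?_, ?_, ?_⟩
  · refine ⟨(rotation ⟨Complex.exp (τ * I), mem_sphere_zero_iff_norm.mpr hew⟩).toIsometryEquiv.trans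
      (IsometryEquiv.addRight (p - (τ : ℂ) * c - (r : ℂ) * (Complex.exp (τ * I) * p))), ?_⟩
    rw [← image_smul, image_image]
    apply image_congr
    intro x _
    change p - (τ : ℂ) * c + (r : ℂ) * (Complex.exp (τ * I) * (x - p)) =
      Complex.exp (τ * I) * (r • x) + (p - (τ : ℂ) * c - (r : ℂ) * (Complex.exp (τ * I) * p))
    simp only [real_smul]
    ring
  · refine ⟨IsometryEquiv.addRight (((1 - r : ℝ) : ℂ) * q0), ?_⟩
    rw [← image_smul, image_image]
    apply image_congr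
    intro x _
    simp
  · rintro _ ⟨x, hx, rfl⟩
    exact h1 τ hτ0 hτ1 x hx
  · rintro _ ⟨x, hx, rfl⟩
    have := hF.2.1 hx hq0 hr0.le (show 0 ≤ 1 - r by rw [hr]; linarith) (by ring)
    simpa only [real_smul] using this
  · -- separation by `ip · (e^{iτ} d)`
    set D := Complex.exp (τ * I) * d with hD
    have hlin : ∃ g : ℂ →L[ℝ] ℝ, ∀ z, g z = ip z D := by
      refine ⟨D.re • Complex.reCLM + D.im • Complex.imCLM, fun z => ?_⟩
      simp [ip]
      ring
    have hD0 : D ≠ 0 := mul_ne_zero (Complex.exp_ne_zero _) hd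
    obtain ⟨g, hg⟩ := hlin
    have hg0 : g ≠ 0 := by
      rintro rfl
      have h3 := hg D
      have h4 : ip D D = 0 := by rw [← h3]; rfl
      apply hD0
      unfold ip at h4
      apply Complex.ext
      · simp
        nlinarith [sq_nonneg D.re, sq_nonneg D.im]
      · simp
        nlinarith [sq_nonneg D.re, sq_nonneg D.im]
    have hgap := h2 τ hτ0 hτ2
    rw [← hr, ← hD] at hgap
    refine SepSets.symm ⟨g, r * ip p D + (1 - r) * ip q0 D, hg0, ?_, ?_⟩
    · rintro _ ⟨x, hx, rfl⟩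
      rw [hg, ip_add_left, ip_smul_left, ip_smul_left]
      have h4 := mul_le_mul_of_nonneg_left (h3 τ hτ0 hτ3 x hx) hr0.le
      linarith
    · rintro _ ⟨x, hx, rfl⟩
      rw [hg, ip_add_left, ip_sub_left, ip_smul_left, ip_smul_left, hD, ip_rot hew, ← hD]
      have h4 := mul_le_mul_of_nonneg_left (hqd x hx) hr0.le
      have h5 : 1 / 2 - τ ^ 2 = 1 - r := by rw [hr]; ring
      rw [h5, ip_sub_left, ip_sub_left] at hgap
      rw [ip_sub_left]
      nlinarith

end Pool.Agent.H50.CP
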