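import Pool.Agent.H50.CP.Defs

set_option autoImplicit false

/-!
# The triangle as a shape (row CP TriS)

PROOF of `Shape u v (Tri 0 u v)`.
* `fig`: `Tri_fig`; `box`: `mem_Tri`; `mem*` trivial.
* `slack` for `η`: `δ = min (1/50) (η²/8)` or smaller. `L = []`: `Pack.nil`. `L = y1 :: L1`: if
  `sqs L ≤ y1² + (1-y1)²` use `packA` (H21/Tri/Rows.lean; `y1 ≤ 1` since `y1² ≤ 1/2 + δ`). Otherwise
  `2 (y1-1/2)² < δ`, so `|y1-1/2| < η` and `L1 ≠ []`. `L1 = y2 :: L'`: if `y1 + y2 ≤ 1` and
  `sqs L ≤ y2² + (1-y2)²` use `packB`. If `y1 + y2 ≤ 1` and `sqs L > y2² + (1-y2)²` then `2 (y2-1/2)² < δ`.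
  If `y1 + y2 > 1` then `y2 > 1 - y1 > 1/2 - sqrt δ` and `y2 ≤ y1 < 1/2 + sqrt δ`, with `y1² + y2² ≤ 1/2 + δ`:
  `(y1-1/2)² + (y2-1/2)² < δ`. Compare `pack_gain` in H21/Tri/Main.lean.
* `small`: `packSmall` with `p = fx a`, `q = fy a`, and `Up u v (fx a) (fy a) κ = a + κ • Tri 0 u v`
  (`mem_smul_Tri`).
-/

namespace Pool.Agent.H50.CP

open Pool.Agent.H90.Clone Pool.Agent.H21.Tri Complex Set Pointwise MeasureTheory

theorem shape_tri {u v : ℂ} (h : det u v ≠ 0) : Shape u v (Tri 0 u v) := by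
  refine ⟨h, Tri_fig h, ?_, ?_, ?_, ?_, ?_, ?_⟩
  · intro z hz
    rw [mem_Tri h] at hz
    exact ⟨hz.1, hz.2.1, by linarith [hz.1, hz.2.1, hz.2.2], by linarith [hz.1, hz.2.1, hz.2.2]⟩
  · exact ⟨0, 0, le_rfl, le_rfl, by norm_num, by simp⟩
  · exact ⟨1, 0, by norm_num, le_rfl, by norm_num, by simp⟩
  · exact ⟨0, 1, le_rfl, by norm_num, by norm_num, by simp⟩
  · intro η hη
    set e := min (η / 2) (1 / 4) with he
    have e0 : 0 < e := lt_min (by linarith) (by norm_num)
    have e1 : e ≤ η / 2 := min_le_left _ _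
    have e2 : e ≤ 1 / 4 := min_le_right _ _
    refine ⟨2 * e ^ 2, by positivity, ?_⟩
    intro L hs hpos hsum
    cases L with
    | nil => exact Or.inl (Pack.nil _)
    | cons y1 L =>
      have hy1 : 0 < y1 := hpos y1 (by simp)
      have hL0 := sqs_nonneg L
      have hy1' : y1 ≤ 1 := by
        rw [sqs_cons] at hsum
        nlinarith
      by_cases hA1 : sqs (y1 :: L) ≤ y1 ^ 2 + (1 - y1) ^ 2
      · exact Or.inl (packA h y1 L hs hpos hA1 hy1')
      · push Not at hA1
        have hdev : (y1 - 1 / 2) ^ 2 < e ^ 2 := by nlinarith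
        have hdev' := abs_lt_of_sq_lt_sq hdev e0.le
        cases L with
        | nil =>
          exfalso
          rw [sqs_cons, sqs_nil] at hA1
          nlinarith [sq_nonneg (1 - y1)]
        | cons y2 L =>
          by_cases hB1 : y1 + y2 ≤ 1 ∧ sqs (y1 :: y2 :: L) ≤ y2 ^ 2 + (1 - y2) ^ 2
          · exact Or.inl (packB h y1 y2 L hs hpos hB1.2 hB1.1)
          · right
            have hL1 := sqs_nonneg L
            refine ⟨y1, y2, L, rfl, by linarith, ?_⟩
            have hkey : (y2 - 1 / 2) ^ 2 < η ^ 2 := by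
              have e3 : 2 * e ^ 2 < η ^ 2 := by nlinarith
              by_cases h12 : y1 + y2 ≤ 1
              · have hB2 : y2 ^ 2 + (1 - y2) ^ 2 < sqs (y1 :: y2 :: L) := by
                  by_contra hcon
                  push Not at hcon
                  exact hB1 ⟨h12, hcon⟩
                nlinarith
              · push Not at h12
                rw [sqs_cons, sqs_cons] at hsum
                nlinarith [sq_nonneg (y1 - 1 / 2)]
            exact abs_lt_of_sq_lt_sq hkey hη.le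
  · intro κ a hκ L hs hpos hsum
    have hp := packSmall h L hs hpos hκ hsum (fx u v a) (fy u v a)
    apply hp.mono
    rintro z ⟨h1, h2, h3⟩
    refine ⟨z - a, ?_, sub_add_cancel z a⟩
    rw [mem_smul_Tri h hκ, map_sub, map_sub]
    exact ⟨by linarith, by linarith, by linarith⟩

end Pool.Agent.H50.CP
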