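import Pool.Agent.H50.CP.Defs

set_option autoImplicit false

/-!
# The square (any parallelogram) as a shape (row CP Sq)

PROOF of `Shape u v (Par 0 u v)`.
* `fig`, `box`, `mem*`: compare `Tri_fig`, `mem_Tri` in H21/Tri/Main.lean, Basic.lean.
  `z ∈ Par 0 u v ↔ 0 ≤ fx z ≤ 1 ∧ 0 ≤ fy z ≤ 1` (`fx_comb`, `fy_comb`, `comb_eq`).
* Bridge: for `c : Fin n → ℝ` positive, `l : List (Fin n)` nodup and `Pk c l x0 y0 x1 y1` (H90/Clone/Squares.lean)
  one gets `Pack (Par 0 u v) {z | x0 ≤ fx z ≤ x1, y0 ≤ fy z ≤ y1} (l.map c)`: the copies are the boxes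
  `p i + c i • Par 0 u v`, `Sep` gives `SepSets` through `fx` or `fy` (see `box_sep` in H90/Clone/Main.lean, `sepX`,
  `sepY` in H21/Tri/Basic.lean). A list `L : List ℝ` is `(List.finRange L.length).map L.get` (or `getElem`).
* `slack` for `η`: put `δ = min (1/50) (η²)`. (As in `good_unit`, H90/Clone/Unit.lean.) `L = []`: `Pack.nil`.
  `L = y1 :: L1`: if `sqs L ≤ y1² + (1-y1)²` use `meirMoser` in the unit square. Otherwise
  `2 (y1-1/2)² < δ`, so `|y1 - 1/2| < η` and `2/5 ≤ y1 ≤ 3/5`, and `L1 ≠ []` (else `y1² > y1² + (1-y1)²`).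
  `L1 = y2 :: L'`: if `y1 + y2 ≤ 1` use `twoInRow`. Otherwise `y1 + y2 > 1` and `y1² + y2² ≤ 1/2 + δ` give
  `(y1-1/2)² + (y2-1/2)² < δ ≤ η²`.
* `small`: `moonMoser` with `r = κ` and `(x0, y0) = (fx a, fy a)`; the box of side `κ` at `a` is `a + κ • Par 0 u v`.
-/

namespace Pool.Agent.H50.CP

open Pool.Agent.H90.Clone Pool.Agent.H21.Tri Complex Set Pointwise MeasureTheory

variable {u v : ℂ}

theorem sq_mem (h : det u v ≠ 0) (z : ℂ) :
    z ∈ Par 0 u v ↔ 0 ≤ fx u v z ∧ fx u v z ≤ 1 ∧ 0 ≤ fy u v z ∧ fy u v z ≤ 1 := by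
  constructor
  · rintro ⟨x, y, h1, h2, h3, h4, rfl⟩
    rw [zero_add, fx_comb h, fy_comb h]
    exact ⟨h1, h2, h3, h4⟩
  · rintro ⟨h1, h2, h3, h4⟩
    refine ⟨_, _, h1, h2, h3, h4, ?_⟩
    rw [zero_add]
    exact comb_eq h z

theorem sq_mem_smul (h : det u v ≠ 0) {c : ℝ} (hc : 0 < c) (z : ℂ) :
    z ∈ c • Par 0 u v ↔ 0 ≤ fx u v z ∧ fx u v z ≤ c ∧ 0 ≤ fy u v z ∧ fy u v z ≤ c := by
  rw [mem_smul_set_iff_inv_smul_mem₀ hc.ne', sq_mem h, map_smul, map_smul, smul_eq_mul,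
    smul_eq_mul, inv_mul_le_iff₀ hc, inv_mul_le_iff₀ hc, mul_one]
  constructor
  · rintro ⟨h1, h2, h3, h4⟩
    exact ⟨nonneg_of_mul_nonneg_right h1 (inv_pos.mpr hc), h2,
      nonneg_of_mul_nonneg_right h3 (inv_pos.mpr hc), h4⟩
  · rintro ⟨h1, h2, h3, h4⟩
    exact ⟨mul_nonneg (inv_pos.mpr hc).le h1, h2, mul_nonneg (inv_pos.mpr hc).le h3, h4⟩

/-- the square with lower left corner `(p, q)` and side `c` -/
def sqBox (u v : ℂ) (p q c : ℝ) : Set ℂ :=
  {z | p ≤ fx u v z ∧ fx u v z ≤ p + c ∧ q ≤ fy u v z ∧ fy u v z ≤ q + c}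

/-- the box with corners `(x0, y0)`, `(x1, y1)` -/
def sqReg (u v : ℂ) (x0 y0 x1 y1 : ℝ) : Set ℂ :=
  {z | x0 ≤ fx u v z ∧ fx u v z ≤ x1 ∧ y0 ≤ fy u v z ∧ fy u v z ≤ y1}

theorem sq_copy (h : det u v ≠ 0) {c : ℝ} (hc : 0 < c) (p q : ℝ) :
    IsCopy (Par 0 u v) c (sqBox u v p q c) := by
  refine ⟨IsometryEquiv.addRight ((p : ℂ) * u + (q : ℂ) * v), ?_⟩
  ext z
  have hX := fx_comb h p q
  have hY := fy_comb h p q
  constructor
  · rintro ⟨h1, h2, h3, h4⟩
    refine ⟨z - ((p : ℂ) * u + (q : ℂ) * v), ?_, by simp⟩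
    rw [sq_mem_smul h hc, map_sub, map_sub, hX, hY]
    exact ⟨by linarith, by linarith, by linarith, by linarith⟩
  · rintro ⟨w, hw, rfl⟩
    rw [sq_mem_smul h hc] at hw
    obtain ⟨h1, h2, h3, h4⟩ := hw
    have e1 := map_add (fx u v) w ((p : ℂ) * u + (q : ℂ) * v)
    have e2 := map_add (fy u v) w ((p : ℂ) * u + (q : ℂ) * v)
    rw [hX] at e1
    rw [hY] at e2
    change p ≤ fx u v (w + ((p : ℂ) * u + (q : ℂ) * v)) ∧
      fx u v (w + ((p : ℂ) * u + (q : ℂ) * v)) ≤ p + c ∧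
      q ≤ fy u v (w + ((p : ℂ) * u + (q : ℂ) * v)) ∧
      fy u v (w + ((p : ℂ) * u + (q : ℂ) * v)) ≤ q + c
    rw [e1, e2]
    exact ⟨by linarith, by linarith, by linarith, by linarith⟩

theorem sq_bridge (h : det u v ≠ 0) {ι : Type} {c : ι → ℝ} {l : List ι}
    (hpos : ∀ i ∈ l, 0 < c i) {x0 y0 x1 y1 : ℝ} (hp : Pk c l x0 y0 x1 y1) :
    Pack (Par 0 u v) (sqReg u v x0 y0 x1 y1) (l.map c) := by
  obtain ⟨p, hp, hs⟩ := hp
  refine ⟨l.map (fun i => sqBox u v (p i).1 (p i).2 (c i)), ?_, ?_, ?_⟩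
  · rw [List.forall₂_map_left_iff, List.forall₂_map_right_iff]
    exact List.forall₂_same.2 (fun i hi => sq_copy h (hpos i hi) _ _)
  · intro S hS
    obtain ⟨i, hi, rfl⟩ := List.mem_map.1 hS
    obtain ⟨a1, a2, a3, a4⟩ := hp i hi
    rintro z ⟨b1, b2, b3, b4⟩
    exact ⟨a1.trans b1, b2.trans a2, a3.trans b3, b4.trans a4⟩
  · rw [List.pairwise_map]
    refine hs.imp ?_
    intro i j hij
    rcases hij with e | e | e | e
    · exact sepX h ((p i).1 + c i) (fun z hz => hz.2.1) (fun z hz => e.trans hz.1)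
    · exact SepSets.symm (sepX h ((p j).1 + c j) (fun z hz => hz.2.1) (fun z hz => e.trans hz.1))
    · exact sepY h ((p i).2 + c i) (fun z hz => hz.2.2.2) (fun z hz => e.trans hz.2.2.1)
    · exact SepSets.symm
        (sepY h ((p j).2 + c j) (fun z hz => hz.2.2.2) (fun z hz => e.trans hz.2.2.1))

theorem sq_closed (hd : det u v ≠ 0) : IsClosed (Par 0 u v) := by
  have : Par 0 u v = {z | 0 ≤ fx u v z} ∩ ({z | fx u v z ≤ 1} ∩
      ({z | 0 ≤ fy u v z} ∩ {z | fy u v z ≤ 1})) := by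
    ext z
    exact sq_mem hd z
  rw [this]
  apply IsClosed.inter
  · exact isClosed_le continuous_const (fx u v).continuous
  · apply IsClosed.inter
    · exact isClosed_le (fx u v).continuous continuous_const
    · apply IsClosed.inter
      · exact isClosed_le continuous_const (fy u v).continuous
      · exact isClosed_le (fy u v).continuous continuous_const

theorem sq_bdd (u v : ℂ) : ∀ z ∈ Par 0 u v, ‖z‖ ≤ ‖u‖ + ‖v‖ := by
  rintro z ⟨x, y, hx, hx1, hy, hy1, rfl⟩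
  rw [zero_add]
  calc ‖(x : ℂ) * u + (y : ℂ) * v‖ ≤ ‖(x : ℂ) * u‖ + ‖(y : ℂ) * v‖ := norm_add_le _ _
    _ = x * ‖u‖ + y * ‖v‖ := by
        rw [norm_mul, norm_mul, Complex.norm_real, Complex.norm_real, Real.norm_eq_abs,
          Real.norm_eq_abs, abs_of_nonneg hx, abs_of_nonneg hy]
    _ ≤ 1 * ‖u‖ + 1 * ‖v‖ :=
        add_le_add (mul_le_mul_of_nonneg_right hx1 (norm_nonneg _))
          (mul_le_mul_of_nonneg_right hy1 (norm_nonneg _))
    _ = _ := by ring

theorem sq_fig (hd : det u v ≠ 0) : IsConvexFigure (Par 0 u v) := by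
  refine ⟨?_, ?_, ?_⟩
  · apply Metric.isCompact_of_isClosed_isBounded (sq_closed hd)
    apply (Metric.isBounded_closedBall (x := (0 : ℂ)) (r := ‖u‖ + ‖v‖)).subset
    intro z hz
    rw [mem_closedBall_zero_iff]
    exact sq_bdd u v z hz
  · rintro _ ⟨x, y, h1, h2, h3, h4, rfl⟩ _ ⟨x', y', h1', h2', h3', h4', rfl⟩ a b ha hb hab
    refine ⟨a * x + b * x', a * y + b * y', by positivity, ?_, by positivity, ?_, ?_⟩
    · have e1 := mul_le_mul_of_nonneg_left h2 ha
      have e2 := mul_le_mul_of_nonneg_left h2' hb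
      linarith
    · have e1 := mul_le_mul_of_nonneg_left h4 ha
      have e2 := mul_le_mul_of_nonneg_left h4' hb
      linarith
    · simp only [real_smul]
      push_cast
      ring
  · have ho : IsOpen {z : ℂ | 0 < fx u v z ∧ fx u v z < 1 ∧ 0 < fy u v z ∧ fy u v z < 1} := by
      apply IsOpen.inter
      · exact isOpen_lt continuous_const (fx u v).continuous
      · apply IsOpen.inter
        · exact isOpen_lt (fx u v).continuous continuous_const
        · apply IsOpen.inter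
          · exact isOpen_lt continuous_const (fy u v).continuous
          · exact isOpen_lt (fy u v).continuous continuous_const
    refine ⟨((1 / 2 : ℝ) : ℂ) * u + ((1 / 2 : ℝ) : ℂ) * v, ?_⟩
    rw [mem_interior]
    refine ⟨_, ?_, ho, ?_⟩
    · rintro z ⟨h1, h2, h3, h4⟩
      rw [sq_mem hd]
      exact ⟨h1.le, h2.le, h3.le, h4.le⟩
    · change 0 < fx u v _ ∧ fx u v _ < 1 ∧ 0 < fy u v _ ∧ fy u v _ < 1
      rw [fx_comb hd, fy_comb hd]
      norm_num

theorem sq_main {ι : Type} [DecidableEq ι] (c : ι → ℝ) (l : List ι) (hn : l.Nodup)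
    (hs : l.Pairwise (fun i j => c j ≤ c i)) (hpos : ∀ i ∈ l, 0 < c i) {η : ℝ} (hη : 0 < η)
    (hsum : Pool.Agent.H90.Clone.sq c l ≤ 1 / 2 + min (1 / 50) (η ^ 2)) :
    Pk c l 0 0 1 1 ∨ ∃ (i j : ι) (l' : List ι), l = i :: j :: l' ∧ |c i - 1 / 2| < η ∧
      |c j - 1 / 2| < η := by
  have d1 : min (1 / 50) (η ^ 2) ≤ 1 / 50 := min_le_left _ _
  have d2 : min (1 / 50) (η ^ 2) ≤ η ^ 2 := min_le_right _ _
  set δ := min (1 / 50) (η ^ 2) with hδ
  cases l with
  | nil => exact Or.inl (Pk.nil _ _ _ _)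
  | cons i0 t =>
    have hi0 := hpos i0 (by simp)
    have hc1 : c i0 ^ 2 ≤ 1 / 2 + δ := by
      rw [sq_cons] at hsum
      have := sq_nonneg' (c := c) t
      linarith
    have hi01 : c i0 ≤ 1 := by nlinarith
    by_cases hA : Pool.Agent.H90.Clone.sq c (i0 :: t) ≤ c i0 ^ 2 + (1 - c i0) * (1 - c i0)
    · have := meirMoser (c := c) (i0 :: t).length (i0 :: t) le_rfl hn hs hpos 1 1
        (fun i t' hit => by
          have : i = i0 := (List.cons.inj hit).1.symm
          subst this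
          exact ⟨hi01, hi01, hA⟩) 0 0
      rw [zero_add] at this
      exact Or.inl this
    · push Not at hA
      have hdev : 2 * (c i0 - 1 / 2) ^ 2 < δ := by nlinarith
      have hdev1 : (c i0 - 1 / 2) ^ 2 < 1 / 100 := by linarith
      have hlo : 2 / 5 ≤ c i0 := by nlinarith
      have hhi : c i0 ≤ 3 / 5 := by nlinarith
      cases t with
      | nil =>
        exfalso
        rw [sq_cons, sq_nil] at hA
        nlinarith
      | cons i1 l =>
        by_cases hB : c i0 + c i1 ≤ 1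
        · exact Or.inl (twoInRow i0 i1 l hn hs hpos hB hlo hhi (by linarith))
        · push Not at hB
          rw [sq_cons, sq_cons] at hsum
          have h0 := sq_nonneg' (c := c) l
          refine Or.inr ⟨i0, i1, l, rfl, ?_, ?_⟩
          · refine abs_lt_of_sq_lt_sq ?_ hη.le
            nlinarith [sq_nonneg (c i0 - 1 / 2)]
          · refine abs_lt_of_sq_lt_sq ?_ hη.le
            nlinarith [sq_nonneg (c i0 - 1 / 2)]

theorem sq_list (L : List ℝ) (hs : L.Pairwise (fun a b => b ≤ a)) (hpos : ∀ c ∈ L, 0 < c) :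
    (List.finRange L.length).map L.get = L ∧
    (List.finRange L.length).Pairwise (fun i j => L.get j ≤ L.get i) ∧
    (∀ i ∈ List.finRange L.length, 0 < L.get i) ∧
    Pool.Agent.H90.Clone.sq L.get (List.finRange L.length) = sqs L := by
  have e := List.map_get_finRange L
  refine ⟨e, ?_, ?_, ?_⟩
  · have h1 : ((List.finRange L.length).map L.get).Pairwise (fun a b => b ≤ a) := by
      rw [e]
      exact hs
    rw [List.pairwise_map] at h1
    exact h1
  · intro i _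
    exact hpos _ (List.get_mem L i)
  · unfold Pool.Agent.H90.Clone.sq sqs
    conv_rhs => rw [← e]
    rw [List.map_map]
    rfl

theorem shape_par {u v : ℂ} (h : det u v ≠ 0) : Shape u v (Par 0 u v) := by
  classical
  refine ⟨h, sq_fig h, ?_, ?_, ?_, ?_, ?_, ?_⟩
  · intro z hz
    rw [sq_mem h] at hz
    exact ⟨hz.1, hz.2.2.1, hz.2.1, hz.2.2.2⟩
  · exact ⟨0, 0, le_rfl, zero_le_one, le_rfl, zero_le_one, by simp⟩
  · exact ⟨1, 0, zero_le_one, le_rfl, le_rfl, zero_le_one, by simp⟩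
  · exact ⟨0, 1, le_rfl, zero_le_one, zero_le_one, le_rfl, by simp⟩
  · intro η hη
    refine ⟨min (1 / 50) (η ^ 2), by positivity, ?_⟩
    intro L hs hpos hsum
    obtain ⟨e, hs', hpos', hsq⟩ := sq_list L hs hpos
    rcases sq_main L.get (List.finRange L.length) (List.nodup_finRange _) hs' hpos' hη
      (by rw [hsq]; exact hsum) with hp | ⟨i, j, l', hl, hi, hj⟩
    · left
      have h1 := sq_bridge h hpos' hp
      rw [e] at h1
      refine h1.mono ?_
      rintro z ⟨h2, h3, h4, h5⟩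
      rw [sq_mem h]
      exact ⟨h2, h3, h4, h5⟩
    · right
      refine ⟨L.get i, L.get j, l'.map L.get, ?_, hi, hj⟩
      conv_lhs => rw [← e, hl]
      rfl
  · intro κ a hκ L hs hpos hsum
    obtain ⟨e, hs', hpos', hsq⟩ := sq_list L hs hpos
    have hp := moonMoser (c := L.get) (List.finRange L.length) (List.nodup_finRange _) hs' hpos'
      hκ.le (by rw [hsq]; exact hsum) (fx u v a) (fy u v a)
    have h1 := sq_bridge h hpos' hp
    rw [e] at h1
    refine h1.mono ?_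
    rintro z ⟨h2, h3, h4, h5⟩
    refine ⟨z - a, ?_, by simp⟩
    rw [sq_mem_smul h hκ, map_sub, map_sub]
    exact ⟨by linarith, by linarith, by linarith, by linarith⟩

end Pool.Agent.H50.CP
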