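import Pool.Agent.H50.CP.Edge

set_option autoImplicit false

/-!
# Long edges near a square (row CP SqEdge: prove `sq_edge`, `edge` may be used)

PROOF. Let `s = ‖u‖`, `n = u/s`, so `I n = I u / s`; `t = min (1/10) (η/20)`, `ε₀ = t²/400`; `y = o + u + I u`. Write points
as `z = o + X u + Y (I u)`. From `Par o u (I u) ⊆ F ⊆ Par o' ..` one gets `-ε ≤ X, Y ≤ 1 + ε` on `F` (the corner `o'` has
coordinates in `[-ε, 0]`). With `d = n + t I n`: `ip z d = const + s (X + t Y)`. A maximiser `p`: `X + t Y ≥ 1 + t`, so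
`X ≥ 1 - t ε`, `Y ≥ 1 - ε/t`: `‖p - y‖ ≤ s (|X-1| + |Y-1|) ≤ δ := 4 s ε / t ≤ t s/100`. A minimiser `q`: `X + t Y ≤ 0`, `X, Y ≥ -ε`, so
`X ≤ t ε`, `Y ≤ ε/t`. Hence `ip (p-q) (I n - t n) = s ((Yp - Yq) - t (Xp - Xq)) ≥ s (1 - 2ε/t - t (1 + 2ε)) ≥ b := s (1 - 2t)`.
`edge` with `h = s`, `a = 0` (`o + I u = y - s n ∈ F`, `o + u = y - s I n ∈ F`) gives `p, f`; put `b := p`, `a := f`. With `Λ = ‖f - p‖`:
`Λ ≥ (1-3t)(1-2t) s ≥ (1-5t) s`, and the `Y`-coordinate of `f` is `≥ -ε` and `≤ Yp - (1-2t) Λ/s`, so `Λ (1-2t) ≤ (1+2ε) s`,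
`Λ ≤ (1+4t) s`. So `‖f - (o+u)‖ = ‖f - (y - s I n)‖ ≤ ‖p - y‖ + ‖f - p + Λ I n‖ + |Λ - s| ≤ t s + 2t·(3/2) s + 5 t s ≤ η s`.
-/

namespace Pool.Agent.H50.CP

open Pool.Agent.H90.Clone Pool.Agent.H21.Tri Complex Set Pointwise MeasureTheory

private theorem SqEdge_abs (z w : ℂ) (hw : ‖w‖ = 1) : |ip z w| ≤ ‖z‖ := by
  have h1 : ip z w = (z * (starRingEnd ℂ) w).re := by
    rw [mul_re, conj_re, conj_im]
    unfold ip
    ring
  rw [h1]
  refine (Complex.abs_re_le_norm _).trans ?_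
  rw [norm_mul, RCLike.norm_conj, hw, mul_one]

private theorem SqEdge_sq {n : ℂ} (hn : ‖n‖ = 1) : n.re ^ 2 + n.im ^ 2 = 1 := by
  have h := Complex.sq_norm n
  rw [hn, normSq_apply] at h
  linarith

private theorem SqEdge_dec {n : ℂ} (hn : n.re ^ 2 + n.im ^ 2 = 1) (z : ℂ) :
    z = ((ip z n : ℝ) : ℂ) * n + ((ip z (I * n) : ℝ) : ℂ) * (I * n) := by
  unfold ip
  apply Complex.ext
  · rw [add_re, re_ofReal_mul, re_ofReal_mul]
    simp only [mul_re, mul_im, I_re, I_im]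
    linear_combination -z.re * hn
  · rw [add_im, im_ofReal_mul, im_ofReal_mul]
    simp only [mul_re, mul_im, I_re, I_im]
    linear_combination -z.im * hn

private theorem SqEdge_norm {n : ℂ} (hn : ‖n‖ = 1) (z : ℂ) {α β : ℝ} (h1 : |ip z n| ≤ α)
    (h2 : |ip z (I * n)| ≤ β) : ‖z‖ ≤ α + β := by
  have h3 := SqEdge_dec (SqEdge_sq hn) z
  calc ‖z‖ = ‖((ip z n : ℝ) : ℂ) * n + ((ip z (I * n) : ℝ) : ℂ) * (I * n)‖ := by rw [← h3]
    _ ≤ ‖((ip z n : ℝ) : ℂ) * n‖ + ‖((ip z (I * n) : ℝ) : ℂ) * (I * n)‖ := norm_add_le _ _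
    _ = |ip z n| + |ip z (I * n)| := by
        rw [norm_mul, norm_mul, norm_mul, hn, norm_I, Complex.norm_real, Complex.norm_real,
          Real.norm_eq_abs, Real.norm_eq_abs]
        ring
    _ ≤ α + β := add_le_add h1 h2

private theorem SqEdge_ip_sub (z w v : ℂ) : ip (z - w) v = ip z v - ip w v := by
  unfold ip
  rw [sub_re, sub_im]
  ring

private theorem SqEdge_ip_add (z w v : ℂ) : ip (z + w) v = ip z v + ip w v := by
  unfold ip
  rw [add_re, add_im]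
  ring

private theorem SqEdge_ip_smul (a : ℝ) (z v : ℂ) : ip ((a : ℂ) * z) v = a * ip z v := by
  unfold ip
  rw [re_ofReal_mul, im_ofReal_mul]
  ring

private theorem SqEdge_ip_addr (z v w : ℂ) : ip z (v + w) = ip z v + ip z w := by
  unfold ip
  rw [add_re, add_im]
  ring

private theorem SqEdge_ip_subr (z v w : ℂ) : ip z (v - w) = ip z v - ip z w := by
  unfold ip
  rw [sub_re, sub_im]
  ring

private theorem SqEdge_ip_smulr (a : ℝ) (z v : ℂ) : ip z ((a : ℂ) * v) = a * ip z v := by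
  unfold ip
  rw [re_ofReal_mul, im_ofReal_mul]
  ring

private theorem SqEdge_nn {n : ℂ} (hn : n.re ^ 2 + n.im ^ 2 = 1) : ip n n = 1 := by
  unfold ip
  linarith

private theorem SqEdge_ii {n : ℂ} (hn : n.re ^ 2 + n.im ^ 2 = 1) : ip (I * n) (I * n) = 1 := by
  unfold ip
  simp only [mul_re, mul_im, I_re, I_im]
  linarith

private theorem SqEdge_ni (n : ℂ) : ip n (I * n) = 0 := by
  unfold ip
  simp only [mul_re, mul_im, I_re, I_im]
  ring

private theorem SqEdge_in (n : ℂ) : ip (I * n) n = 0 := by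
  unfold ip
  simp only [mul_re, mul_im, I_re, I_im]
  ring

private theorem SqEdge_n1 {t s : ℝ} (ht : 0 < t) (hs : 0 < s) :
    (1 - 5 * t) * s ≤ (1 - 3 * t) * (s * (1 - 2 * t)) := by
  have h : 0 ≤ 6 * t ^ 2 * s := by positivity
  linarith

private theorem SqEdge_n2 {t s ε Λ : ℝ} (ht : 0 < t) (ht1 : t ≤ 1 / 10) (hs : 0 < s)
    (hε : ε ≤ t / 400) (h : (1 - 2 * t) * Λ ≤ (1 + 2 * ε) * s) : Λ ≤ (1 + 4 * t) * s := by
  have h8 : 1 + 2 * ε ≤ (1 - 2 * t) * (1 + 4 * t) := by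
    have : t * t ≤ 1 / 10 * t := mul_le_mul_of_nonneg_right ht1 ht.le
    linarith
  have h6 : (1 + 2 * ε) * s ≤ (1 - 2 * t) * ((1 + 4 * t) * s) := by
    calc (1 + 2 * ε) * s ≤ ((1 - 2 * t) * (1 + 4 * t)) * s :=
          mul_le_mul_of_nonneg_right h8 hs.le
      _ = (1 - 2 * t) * ((1 + 4 * t) * s) := by ring
  exact le_of_mul_le_mul_left (h.trans h6) (by linarith)

private theorem SqEdge_n3 {t s : ℝ} (ht : 0 < t) (ht1 : t ≤ 1 / 10) (hs : 0 < s) :
    2 * t * ((1 + 4 * t) * s) ≤ 3 * (t * s) := by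
  have h1 : 0 < t * s := mul_pos ht hs
  have h2 : t * (t * s) ≤ 1 / 10 * (t * s) := mul_le_mul_of_nonneg_right ht1 h1.le
  linarith

private theorem SqEdge_n4 {t s E e : ℝ} (ht : 0 < t) (ht1 : t ≤ 1 / 10)
    (hE : E ≤ t / 400 * s) (he : e ≤ E) (he0 : 0 ≤ e) {a b a' b' N M : ℝ}
    (h1 : N + s - E ≤ a) (h2 : b ≤ N + E) (h3 : a' ≤ M + s + e) (h4 : M - e ≤ b') :
    s * (1 - 2 * t) ≤ a - b - t * (a' - b') := by
  have h5 : t * (a' - b') ≤ t * (s + 2 * e) := mul_le_mul_of_nonneg_left (by linarith) ht.le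
  have h6 : t * e ≤ 1 / 10 * e := mul_le_mul_of_nonneg_right ht1 he0
  linarith

/-- the side from `o + u` to `o + u + I u` -/
theorem sq_edge (o u : ℂ) (hu : u ≠ 0) {η : ℝ} (hη : 0 < η) : ∃ ε₀ : ℝ, 0 < ε₀ ∧
    ∀ ε : ℝ, 0 ≤ ε → ε ≤ ε₀ → ∀ (F : Set ℂ) (o' : ℂ), IsConvexFigure F → Par o u (I * u) ⊆ F →
      F ⊆ Par o' (((1 + ε : ℝ) : ℂ) * u) (((1 + ε : ℝ) : ℂ) * (I * u)) → ¬ Two F →
      ∃ a b : ℂ, segment ℝ a b ⊆ frontier F ∧ ‖a - (o + u)‖ ≤ η * ‖u‖ ∧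
        ‖b - (o + u + I * u)‖ ≤ η * ‖u‖ := by
  obtain ⟨t, ht0, ht1, ht2⟩ : ∃ t : ℝ, 0 < t ∧ t ≤ 1 / 10 ∧ t ≤ η / 20 :=
    ⟨min (1 / 10) (η / 20), lt_min (by norm_num) (by linarith), min_le_left _ _, min_le_right _ _⟩
  refine ⟨t ^ 2 / 400, by positivity, ?_⟩
  intro ε hε0 hε1 F o' hF hin hout h2
  obtain ⟨s, hs⟩ : ∃ s : ℝ, s = ‖u‖ := ⟨_, rfl⟩
  have hs0 : 0 < s := by rw [hs]; exact norm_pos_iff.mpr hu
  have hsc : (s : ℂ) ≠ 0 := by exact_mod_cast hs0.ne'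
  obtain ⟨n, hn⟩ : ∃ n : ℂ, n = ((s⁻¹ : ℝ) : ℂ) * u := ⟨_, rfl⟩
  have hun : u = (s : ℂ) * n := by
    rw [hn, ofReal_inv]
    field_simp
  have hn1 : ‖n‖ = 1 := by
    rw [hn, norm_mul, Complex.norm_real, Real.norm_of_nonneg (by positivity), ← hs]
    field_simp
  have hnn := SqEdge_sq hn1
  have e1 := SqEdge_nn hnn
  have e2 := SqEdge_ii hnn
  have e3 := SqEdge_ni n
  have e4 := SqEdge_in n
  rw [← hs]
  -- the small quantities
  have hεt : ε / t ≤ t / 400 := by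
    rw [div_le_iff₀ ht0]
    calc ε ≤ t ^ 2 / 400 := hε1
      _ = t / 400 * t := by ring
  have hεt0 : 0 ≤ ε / t := by positivity
  have hεt1 : ε ≤ ε / t := by
    rw [le_div_iff₀ ht0]
    nlinarith
  have htε : t * ε ≤ ε := by nlinarith
  -- coordinates
  have hmem : ∀ x y : ℝ, 0 ≤ x → x ≤ 1 → 0 ≤ y → y ≤ 1 → o + (x : ℂ) * u + (y : ℂ) * (I * u) ∈ F :=
    fun x y h1 h3 h4 h5 => hin ⟨x, y, h1, h3, h4, h5, rfl⟩
  have m00 : o ∈ F := by
    have := hmem 0 0 le_rfl zero_le_one le_rfl zero_le_one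
    simpa using this
  have m10 : o + u ∈ F := by
    have := hmem 1 0 zero_le_one le_rfl le_rfl zero_le_one
    simpa using this
  have m01 : o + I * u ∈ F := by
    have := hmem 0 1 le_rfl zero_le_one zero_le_one le_rfl
    simpa using this
  have m11 : o + u + I * u ∈ F := by
    have := hmem 1 1 zero_le_one le_rfl zero_le_one le_rfl
    simpa using this
  have hP : ∀ z, ∀ x y : ℝ, z = o' + (x : ℂ) * (((1 + ε : ℝ) : ℂ) * u) +
      (y : ℂ) * (((1 + ε : ℝ) : ℂ) * (I * u)) →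
      ip z n = ip o' n + x * ((1 + ε) * s) ∧ ip z (I * n) = ip o' (I * n) + y * ((1 + ε) * s) := by
    intro z x y hz
    have hIu : I * u = (s : ℂ) * (I * n) := by rw [hun]; ring
    rw [hIu, hun] at hz
    rw [hz]
    constructor
    · rw [SqEdge_ip_add, SqEdge_ip_add, SqEdge_ip_smul, SqEdge_ip_smul, SqEdge_ip_smul,
        SqEdge_ip_smul, SqEdge_ip_smul, SqEdge_ip_smul, e1, e4]
      ring
    · rw [SqEdge_ip_add, SqEdge_ip_add, SqEdge_ip_smul, SqEdge_ip_smul, SqEdge_ip_smul,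
        SqEdge_ip_smul, SqEdge_ip_smul, SqEdge_ip_smul, e2, e3]
      ring
  have hu1 : ip (o + u) n = ip o n + s ∧ ip (o + u) (I * n) = ip o (I * n) := by
    rw [hun]
    constructor
    · rw [SqEdge_ip_add, SqEdge_ip_smul, e1]
      ring
    · rw [SqEdge_ip_add, SqEdge_ip_smul, e3]
      ring
  have hu2 : ip (o + I * u) n = ip o n ∧ ip (o + I * u) (I * n) = ip o (I * n) + s := by
    have hIu : I * u = (s : ℂ) * (I * n) := by rw [hun]; ring
    rw [hIu]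
    constructor
    · rw [SqEdge_ip_add, SqEdge_ip_smul, e4]
      ring
    · rw [SqEdge_ip_add, SqEdge_ip_smul, e2]
      ring
  have hu3 : ip (o + u + I * u) n = ip o n + s ∧ ip (o + u + I * u) (I * n) = ip o (I * n) + s := by
    have hIu : I * u = (s : ℂ) * (I * n) := by rw [hun]; ring
    rw [hIu]
    constructor
    · rw [SqEdge_ip_add, hu1.1, SqEdge_ip_smul, e4]
      ring
    · rw [SqEdge_ip_add, hu1.2, SqEdge_ip_smul, e2, mul_one]
  have hKs : 0 < (1 + ε) * s := by positivity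
  have ho' : (ip o' n ≤ ip o n ∧ ip o n - ε * s ≤ ip o' n) ∧
      (ip o' (I * n) ≤ ip o (I * n) ∧ ip o (I * n) - ε * s ≤ ip o' (I * n)) := by
    obtain ⟨x, y, x0, x1, y0, y1, hz⟩ := hout m00
    obtain ⟨a1, a2⟩ := hP _ x y hz
    obtain ⟨x', y', x0', x1', y0', y1', hz'⟩ := hout m11
    obtain ⟨b1, b2⟩ := hP _ x' y' hz'
    rw [hu3.1] at b1
    rw [hu3.2] at b2
    have c1 : 0 ≤ x * ((1 + ε) * s) := by positivity
    have c2 : 0 ≤ y * ((1 + ε) * s) := by positivity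
    have c3 : x' * ((1 + ε) * s) ≤ 1 * ((1 + ε) * s) := mul_le_mul_of_nonneg_right x1' hKs.le
    have c4 : y' * ((1 + ε) * s) ≤ 1 * ((1 + ε) * s) := mul_le_mul_of_nonneg_right y1' hKs.le
    refine ⟨⟨by linarith, by linarith⟩, ⟨by linarith, by linarith⟩⟩
  have hcoord : ∀ z ∈ F, (ip o n - ε * s ≤ ip z n ∧ ip z n ≤ ip o n + (1 + ε) * s) ∧
      (ip o (I * n) - ε * s ≤ ip z (I * n) ∧ ip z (I * n) ≤ ip o (I * n) + (1 + ε) * s) := by
    intro z hz
    obtain ⟨x, y, x0, x1, y0, y1, hz'⟩ := hout hz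
    obtain ⟨a1, a2⟩ := hP _ x y hz'
    have c1 : 0 ≤ x * ((1 + ε) * s) := by positivity
    have c2 : 0 ≤ y * ((1 + ε) * s) := by positivity
    have c3 : x * ((1 + ε) * s) ≤ 1 * ((1 + ε) * s) := mul_le_mul_of_nonneg_right x1 hKs.le
    have c4 : y * ((1 + ε) * s) ≤ 1 * ((1 + ε) * s) := mul_le_mul_of_nonneg_right y1 hKs.le
    obtain ⟨⟨d1, d2⟩, d3, d4⟩ := ho'
    refine ⟨⟨by linarith, by linarith⟩, ⟨by linarith, by linarith⟩⟩
  have hd : ∀ z : ℂ, ip z (n + t * (I * n)) = ip z n + t * ip z (I * n) := by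
    intro z
    rw [SqEdge_ip_addr, SqEdge_ip_smulr]
  have hmax : ∀ p ∈ F, (∀ x ∈ F, ip x (n + t * (I * n)) ≤ ip p (n + t * (I * n))) →
      ip o n + s - t * (ε * s) ≤ ip p n ∧ ip o (I * n) + s - ε / t * s ≤ ip p (I * n) := by
    intro p hp hx
    have h3 := hx _ m11
    rw [hd, hd, hu3.1, hu3.2] at h3
    obtain ⟨⟨d1, d2⟩, d3, d4⟩ := hcoord p hp
    constructor
    · have := mul_le_mul_of_nonneg_left d4 ht0.le
      linarith
    · have h4 : t * (ip o (I * n) + s - ε / t * s) ≤ t * ip p (I * n) := by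
        have h5 : t * (ε / t * s) = ε * s := by field_simp
        have h6 : t * (ip o (I * n) + s - ε / t * s) =
          t * (ip o (I * n) + s) - t * (ε / t * s) := by ring
        rw [h6, h5]
        linarith
      exact le_of_mul_le_mul_left h4 ht0
  have hmin : ∀ q ∈ F, (∀ x ∈ F, ip q (n + t * (I * n)) ≤ ip x (n + t * (I * n))) →
      ip q n ≤ ip o n + t * (ε * s) ∧ ip q (I * n) ≤ ip o (I * n) + ε / t * s := by
    intro q hq hx
    have h3 := hx _ m00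
    rw [hd, hd] at h3
    obtain ⟨⟨d1, d2⟩, d3, d4⟩ := hcoord q hq
    constructor
    · have := mul_le_mul_of_nonneg_left d3 ht0.le
      linarith
    · have h4 : t * ip q (I * n) ≤ t * (ip o (I * n) + ε / t * s) := by
        have h5 : t * (ε / t * s) = ε * s := by field_simp
        have h6 : t * (ip o (I * n) + ε / t * s) =
          t * ip o (I * n) + t * (ε / t * s) := by ring
        rw [h6, h5]
        linarith
      exact le_of_mul_le_mul_left h4 ht0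
  have hεts : ε / t * s ≤ t / 400 * s := mul_le_mul_of_nonneg_right hεt hs0.le
  have hεs : ε * s ≤ ε / t * s := mul_le_mul_of_nonneg_right hεt1 hs0.le
  have hεs0 : 0 ≤ ε * s := by positivity
  have htεs : t * (ε * s) ≤ ε * s := by nlinarith
  have hts : 0 < t * s := by positivity
  have hyF : o + u + I * u - (s : ℂ) * (I * n) = o + u := by
    rw [hun]
    ring
  have hyF' : o + u + I * u - ((0 : ℝ) : ℂ) * (I * n) - (s : ℂ) * n = o + I * u := by
    rw [hun]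
    push_cast
    ring
  have hIn : ‖I * n‖ = 1 := by rw [norm_mul, norm_I, hn1, one_mul]
  obtain ⟨p, f, hseg, hp1, hp2, hp3⟩ := edge hF h2 (y := o + u + I * u) (n := n) (s := s) (t := t)
    (δ := 4 * (ε / t * s)) (b := s * (1 - 2 * t)) (h := s) hn1 hs0 ht0 ht1 (by positivity)
    (by linarith) (mul_pos hs0 (by linarith)) (by linarith)
    (by rw [hyF]; exact m10)
    ⟨0, le_rfl, by positivity, by rw [hyF']; exact m01⟩
    (by
      intro p hp hx
      obtain ⟨g1, g2⟩ := hmax p hp hx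
      obtain ⟨⟨d1, d2⟩, d3, d4⟩ := hcoord p hp
      have h3 : |ip (p - (o + u + I * u)) n| ≤ ε / t * s := by
        rw [SqEdge_ip_sub, hu3.1, abs_le]
        constructor
        · linarith
        · linarith
      have h4 : |ip (p - (o + u + I * u)) (I * n)| ≤ ε / t * s := by
        rw [SqEdge_ip_sub, hu3.2, abs_le]
        constructor
        · linarith
        · linarith
      refine (SqEdge_norm hn1 _ h3 h4).trans ?_
      have : 0 ≤ ε / t * s := by positivity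
      linarith)
    (by
      intro p hp hx q hq hy
      obtain ⟨g1, g2⟩ := hmax p hp hx
      obtain ⟨g3, g4⟩ := hmin q hq hy
      obtain ⟨⟨d1, d2⟩, d3, d4⟩ := hcoord p hp
      obtain ⟨⟨d1', d2'⟩, d3', d4'⟩ := hcoord q hq
      rw [SqEdge_ip_subr, SqEdge_ip_smulr, SqEdge_ip_sub, SqEdge_ip_sub]
      exact SqEdge_n4 ht0 ht1 hεts hεs hεs0 g2 g4 (by linarith) d1')
  -- the point `f` is in `F`
  have hcl : IsClosed F := hF.1.isClosed
  have hfr : frontier F ⊆ F := hcl.frontier_subset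
  have hpF : p ∈ F := hfr (hseg (left_mem_segment ℝ p f))
  have hfF : f ∈ F := hfr (hseg (right_mem_segment ℝ p f))
  obtain ⟨Λ, hΛ⟩ : ∃ Λ : ℝ, Λ = ‖f - p‖ := ⟨_, rfl⟩
  rw [← hΛ] at hp2 hp3
  have hΛ0 : 0 ≤ Λ := by rw [hΛ]; exact norm_nonneg _
  have hlow : (1 - 5 * t) * s ≤ Λ := by
    exact (SqEdge_n1 ht0 hs0).trans hp2
  have hup : Λ ≤ (1 + 4 * t) * s := by
    have h3 := SqEdge_abs (f - p + (Λ : ℂ) * (I * n)) (I * n) hIn
    have h4 := (abs_le.mp (h3.trans hp3)).2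
    rw [SqEdge_ip_add, SqEdge_ip_smul, e2, SqEdge_ip_sub, mul_one] at h4
    obtain ⟨⟨d1, d2⟩, d3, d4⟩ := hcoord p hpF
    obtain ⟨⟨d1', d2'⟩, d3', d4'⟩ := hcoord f hfF
    exact SqEdge_n2 ht0 ht1 hs0 (by linarith) (by linarith)
  refine ⟨f, p, ?_, ?_, ?_⟩
  · rw [segment_symm]
    exact hseg
  · have h3 : f - (o + u) = (p - (o + u + I * u)) + (f - p + (Λ : ℂ) * (I * n)) +
        ((s - Λ : ℝ) : ℂ) * (I * n) := by
      rw [hun]
      push_cast
      ring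
    rw [h3]
    refine (norm_add₃_le).trans ?_
    have h4 : ‖((s - Λ : ℝ) : ℂ) * (I * n)‖ ≤ 5 * t * s := by
      rw [norm_mul, hIn, mul_one, Complex.norm_real, Real.norm_eq_abs, abs_le]
      constructor
      · linarith
      · linarith
    have h5 : 2 * t * Λ ≤ 2 * t * ((1 + 4 * t) * s) :=
      mul_le_mul_of_nonneg_left hup (by linarith)
    have h6 := SqEdge_n3 ht0 ht1 hs0
    have h7 : 20 * t * s ≤ η * s := mul_le_mul_of_nonneg_right (by linarith) hs0.le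
    linarith
  · have h7 : 20 * t * s ≤ η * s := mul_le_mul_of_nonneg_right (by linarith) hs0.le
    linarith

end Pool.Agent.H50.CP
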