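import Pool.Agent.H50.CP.Near
import Pool.Agent.H50.CP.Sq
import Pool.Agent.H50.CP.TriS
import Pool.Agent.H50.CP.SqEdge
import Pool.Agent.H50.CP.TriEdge

set_option autoImplicit false

/-!
# Assembly
-/

namespace Pool.Agent.H50.CP

open Pool.Agent.H90.Clone Pool.Agent.H21.Tri Complex Set Pointwise MeasureTheory

/-- Two clones of `F` of the same ratio `> 1/2` can be packed in `F`. -/
def TwoFit (F : Set ℂ) : Prop := ∃ c : ℝ, 1 / 2 < c ∧ CanPack (fun _ : Fin 2 => c • F) F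

/-- The boundary of `F` contains a segment whose ends are within `r` of `x` and `y`. -/
def HasSide (F : Set ℂ) (x y : ℂ) (r : ℝ) : Prop :=
  ∃ a b : ℂ, segment ℝ a b ⊆ frontier F ∧ ‖a - x‖ ≤ r ∧ ‖b - y‖ ≤ r

/-- The boundary of `F` contains a segment of length at least `l` whose ends are within `r` of the
segment from `x` to `y`. -/
def HasPart (F : Set ℂ) (x y : ℂ) (l r : ℝ) : Prop :=
  ∃ a b : ℂ, segment ℝ a b ⊆ frontier F ∧ l ≤ ‖a - b‖ ∧
    (∃ z ∈ segment ℝ x y, ‖a - z‖ ≤ r) ∧ ∃ z ∈ segment ℝ x y, ‖b - z‖ ≤ r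

lemma HasSide.symm {F : Set ℂ} {x y : ℂ} {r : ℝ} (h : HasSide F x y r) : HasSide F y x r := by
  obtain ⟨a, b, h1, h2, h3⟩ := h
  exact ⟨b, a, by rwa [segment_symm], h3, h2⟩

lemma HasPart.symm {F : Set ℂ} {x y : ℂ} {l r : ℝ} (h : HasPart F x y l r) :
    HasPart F y x l r := by
  obtain ⟨a, b, h1, h2, h3, h4⟩ := h
  rw [segment_symm ℝ x y] at h3 h4
  exact ⟨a, b, h1, h2, h3, h4⟩

lemma interior_image_iso (g : ℂ ≃ᵢ ℂ) (A : Set ℂ) : interior (g '' A) = g '' interior A := by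
  have := (g.toHomeomorph).image_interior A
  simp only [IsometryEquiv.coe_toHomeomorph] at this
  exact this.symm

lemma convex_image_iso (g : ℂ ≃ᵢ ℂ) {A : Set ℂ} (hA : Convex ℝ A) : Convex ℝ (g '' A) := by
  rintro _ ⟨x, hx, rfl⟩ _ ⟨y, hy, rfl⟩ a b ha hb hab
  exact ⟨a • x + b • y, hA hx hy ha hb hab, isom_affine g a b hab x y⟩

lemma twoFit_iff {F : Set ℂ} (hF : IsConvexFigure F) : TwoFit F ↔ Two F := by
  constructor
  · rintro ⟨c, hc, g, h1, h2⟩
    have hc0 : 0 < c := by linarith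
    refine ⟨c, g 0 '' (c • F), g 1 '' (c • F), hc, ⟨g 0, rfl⟩, ⟨g 1, rfl⟩, h1 0, h1 1, ?_⟩
    have hi : ∀ i, (interior (g i '' (c • F))).Nonempty := by
      intro i
      rw [interior_image_iso, interior_smul₀ hc0.ne']
      exact (hF.2.2.smul_set (a := c)).image _
    exact sep_of_disjoint (convex_image_iso _ (hF.2.1.smul c)) (convex_image_iso _ (hF.2.1.smul c))
      (hi 0) (hi 1) (h2 0 1 (by decide))
  · rintro ⟨l, A, B, hl, ⟨g, rfl⟩, ⟨g', rfl⟩, hA, hB, hs⟩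
    refine ⟨l, hl, ![g, g'], ?_, ?_⟩
    · intro i
      fin_cases i
      · exact hA
      · exact hB
    · intro i j hij
      have hd := hs.disjoint
      fin_cases i <;> fin_cases j
      · exact absurd rfl hij
      · exact hd
      · exact hd.symm
      · exact absurd rfl hij

lemma fig_translate {F : Set ℂ} (hF : IsConvexFigure F) (a : ℂ) :
    IsConvexFigure ((fun z => z + a) '' F) := by
  have e : (fun z : ℂ => z + a) '' F = (IsometryEquiv.addRight a) '' F := rfl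
  rw [e]
  refine ⟨hF.1.image (IsometryEquiv.addRight a).continuous, convex_image_iso _ hF.2.1, ?_⟩
  rw [interior_image_iso]
  exact hF.2.2.image _

lemma image_translate_back (F : Set ℂ) (a : ℂ) :
    (fun z => z + a) '' ((fun z => z + -a) '' F) = F := by
  rw [image_image]
  simp

lemma adm_translate_iff (F : Set ℂ) (σ : ℝ) (a : ℂ) :
    Admissible ((fun z => z + a) '' F) σ ↔ Admissible F σ := by
  refine ⟨adm_translate a, fun h => ?_⟩
  apply adm_translate (-a)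
  rw [image_image]
  simpa using h

lemma two_translate_iff (F : Set ℂ) (a : ℂ) : Two ((fun z => z + a) '' F) ↔ Two F := by
  refine ⟨fun h => ?_, fun h => h.translate a⟩
  have := h.translate (-a)
  rw [image_image] at this
  simpa using this

/-- `near_adm` with a translation -/
lemma near_adm' {u v : ℂ} {T : Set ℂ} (S : Shape u v T) : ∃ ε₀ : ℝ, 0 < ε₀ ∧
    ∀ ε : ℝ, 0 ≤ ε → ε ≤ ε₀ → ∀ (F : Set ℂ) (o o' : ℂ), IsConvexFigure F →
      (fun z => z + o) '' T ⊆ F → F ⊆ hom o' ε T →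
      Admissible F 2 ∧ ((∃ σ : ℝ, σ < 2 ∧ Admissible F σ) ↔ Two F) := by
  obtain ⟨ε₀, h0, H⟩ := near_adm S
  refine ⟨ε₀, h0, fun ε hε hε' F o o' hF hTF hFT => ?_⟩
  have h1 : T ⊆ (fun z => z + -o) '' F := by
    intro z hz
    exact ⟨z + o, hTF ⟨z, hz, rfl⟩, by simp⟩
  have h2 : (fun z => z + -o) '' F ⊆ hom (o' + -o) ε T := by
    rintro _ ⟨z, hz, rfl⟩
    obtain ⟨t, ht, rfl⟩ := hFT hz
    exact ⟨t, ht, by simp only []; ring⟩
  have := H ε hε hε' _ _ (fig_translate hF (-o)) h1 h2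
  simpa only [adm_translate_iff, two_translate_iff] using this

lemma par_translate (o u v : ℂ) : Par o u v = (fun z => z + o) '' Par 0 u v := by
  ext z
  constructor
  · rintro ⟨x, y, h1, h2, h3, h4, rfl⟩
    exact ⟨0 + x * u + y * v, ⟨x, y, h1, h2, h3, h4, rfl⟩, by ring⟩
  · rintro ⟨_, ⟨x, y, h1, h2, h3, h4, rfl⟩, rfl⟩
    exact ⟨x, y, h1, h2, h3, h4, by ring⟩

lemma par_hom (o' u v : ℂ) (ε : ℝ) :
    Par o' (((1 + ε : ℝ) : ℂ) * u) (((1 + ε : ℝ) : ℂ) * v) = hom o' ε (Par 0 u v) := by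
  ext z
  constructor
  · rintro ⟨x, y, h1, h2, h3, h4, rfl⟩
    exact ⟨0 + x * u + y * v, ⟨x, y, h1, h2, h3, h4, rfl⟩, by simp only []; ring⟩
  · rintro ⟨_, ⟨x, y, h1, h2, h3, h4, rfl⟩, rfl⟩
    exact ⟨x, y, h1, h2, h3, h4, by simp only []; ring⟩

lemma tri_hom (o' u v : ℂ) (ε : ℝ) :
    Tri o' (((1 + ε : ℝ) : ℂ) * u) (((1 + ε : ℝ) : ℂ) * v) = hom o' ε (Tri 0 u v) := by
  ext z
  constructor
  · rintro ⟨x, y, h1, h2, h3, rfl⟩
    exact ⟨0 + x * u + y * v, ⟨x, y, h1, h2, h3, rfl⟩, by simp only []; ring⟩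
  · rintro ⟨_, ⟨x, y, h1, h2, h3, rfl⟩, rfl⟩
    exact ⟨x, y, h1, h2, h3, by simp only []; ring⟩

lemma par_swap (o u v : ℂ) : Par o v u = Par o u v := by
  ext z
  constructor
  · rintro ⟨x, y, h1, h2, h3, h4, rfl⟩
    exact ⟨y, x, h3, h4, h1, h2, by ring⟩
  · rintro ⟨x, y, h1, h2, h3, h4, rfl⟩
    exact ⟨y, x, h3, h4, h1, h2, by ring⟩

lemma par_turn (o u v : ℂ) : Par (o + u) v (-u) = Par o u v := by
  ext z
  constructor
  · rintro ⟨x, y, h1, h2, h3, h4, rfl⟩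
    refine ⟨1 - y, x, by linarith, by linarith, h1, h2, ?_⟩
    push_cast
    ring
  · rintro ⟨x, y, h1, h2, h3, h4, rfl⟩
    refine ⟨y, 1 - x, h3, h4, by linarith, by linarith, ?_⟩
    push_cast
    ring

lemma par_turn2 (o u v : ℂ) : Par (o + u + v) (-u) (-v) = Par o u v := by
  rw [par_turn, par_turn]

lemma par_turn3 (o u v : ℂ) : Par (o + v) (-v) u = Par o u v := by
  ext z
  constructor
  · rintro ⟨x, y, h1, h2, h3, h4, rfl⟩
    refine ⟨y, 1 - x, h3, h4, by linarith, by linarith, ?_⟩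
    push_cast
    ring
  · rintro ⟨x, y, h1, h2, h3, h4, rfl⟩
    refine ⟨1 - y, x, by linarith, by linarith, h1, h2, ?_⟩
    push_cast
    ring

lemma tri_turn (o u v : ℂ) : Tri (o + u) (v - u) (-u) = Tri o u v := by
  ext z
  constructor
  · rintro ⟨x, y, h1, h2, h3, rfl⟩
    refine ⟨1 - x - y, x, by linarith, h1, by linarith, ?_⟩
    push_cast
    ring
  · rintro ⟨x, y, h1, h2, h3, rfl⟩
    refine ⟨y, 1 - x - y, h2, by linarith, by linarith, ?_⟩
    push_cast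
    ring

lemma om_sq : om * om = om - 1 := by
  have h3 : Real.sqrt 3 * Real.sqrt 3 = 3 := Real.mul_self_sqrt (by norm_num)
  apply Complex.ext
  · simp [om]
    nlinarith
  · simp [om]
    ring

/-- all four sides of a positively oriented square -/
lemma sq_edges (o u : ℂ) (hu : u ≠ 0) {η : ℝ} (hη : 0 < η) : ∃ ε₀ : ℝ, 0 < ε₀ ∧
    ∀ ε : ℝ, 0 ≤ ε → ε ≤ ε₀ → ∀ (F : Set ℂ) (o' : ℂ), IsConvexFigure F → Par o u (I * u) ⊆ F →
      F ⊆ Par o' (((1 + ε : ℝ) : ℂ) * u) (((1 + ε : ℝ) : ℂ) * (I * u)) → ¬ Two F →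
      HasSide F o (o + u) (η * ‖u‖) ∧ HasSide F (o + u) (o + u + I * u) (η * ‖u‖) ∧
      HasSide F (o + I * u) (o + u + I * u) (η * ‖u‖) ∧ HasSide F o (o + I * u) (η * ‖u‖) := by
  have hI : I * (I * u) = -u := by linear_combination u * Complex.I_mul_I
  have hI2 : I * -u = -(I * u) := by ring
  have hI3 : I * -(I * u) = u := by linear_combination (-u) * Complex.I_mul_I
  have hn1 : ‖I * u‖ = ‖u‖ := by rw [norm_mul, Complex.norm_I, one_mul]
  obtain ⟨e1, p1, H1⟩ := sq_edge o u hu hη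
  obtain ⟨e2, p2, H2⟩ := sq_edge (o + u) (I * u) (by simpa using hu) hη
  obtain ⟨e3, p3, H3⟩ := sq_edge (o + u + I * u) (-u) (by simpa using hu) hη
  obtain ⟨e4, p4, H4⟩ := sq_edge (o + I * u) (-(I * u)) (by simpa using hu) hη
  refine ⟨min (min e1 e2) (min e3 e4), by positivity, ?_⟩
  intro ε hε hεm F o' hF hin hout h2
  have m1 : ε ≤ e1 := hεm.trans ((min_le_left _ _).trans (min_le_left _ _))
  have m2 : ε ≤ e2 := hεm.trans ((min_le_left _ _).trans (min_le_right _ _))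
  have m3 : ε ≤ e3 := hεm.trans ((min_le_right _ _).trans (min_le_left _ _))
  have m4 : ε ≤ e4 := hεm.trans ((min_le_right _ _).trans (min_le_right _ _))
  set K : ℂ := ((1 + ε : ℝ) : ℂ) with hK
  have r1 := H1 ε hε m1 F o' hF hin hout h2
  have r2 := H2 ε hε m2 F (o' + K * u) hF (by rw [hI, par_turn]; exact hin)
    (by
      rw [hI, mul_neg, par_turn]
      exact hout) h2
  have r3 := H3 ε hε m3 F (o' + K * u + K * (I * u)) hF
    (by rw [hI2, par_turn2]; exact hin)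
    (by
      rw [hI2, mul_neg, mul_neg, par_turn2]
      exact hout) h2
  have r4 := H4 ε hε m4 F (o' + K * (I * u)) hF
    (by
      rw [hI3, par_turn3]
      exact hin)
    (by
      rw [hI3, mul_neg, par_turn3]
      exact hout) h2
  rw [norm_neg, hn1, hI3] at r4
  rw [norm_neg, hI2] at r3
  rw [hn1, hI] at r2
  obtain ⟨a1, b1, s1, x1, y1⟩ := r1
  obtain ⟨a2, b2, s2, x2, y2⟩ := r2
  obtain ⟨a3, b3, s3, x3, y3⟩ := r3
  obtain ⟨a4, b4, s4, x4, y4⟩ := r4
  refine ⟨⟨a4, b4, s4, ?_, ?_⟩, ⟨a1, b1, s1, x1, y1⟩, HasSide.symm ⟨a2, b2, s2, x2, ?_⟩,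
    HasSide.symm ⟨a3, b3, s3, ?_, ?_⟩⟩
  · have e : o + I * u + -(I * u) = o := by ring
    rwa [e] at x4
  · have e : o + I * u + -(I * u) + u = o + u := by ring
    rwa [e] at y4
  · have e : o + u + I * u + -u = o + I * u := by ring
    rwa [e] at y2
  · have e : o + u + I * u + -u = o + I * u := by ring
    rwa [e] at x3
  · have e : o + u + I * u + -u + -(I * u) = o := by ring
    rwa [e] at y3

lemma om_norm : ‖om‖ = 1 := by
  have h3 : Real.sqrt 3 * Real.sqrt 3 = 3 := Real.mul_self_sqrt (by norm_num)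
  have h : ‖om‖ ^ 2 = 1 := by
    rw [Complex.sq_norm, Complex.normSq_apply]
    simp only [om]
    nlinarith
  nlinarith [norm_nonneg om]

/-- all three sides of a positively oriented equilateral triangle -/
lemma tri_edges (o u : ℂ) (hu : u ≠ 0) {η : ℝ} (hη : 0 < η) : ∃ ε₀ : ℝ, 0 < ε₀ ∧
    ∀ ε : ℝ, 0 ≤ ε → ε ≤ ε₀ → ∀ (F : Set ℂ) (o' : ℂ), IsConvexFigure F → Tri o u (om * u) ⊆ F →
      F ⊆ Tri o' (((1 + ε : ℝ) : ℂ) * u) (((1 + ε : ℝ) : ℂ) * (om * u)) → ¬ Two F →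
      HasPart F o (o + u) ((1 / 2 - η) * ‖u‖) (η * ‖u‖) ∧
      HasPart F (o + u) (o + om * u) ((1 / 2 - η) * ‖u‖) (η * ‖u‖) ∧
      HasPart F o (o + om * u) ((1 / 2 - η) * ‖u‖) (η * ‖u‖) := by
  have h1 : om * (om * u - u) = -u := by linear_combination u * om_sq
  have h2' : om * -(om * u) = u - om * u := by linear_combination (-u) * om_sq
  have hn1 : ‖om * u - u‖ = ‖u‖ := by
    have e : om * u - u = om * (om * u) := by linear_combination (-u) * om_sq
    rw [e, norm_mul, norm_mul, om_norm, one_mul, one_mul]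
  have hn2 : ‖-(om * u)‖ = ‖u‖ := by rw [norm_neg, norm_mul, om_norm, one_mul]
  have hu1 : om * u - u ≠ 0 := by
    rw [← norm_pos_iff, hn1]
    exact norm_pos_iff.mpr hu
  have hu2 : -(om * u) ≠ 0 := by
    rw [← norm_pos_iff, hn2]
    exact norm_pos_iff.mpr hu
  obtain ⟨e1, p1, H1⟩ := tri_edge o u hu hη
  obtain ⟨e2, p2, H2⟩ := tri_edge (o + u) (om * u - u) hu1 hη
  obtain ⟨e3, p3, H3⟩ := tri_edge (o + om * u) (-(om * u)) hu2 hη
  refine ⟨min e1 (min e2 e3), by positivity, ?_⟩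
  intro ε hε hεm F o' hF hin hout h2
  have m1 : ε ≤ e1 := hεm.trans (min_le_left _ _)
  have m2 : ε ≤ e2 := hεm.trans ((min_le_right _ _).trans (min_le_left _ _))
  have m3 : ε ≤ e3 := hεm.trans ((min_le_right _ _).trans (min_le_right _ _))
  set K : ℂ := ((1 + ε : ℝ) : ℂ) with hK
  have turn2 : ∀ a b c : ℂ, Tri (a + c) (-c) (b - c) = Tri a b c := by
    intro a b c
    ext z
    constructor
    · rintro ⟨x, y, h1, h2, h3, rfl⟩
      refine ⟨y, 1 - x - y, h2, by linarith, by linarith, ?_⟩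
      push_cast
      ring
    · rintro ⟨x, y, h1, h2, h3, rfl⟩
      refine ⟨1 - x - y, x, by linarith, h1, by linarith, ?_⟩
      push_cast
      ring
  have r1 := H1 ε hε m1 F o' hF hin hout h2
  have r2 := H2 ε hε m2 F (o' + K * u) hF (by rw [h1, tri_turn]; exact hin)
    (by
      rw [h1, mul_neg, mul_sub, tri_turn]
      exact hout) h2
  have r3 := H3 ε hε m3 F (o' + K * (om * u)) hF (by rw [h2', turn2]; exact hin)
    (by
      rw [h2', mul_neg, mul_sub, turn2]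
      exact hout) h2
  rw [hn1] at r2
  rw [hn2] at r3
  have e1 : o + u + (om * u - u) = o + om * u := by ring
  have e2 : o + om * u + -(om * u) = o := by ring
  rw [e1] at r2
  rw [e2] at r3
  exact ⟨r1, r2, HasPart.symm r3⟩

lemma eq_I_of_orth {u v : ℂ} (hu : u ≠ 0) (h1 : ‖u‖ = ‖v‖) (h2 : ip u v = 0) :
    v = I * u ∨ u = I * v := by
  have hn : ‖u‖ ^ 2 = u.re ^ 2 + u.im ^ 2 := by rw [Complex.sq_norm, Complex.normSq_apply]; ring
  have hn' : ‖v‖ ^ 2 = v.re ^ 2 + v.im ^ 2 := by rw [Complex.sq_norm, Complex.normSq_apply]; ring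
  have hpos : 0 < ‖u‖ ^ 2 := by
    have := norm_pos_iff.mpr hu
    positivity
  rw [← h1] at hn'
  unfold ip at h2
  -- the determinant is plus or minus the square of the norm
  have hd : (u.re * v.im - u.im * v.re) ^ 2 = (‖u‖ ^ 2) ^ 2 := by
    have : (u.re * v.im - u.im * v.re) ^ 2 =
        (u.re ^ 2 + u.im ^ 2) * (v.re ^ 2 + v.im ^ 2) - (u.re * v.re + u.im * v.im) ^ 2 := by ring
    rw [this, h2, ← hn, ← hn']
    ring
  rcases sq_eq_sq_iff_eq_or_eq_neg.mp hd with h | h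
  · left
    have e1 : (v.re + u.im) ^ 2 + (v.im - u.re) ^ 2 = 0 := by nlinarith
    have e2 : v.re + u.im = 0 := by nlinarith [sq_nonneg (v.re + u.im), sq_nonneg (v.im - u.re)]
    have e3 : v.im - u.re = 0 := by nlinarith [sq_nonneg (v.re + u.im), sq_nonneg (v.im - u.re)]
    apply Complex.ext
    · simp; linarith
    · simp; linarith
  · right
    have e1 : (u.re + v.im) ^ 2 + (u.im - v.re) ^ 2 = 0 := by nlinarith
    have e2 : u.re + v.im = 0 := by nlinarith [sq_nonneg (u.re + v.im), sq_nonneg (u.im - v.re)]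
    have e3 : u.im - v.re = 0 := by nlinarith [sq_nonneg (u.re + v.im), sq_nonneg (u.im - v.re)]
    apply Complex.ext
    · simp; linarith
    · simp; linarith

lemma eq_om {u v : ℂ} (hu : u ≠ 0) (h1 : ‖u‖ = ‖v‖) (h2 : ‖u - v‖ = ‖u‖) :
    v = om * u ∨ u = om * v := by
  have hn : ‖u‖ ^ 2 = u.re ^ 2 + u.im ^ 2 := by rw [Complex.sq_norm, Complex.normSq_apply]; ring
  have hn' : ‖v‖ ^ 2 = v.re ^ 2 + v.im ^ 2 := by rw [Complex.sq_norm, Complex.normSq_apply]; ring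
  have hn2 : ‖u - v‖ ^ 2 = (u.re - v.re) ^ 2 + (u.im - v.im) ^ 2 := by
    rw [Complex.sq_norm, Complex.normSq_apply, sub_re, sub_im]; ring
  have h3 : Real.sqrt 3 * Real.sqrt 3 = 3 := Real.mul_self_sqrt (by norm_num)
  have hpos : 0 < ‖u‖ ^ 2 := by
    have := norm_pos_iff.mpr hu
    positivity
  rw [← h1] at hn'
  rw [h2] at hn2
  have hdot : u.re * v.re + u.im * v.im = ‖u‖ ^ 2 / 2 := by nlinarith
  have hd : (u.re * v.im - u.im * v.re) ^ 2 = (Real.sqrt 3 / 2 * ‖u‖ ^ 2) ^ 2 := by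
    have : (u.re * v.im - u.im * v.re) ^ 2 =
        (u.re ^ 2 + u.im ^ 2) * (v.re ^ 2 + v.im ^ 2) - (u.re * v.re + u.im * v.im) ^ 2 := by ring
    rw [this, hdot, ← hn, ← hn']
    linear_combination (-(‖u‖ ^ 2) ^ 2 / 4) * h3
  rcases sq_eq_sq_iff_eq_or_eq_neg.mp hd with h | h
  · left
    have hmul : ‖u‖ ^ 2 ≠ 0 := hpos.ne'
    apply Complex.ext
    · simp only [om, mul_re]
      have : (u.re ^ 2 + u.im ^ 2) * v.re =
          (u.re ^ 2 + u.im ^ 2) * (1 / 2 * u.re - Real.sqrt 3 / 2 * u.im) := by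
        linear_combination u.re * hdot - u.im * h + (u.re / 2 - Real.sqrt 3 / 2 * u.im) * hn
      rw [← hn] at this
      exact mul_left_cancel₀ hmul this
    · simp only [om, mul_im]
      have : (u.re ^ 2 + u.im ^ 2) * v.im =
          (u.re ^ 2 + u.im ^ 2) * (1 / 2 * u.im + Real.sqrt 3 / 2 * u.re) := by
        linear_combination u.im * hdot + u.re * h + (u.im / 2 + Real.sqrt 3 / 2 * u.re) * hn
      rw [← hn] at this
      exact mul_left_cancel₀ hmul this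
  · right
    have hmul : ‖u‖ ^ 2 ≠ 0 := hpos.ne'
    apply Complex.ext
    · simp only [om, mul_re]
      have : (v.re ^ 2 + v.im ^ 2) * u.re =
          (v.re ^ 2 + v.im ^ 2) * (1 / 2 * v.re - Real.sqrt 3 / 2 * v.im) := by
        linear_combination v.re * hdot + v.im * h + (v.re / 2 - Real.sqrt 3 / 2 * v.im) * hn'
      rw [← hn'] at this
      exact mul_left_cancel₀ hmul this
    · simp only [om, mul_im]
      have : (v.re ^ 2 + v.im ^ 2) * u.im =
          (v.re ^ 2 + v.im ^ 2) * (1 / 2 * v.im + Real.sqrt 3 / 2 * v.re) := by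
        linear_combination v.im * hdot - v.re * h + (v.im / 2 + Real.sqrt 3 / 2 * v.re) * hn'
      rw [← hn'] at this
      exact mul_left_cancel₀ hmul this

lemma least_iff {F : Set ℂ} (hF : IsConvexFigure F)
    (h : Admissible F 2 ∧ ((∃ σ : ℝ, σ < 2 ∧ Admissible F σ) ↔ Two F)) :
    Admissible F 2 ∧ (IsLeast {S : ℝ | Admissible F S} 2 ↔ ¬ TwoFit F) := by
  refine ⟨h.1, ?_⟩
  rw [twoFit_iff hF, ← h.2]
  constructor
  · rintro ⟨-, hl⟩ ⟨σ, h1, h2⟩
    have := hl h2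
    linarith
  · intro hn
    refine ⟨h.1, fun σ hσ => ?_⟩
    by_contra hc
    push Not at hc
    exact hn ⟨σ, hc, hσ⟩

end Pool.Agent.H50.CP
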