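import Pool.Agent.H50.CP.Edge

set_option autoImplicit false

/-!
# Vertices of a figure in which two large clones do not fit
-/

namespace Pool.Agent.H50.CP

open Pool.Agent.H90.Clone Pool.Agent.H21.Tri Complex Set Pointwise MeasureTheory

/-- `F` has a point `p` within `r` of `y` with two supporting lines, whose outer normal vectors are
within `r` of `a` and `b`. -/
def HasVertex (F : Set ℂ) (y a b : ℂ) (r : ℝ) : Prop :=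
  ∃ p ∈ F, ‖p - y‖ ≤ r ∧ ∃ a' b' : ℂ, ‖a' - a‖ ≤ r ∧ ‖b' - b‖ ≤ r ∧
    (∀ x ∈ F, ip x a' ≤ ip p a') ∧ ∀ x ∈ F, ip x b' ≤ ip p b'

lemma HasVertex.symm {F : Set ℂ} {y a b : ℂ} {r : ℝ} (h : HasVertex F y a b r) :
    HasVertex F y b a r := by
  obtain ⟨p, hp, h1, a', b', h2, h3, h4, h5⟩ := h
  exact ⟨p, hp, h1, b', a', h3, h2, h5, h4⟩

lemma corner_num {vn ve Λ κ ρ δ wn : ℝ} (h1 : vn ^ 2 + ve ^ 2 = 1) (hκ : 0 < κ) (hρ0 : 0 ≤ ρ)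
    (hρ : ρ ≤ 1 / 2) (hδ : 2 * δ ≤ ρ * κ) (h2 : 4 / 5 * κ ≤ Λ) (h3 : wn = Λ * ve) (h4 : wn ≤ δ)
    (h5 : -ρ ≤ ve) (h6 : ve ≤ ρ → -ρ ≤ vn) : (vn - 1) ^ 2 + ve ^ 2 ≤ (2 * ρ) ^ 2 := by
  have hΛ : 0 < Λ := by linarith
  have h7 : ve ≤ ρ := by
    by_contra hc
    push Not at hc
    have a1 : 4 / 5 * κ * ρ ≤ Λ * ve := by
      calc 4 / 5 * κ * ρ ≤ Λ * ρ := mul_le_mul_of_nonneg_right h2 hρ0
        _ ≤ Λ * ve := mul_le_mul_of_nonneg_left hc.le hΛ.le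
    have a2 : 0 ≤ κ * ρ := mul_nonneg hκ.le hρ0
    have a3 : 4 / 5 * (κ * ρ) ≤ 1 / 2 * (κ * ρ) := by linarith
    have a4 : κ * ρ = 0 := by linarith
    have a5 : ρ = 0 := by
      rcases mul_eq_zero.mp a4 with h | h
      · exact absurd h hκ.ne'
      · exact h
    rw [a5] at hc hδ
    have : 0 < Λ * ve := mul_pos hΛ hc
    linarith
  replace h6 := h6 h7
  have h8 : ve ^ 2 ≤ ρ ^ 2 := by
    have := abs_le.mpr ⟨h5, h7⟩
    calc ve ^ 2 = |ve| ^ 2 := (sq_abs ve).symm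
      _ ≤ ρ ^ 2 := pow_le_pow_left₀ (abs_nonneg _) this 2
  have h9 : ρ ^ 2 ≤ 1 / 4 := by nlinarith
  have h10 : 0 < vn := by
    by_contra hc
    push Not at hc
    have : vn ^ 2 ≤ 1 / 4 := by nlinarith
    linarith
  have h11 : vn ≤ 1 := by nlinarith [sq_nonneg ve]
  have h12 : vn ^ 2 ≤ vn := by nlinarith
  nlinarith

/-- the main lemma: `c = κ m` in `rot_gain` -/
theorem corner_abs {F : Set ℂ} (hF : IsConvexFigure F) (h2 : ¬ Two F) {n d m : ℂ} {κ δ ρ : ℝ}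
    (hn : ‖n‖ = 1) (hd : d ≠ 0) (hκ : 0 < κ) (hρ0 : 0 ≤ ρ) (hρ : ρ ≤ 1 / 2) (hδ : 2 * δ ≤ ρ * κ)
    (h1 : ∀ p ∈ F, (∀ x ∈ F, ip x d ≤ ip p d) → ∀ q ∈ F, (∀ x ∈ F, ip q d ≤ ip x d) →
      κ * ip m d < ip (p - q) (I * d) / 2)
    (h3 : ∀ p ∈ F, (∀ x ∈ F, ip x d ≤ ip p d) → ∀ x ∈ F, ip (x - p) n ≤ δ)
    (h4 : ∀ p ∈ F, (∀ x ∈ F, ip x d ≤ ip p d) → ∀ v : ℂ, ‖v‖ = 1 →
      (∀ x ∈ F, ip x v ≤ ip p v) →
        2 / 5 ≤ ip m v ∧ -ρ ≤ ip v (I * n) ∧ (ip v (I * n) ≤ ρ → -ρ ≤ ip v n)) :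
    ∃ p ∈ F, (∀ x ∈ F, ip x d ≤ ip p d) ∧ ∃ v : ℂ, ‖v‖ = 1 ∧ ‖v - n‖ ≤ 2 * ρ ∧
      ∀ x ∈ F, ip x v ≤ ip p v := by
  obtain ⟨p, hp, hpmax⟩ := exists_max hF d
  obtain ⟨q0, hq0, hqmin⟩ := exists_min hF d
  have key : ∃ v : ℂ, ‖v‖ = 1 ∧ (∀ x ∈ F, ip x v ≤ ip p v) ∧ ∃ f ∈ F, ip f v = ip p v ∧
      ip ((κ : ℂ) * m) v ≤ ip (I * (f - p)) v / 2 := by
    by_contra hcon
    apply h2
    apply rot_gain hF hp hq0 hd hpmax hqmin (c := (κ : ℂ) * m)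
    · intro q hq hqe
      rw [ip_smul_left]
      exact h1 p hp hpmax q hq (fun x hx => by rw [hqe]; exact hqmin x hx)
    · intro v hv hvs f hf hfe
      by_contra hc
      push Not at hc
      exact hcon ⟨v, hv, hvs, f, hf, hfe, hc⟩
  obtain ⟨v, hv, hvs, f, hf, hfe, hle⟩ := key
  refine ⟨p, hp, hpmax, v, hv, ?_, hvs⟩
  obtain ⟨g1, g2, g3⟩ := h4 p hp hpmax v hv hvs
  have g4 := h3 p hp hpmax f hf
  rw [ip_smul_left] at hle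
  have hvsq := frame_sq hn v
  rw [hv] at hvsq
  have hv1 := ip_self_one hv
  set Λ : ℝ := ip (I * (f - p)) v with hΛ
  have hw0 : ip (f - p) v = 0 := by rw [ip_sub_left, hfe, sub_self]
  -- the vector `f - p` is `-Λ I v`
  have hw : ip (f - p) n = Λ * ip v (I * n) := by
    have e1 : (f - p).re = Λ * v.im := by
      simp only [hΛ, ip, mul_re, mul_im, I_re, I_im] at hw0 ⊢
      linear_combination (-(f - p).re) * hv1 + v.re * hw0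
    have e2 : (f - p).im = -(Λ * v.re) := by
      simp only [hΛ, ip, mul_re, mul_im, I_re, I_im] at hw0 ⊢
      linear_combination (-(f - p).im) * hv1 + v.im * hw0
    unfold ip at *
    rw [e1, e2]
    simp only [mul_re, mul_im, I_re, I_im]
    ring
  have hlow : 4 / 5 * κ ≤ Λ := by
    have : κ * (2 / 5) ≤ κ * ip m v := mul_le_mul_of_nonneg_left g1 hκ.le
    linarith
  have hfin := corner_num (vn := ip v n) (ve := ip v (I * n)) (Λ := Λ) (κ := κ) (ρ := ρ) (δ := δ)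
    (wn := ip (f - p) n) (by linarith) hκ hρ0 hρ hδ hlow hw g4 g2 g3
  have hsub := frame_sq hn (v - n)
  have e1 : ip (v - n) n = ip v n - 1 := by
    rw [ip_sub_left]
    have := ip_self_one hn
    have e : ip n n = 1 := by unfold ip; linarith
    rw [e]
  have e2 : ip (v - n) (I * n) = ip v (I * n) := by
    rw [ip_sub_left]
    have e : ip n (I * n) = 0 := by simp [ip]; ring
    rw [e, sub_zero]
  rw [e1, e2] at hsub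
  rw [hsub] at hfin
  exact le_of_sq_le_sq_aux hfin hρ0
  where
  le_of_sq_le_sq_aux {x ρ : ℝ} (h : x ^ 2 ≤ (2 * ρ) ^ 2) (hρ : 0 ≤ ρ) : x ≤ 2 * ρ :=
    le_of_sq_le_sq_nonneg h hρ
  le_of_sq_le_sq_nonneg {x ρ : ℝ} (h : x ^ 2 ≤ (2 * ρ) ^ 2) (hρ : 0 ≤ ρ) : x ≤ 2 * ρ := by
    have h2 : 0 ≤ 2 * ρ := by positivity
    exact (abs_le_of_sq_le_sq' h h2).2

end Pool.Agent.H50.CP
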