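import Pool.Agent.H21.Tri.Final

set_option autoImplicit false

/-!
# Clone packing near a square or an equilateral triangle: definitions
-/

namespace Pool.Agent.H50.CP

open Pool.Agent.H90.Clone Pool.Agent.H21.Tri Complex Set Pointwise MeasureTheory

/-- the real inner product of the plane -/
def ip (z w : ℂ) : ℝ := z.re * w.re + z.im * w.im

/-- `z ↦ o' + (1 + ε) z` -/
noncomputable def hom (o' : ℂ) (ε : ℝ) (T : Set ℂ) : Set ℂ :=
  (fun z => o' + ((1 + ε : ℝ) : ℂ) * z) '' T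

/-- abstract properties of the reference figure `T` (a square or a triangle with corner `0`) -/
structure Shape (u v : ℂ) (T : Set ℂ) : Prop where
  det_ne : det u v ≠ 0
  fig : IsConvexFigure T
  box : ∀ z ∈ T, 0 ≤ fx u v z ∧ 0 ≤ fy u v z ∧ fx u v z ≤ 1 ∧ fy u v z ≤ 1
  mem0 : (0 : ℂ) ∈ T
  memu : u ∈ T
  memv : v ∈ T
  slack : ∀ η : ℝ, 0 < η → ∃ δ : ℝ, 0 < δ ∧ ∀ L : List ℝ, L.Pairwise (fun a b => b ≤ a) →
    (∀ c ∈ L, 0 < c) → sqs L ≤ 1 / 2 + δ → Pack T T L ∨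
      ∃ (y1 y2 : ℝ) (L' : List ℝ), L = y1 :: y2 :: L' ∧ |y1 - 1 / 2| < η ∧ |y2 - 1 / 2| < η
  small : ∀ (κ : ℝ) (a : ℂ), 0 < κ → ∀ L : List ℝ, L.Pairwise (fun a b => b ≤ a) →
    (∀ c ∈ L, 0 < c) → sqs L ≤ κ ^ 2 / 2 → Pack T ((fun z => z + a) '' (κ • T)) L

end Pool.Agent.H50.CP
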