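import Pool.Agent.H50.CP.Rot

set_option autoImplicit false

/-!
# A figure with `Two F` false has long straight edges (row CP Edge: prove `edge`, `rot_gain` may be used)

PROOF. Write `e = I n`, `d = n + t e`; `ip` is bilinear, `ip n n = ip e e = 1`, `ip n e = 0`; for `v` put
`vn = ip v n`, `ve = ip v e`, `v = vn n + ve e`, `vn² + ve² = ‖v‖²`; `ip (I v) (I w) = ip v w`, `ip (I v) v = 0`; `I d = e - t n`.
`F` is compact, so there are `p, q0 ∈ F` maximising / minimising `ip · d`. By `h4` `‖p - y‖ ≤ δ`. Let `κ = b (1-t) / 2`,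
`c = κ (n + e)`: `ip c d = κ (1+t) = b (1-t²)/2 < b/2 ≤ ip (p-q) (I d)/2` for all minimisers `q` (`h5`). So `rot_gain` and `h2`
give `v`, `‖v‖ = 1`, `ip x v ≤ ip p v` on `F`, and `f ∈ F` with `ip f v = ip p v`, `ip (I (f-p)) v / 2 ≥ κ (vn + ve)`.
`w = f - p` satisfies `ip w v = 0`, so `w = -Λ I v` with `Λ = ip (I w) v` and `Λ ≥ 2 κ (vn + ve)`.
From `h1`: `-s ve ≤ ip (p-y) v ≤ δ`, so `ve ≥ -t/100`. From `h3`: `-a ve - h vn ≤ δ`. From the choice of `p`:
`0 ≥ ip w d = -Λ (t vn - ve)`.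
Case `Λ ≤ 0`: `vn + ve ≤ 0`. If `ve ≤ 0` then `|ve| ≤ t/100 ≤ 1/1000`, `vn ≤ t/100`, so `vn ≤ -9/10` and
`h·9/10 ≤ δ ≤ s/1000`, false. If `ve > 0` then `vn ≤ -ve`, `vn ≤ -7/10`, `h |vn| ≤ δ + a ve ≤ δ + (s/2) |vn|`, so
`(s/10)(7/10) ≤ s/1000`, false. So `Λ > 0`, hence `ve ≤ t vn`. If `vn ≤ 0` then `ve ≤ 0`, `|ve| ≤ 1/1000`, `vn ≤ -9/10`,
false as before. So `vn > 0`, `-t/100 ≤ ve ≤ t`, `vn ≥ 1 - t²`, `Λ ≥ 2κ(1 - t² - t/100) ≥ (1-3t) b`, `‖f-p‖ = Λ`, and
`f - p + Λ e = -Λ I (v - n)` has norm `Λ ‖v - n‖ ≤ Λ sqrt(t⁴ + t²) ≤ 2 t Λ`. The segment `[p, f]` lies in `F` and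
`ip · v` is maximal over `F` on it, so it lies in the frontier (no point of it is interior: move in direction `v`).
-/

namespace Pool.Agent.H50.CP

open Pool.Agent.H90.Clone Pool.Agent.H21.Tri Complex Set Pointwise MeasureTheory

lemma ip_add_right (a b w : ℂ) : ip w (a + b) = ip w a + ip w b := by simp [ip]; ring
lemma ip_smul_right (r : ℝ) (a w : ℂ) : ip w ((r : ℂ) * a) = r * ip w a := by simp [ip]; ring

lemma ip_self_one {n : ℂ} (hn : ‖n‖ = 1) : n.re ^ 2 + n.im ^ 2 = 1 := by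
  have := Complex.sq_norm n
  rw [hn, Complex.normSq_apply] at this
  linarith

/-- decomposition in the frame `n, I n` -/
lemma frame {n : ℂ} (hn : ‖n‖ = 1) (v : ℂ) :
    v = ((ip v n : ℝ) : ℂ) * n + ((ip v (I * n) : ℝ) : ℂ) * (I * n) := by
  have h := ip_self_one hn
  apply Complex.ext
  · simp [ip]
    linear_combination (-v.re) * h
  · simp [ip]
    linear_combination (-v.im) * h

lemma frame_sq {n : ℂ} (hn : ‖n‖ = 1) (v : ℂ) :
    ip v n ^ 2 + ip v (I * n) ^ 2 = ‖v‖ ^ 2 := by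
  have h := ip_self_one hn
  rw [Complex.sq_norm, Complex.normSq_apply]
  simp [ip]
  linear_combination (v.re ^ 2 + v.im ^ 2) * h

lemma exists_max {F : Set ℂ} (hF : IsConvexFigure F) (d : ℂ) : ∃ p ∈ F, ∀ x ∈ F, ip x d ≤ ip p d := by
  have hne : F.Nonempty := hF.2.2.mono interior_subset
  have hc : ContinuousOn (fun z => ip z d) F := by
    unfold ip
    fun_prop
  obtain ⟨p, hp, hmax⟩ := hF.1.exists_isMaxOn hne hc
  exact ⟨p, hp, fun x hx => hmax hx⟩

lemma exists_min {F : Set ℂ} (hF : IsConvexFigure F) (d : ℂ) : ∃ p ∈ F, ∀ x ∈ F, ip p d ≤ ip x d := by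
  have hne : F.Nonempty := hF.2.2.mono interior_subset
  have hc : ContinuousOn (fun z => ip z d) F := by
    unfold ip
    fun_prop
  obtain ⟨p, hp, hmin⟩ := hF.1.exists_isMinOn hne hc
  exact ⟨p, hp, fun x hx => hmin hx⟩

/-- points where a nonzero functional is maximal are frontier points -/
lemma mem_frontier_of_max {F : Set ℂ} {v x : ℂ} (hv : v ≠ 0) (hx : x ∈ F)
    (h : ∀ y ∈ F, ip y v ≤ ip x v) : x ∈ frontier F := by
  rw [frontier, mem_sdiff]
  refine ⟨subset_closure hx, fun hint => ?_⟩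
  rw [mem_interior_iff_mem_nhds, Metric.mem_nhds_iff] at hint
  obtain ⟨ε, hε, hball⟩ := hint
  have hn : 0 < ‖v‖ := norm_pos_iff.mpr hv
  set r : ℝ := ε / (2 * ‖v‖) with hr
  have hr0 : 0 < r := by positivity
  have hmem : x + (r : ℂ) * v ∈ F := by
    apply hball
    rw [Metric.mem_ball, dist_eq_norm, add_sub_cancel_left, norm_mul, Complex.norm_real,
      Real.norm_eq_abs, abs_of_pos hr0, hr]
    have : ε / (2 * ‖v‖) * ‖v‖ = ε / 2 := by field_simp
    rw [this]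
    linarith
  have h1 := h _ hmem
  rw [ip_add_left, ip_smul_left] at h1
  have h2 : 0 < ip v v := by
    have e : ip v v = ‖v‖ ^ 2 := by
      rw [Complex.sq_norm, Complex.normSq_apply, ip]
    rw [e]
    positivity
  have h3 := mul_pos hr0 h2
  linarith

/-- the numerical part of the proof -/
lemma numbers {s t δ b h a vn ve Λ dy : ℝ} (hs : 0 < s) (ht : 0 < t) (ht1 : t ≤ 1 / 10)
    (hδ : 0 ≤ δ) (hδ1 : δ ≤ t * s / 100) (hb : 0 < b) (hh : 3 * s / 5 ≤ h) (ha0 : 0 ≤ a)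
    (ha1 : a ≤ s / 2) (hunit : vn ^ 2 + ve ^ 2 = 1) (hdy : dy ≤ δ)
    (e1 : -(s * ve) ≤ dy) (e3 : -(a * ve) - h * vn ≤ dy)
    (hΛ : b * (1 - t) * (vn + ve) ≤ Λ) (hd : 0 ≤ Λ * (t * vn - ve)) :
    0 < vn ∧ -(t / 100) ≤ ve ∧ ve ≤ t ∧ 1 - t ^ 2 ≤ vn ∧ (1 - 3 * t) * b ≤ Λ := by
  have hve : -(t / 100) ≤ ve := by
    by_contra hcon
    push Not at hcon
    nlinarith
  have hb1 : 0 < b * (1 - t) := mul_pos hb (by linarith)
  have ts : t * s ≤ s / 10 := by nlinarith
  have hδs : δ ≤ s / 1000 := by linarith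
  -- both coordinates nonpositive is impossible
  have bad : ¬ (vn ≤ 1 / 100 ∧ ve ≤ 0) := by
    rintro ⟨h1, h2⟩
    have h3 : ve ^ 2 ≤ 1 / 100 := by nlinarith
    have h4 : 99 / 100 ≤ vn ^ 2 := by linarith
    have h5 : vn ≤ -(9 / 10) := by
      by_contra hcon
      push Not at hcon
      nlinarith
    have h6 : 0 ≤ -(a * ve) := by nlinarith
    have h7 : h * vn ≤ -(27 / 50) * s := by nlinarith
    nlinarith
  have hΛ0 : 0 < Λ := by
    by_contra hcon
    push Not at hcon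
    have h1 : vn + ve ≤ 0 := by
      by_contra h2
      push Not at h2
      have := mul_pos hb1 h2
      linarith
    rcases le_or_gt ve 0 with h2 | h2
    · apply bad
      refine ⟨?_, h2⟩
      linarith
    · have h3 : vn ≤ -(7 / 10) := by
        by_contra hc
        push Not at hc
        nlinarith
      have h4 : a * ve ≤ s / 2 * (-vn) := by
        have : ve ≤ -vn := by linarith
        calc a * ve ≤ s / 2 * ve := mul_le_mul_of_nonneg_right ha1 h2.le
          _ ≤ s / 2 * (-vn) := mul_le_mul_of_nonneg_left this (by linarith)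
      have h5 : 3 * s / 5 * (-vn) ≤ h * (-vn) := mul_le_mul_of_nonneg_right hh (by linarith)
      nlinarith
  have hd' : 0 ≤ t * vn - ve := nonneg_of_mul_nonneg_right hd hΛ0
  have hvn : 0 < vn := by
    by_contra hcon
    push Not at hcon
    apply bad
    constructor
    · linarith
    · nlinarith
  have hvn1 : vn ≤ 1 := by nlinarith [sq_nonneg ve]
  have hvet : ve ≤ t := by nlinarith
  have hve2 : ve ^ 2 ≤ t ^ 2 := by
    apply sq_le_sq'
    · linarith
    · exact hvet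
  have hvn2 : 1 - t ^ 2 ≤ vn := by nlinarith
  refine ⟨hvn, hve, hvet, hvn2, ?_⟩
  have h1 : b * (1 - t) * (1 - t ^ 2 - t / 100) ≤ b * (1 - t) * (vn + ve) :=
    mul_le_mul_of_nonneg_left (by linarith) hb1.le
  have h2 : (1 - 3 * t) * b ≤ b * (1 - t) * (1 - t ^ 2 - t / 100) := by
    have : (1 - 3 * t) ≤ (1 - t) * (1 - t ^ 2 - t / 100) := by nlinarith [pow_pos ht 3]
    nlinarith
  linarith

lemma numbers2 {t vn ve : ℝ} (ht : 0 < t) (ht1 : t ≤ 1 / 10) (n2 : -(t / 100) ≤ ve) (n3 : ve ≤ t)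
    (n4 : 1 - t ^ 2 ≤ vn) (h7 : vn ≤ 1) : (vn - 1) ^ 2 + (ve - 0) ^ 2 ≤ (2 * t) ^ 2 := by
  have h9 : (vn - 1) ^ 2 ≤ (t ^ 2) ^ 2 := by
    apply sq_le_sq'
    · linarith
    · nlinarith [sq_nonneg t]
  have h10 : ve ^ 2 ≤ t ^ 2 := by
    apply sq_le_sq'
    · linarith
    · exact n3
  have h11 : t ^ 2 ≤ 1 / 100 := by nlinarith
  have h12 : (t ^ 2) ^ 2 ≤ t ^ 2 := by nlinarith [sq_nonneg t]
  nlinarith

/-- Frame: `y` a vertex, `n` the outer normal of the side ending in `y` (counterclockwise),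
`I * n` its direction, `s` its length; `t` small: `d = n + t I n`. -/
theorem edge {F : Set ℂ} (hF : IsConvexFigure F) (h2 : ¬ Two F) {y n : ℂ} {s t δ b h : ℝ}
    (hn : ‖n‖ = 1) (hs : 0 < s) (ht : 0 < t) (ht1 : t ≤ 1 / 10) (hδ : 0 ≤ δ) (hδ1 : δ ≤ t * s / 100)
    (hb : 0 < b) (hh : 3 * s / 5 ≤ h)
    (h1 : y - (s : ℂ) * (I * n) ∈ F)
    (h3 : ∃ a : ℝ, 0 ≤ a ∧ a ≤ s / 2 ∧ y - (a : ℂ) * (I * n) - (h : ℂ) * n ∈ F)
    (h4 : ∀ p ∈ F, (∀ x ∈ F, ip x (n + t * (I * n)) ≤ ip p (n + t * (I * n))) → ‖p - y‖ ≤ δ)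
    (h5 : ∀ p ∈ F, (∀ x ∈ F, ip x (n + t * (I * n)) ≤ ip p (n + t * (I * n))) →
      ∀ q ∈ F, (∀ x ∈ F, ip q (n + t * (I * n)) ≤ ip x (n + t * (I * n))) →
        b ≤ ip (p - q) (I * n - t * n)) :
    ∃ p f : ℂ, segment ℝ p f ⊆ frontier F ∧ ‖p - y‖ ≤ δ ∧ (1 - 3 * t) * b ≤ ‖f - p‖ ∧
      ‖f - p + (‖f - p‖ : ℂ) * (I * n)‖ ≤ 2 * t * ‖f - p‖ := by
  have hre := ip_self_one hn
  have hnn : ip n n = 1 := by unfold ip; linarith
  have hee : ip (I * n) (I * n) = 1 := by simp [ip]; linarith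
  have hne : ip n (I * n) = 0 := by simp [ip]; ring
  have hen : ip (I * n) n = 0 := by simp [ip]; ring
  set d : ℂ := n + t * (I * n) with hd
  obtain ⟨p, hp, hpmax⟩ := exists_max hF d
  obtain ⟨q0, hq0, hqmin⟩ := exists_min hF d
  have hpy := h4 p hp hpmax
  set κ : ℝ := b * (1 - t) / 2 with hκ
  have hκ0 : 0 < κ := by
    have := mul_pos hb (show 0 < 1 - t by linarith)
    rw [hκ]; linarith
  set c : ℂ := (κ : ℂ) * (n + I * n) with hc
  have hd0 : d ≠ 0 := by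
    intro h0
    have : ip n d = 1 := by rw [hd, ip_add_right, ip_smul_right, hnn, hne]; ring
    rw [h0] at this
    simp [ip] at this
  have hId : I * d = I * n - t * n := by
    rw [hd]
    linear_combination (t * n : ℂ) * Complex.I_mul_I
  have hcd : ip c d = κ * (1 + t) := by
    rw [hc, ip_smul_left, ip_add_left, hd, ip_add_right, ip_add_right, ip_smul_right, ip_smul_right,
      hnn, hne, hen, hee]
    ring
  have hneg : ¬ ∀ v : ℂ, ‖v‖ = 1 → (∀ x ∈ F, ip x v ≤ ip p v) → ∀ f ∈ F, ip f v = ip p v →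
      ip (I * (f - p)) v / 2 < ip c v := by
    intro hall
    apply h2
    refine rot_gain hF hp hq0 hd0 hpmax hqmin ?_ hall
    intro q hq hqd
    have h5' := h5 p hp hpmax q hq (fun x hx => by rw [hqd]; exact hqmin x hx)
    rw [hId, hcd]
    have : κ * (1 + t) < b / 2 := by
      rw [hκ]
      nlinarith [mul_pos hb (pow_pos ht 2)]
    linarith
  push Not at hneg
  obtain ⟨v, hv1, hvmax, f, hf, hfv, hineq⟩ := hneg
  set vn := ip v n with hvn
  set ve := ip v (I * n) with hve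
  have hvdec : v = (vn : ℂ) * n + (ve : ℂ) * (I * n) := frame hn v
  have hunit : vn ^ 2 + ve ^ 2 = 1 := by
    rw [hvn, hve, frame_sq hn, hv1]
    norm_num
  have hvre := ip_self_one hv1
  set Λ := ip (I * (f - p)) v with hΛ
  have hsymm : ∀ z w : ℂ, ip z w = ip w z := fun z w => by unfold ip; ring
  have hcv : ip c v = κ * (vn + ve) := by
    rw [hc, ip_smul_left, ip_add_left, hsymm n v, hsymm (I * n) v]
  -- f - p = -Λ I v
  have hw0 : ip (f - p) v = 0 := by rw [ip_sub_left, hfv]; ring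
  have hfp : f - p = -((Λ : ℂ) * (I * v)) := by
    unfold ip at hw0
    simp only [hΛ, ip]
    apply Complex.ext
    · simp at hw0 ⊢
      linear_combination (-(f.re - p.re)) * hvre + v.re * hw0
    · simp at hw0 ⊢
      linear_combination (-(f.im - p.im)) * hvre + v.im * hw0
  have hdy : ip (p - y) v ≤ δ := by
    have h6 : ip (p - y) v ≤ ‖p - y‖ * ‖v‖ := by
      have h7 := Complex.abs_re_le_norm ((p - y) * (starRingEnd ℂ) v)
      rw [norm_mul, Complex.norm_conj] at h7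
      have h8 : ((p - y) * (starRingEnd ℂ) v).re = ip (p - y) v := by
        simp [ip]
      rw [h8] at h7
      exact (le_abs_self _).trans h7
    rw [hv1, mul_one] at h6
    linarith
  obtain ⟨a, ha0, ha1, haF⟩ := h3
  have e1 : -(s * ve) ≤ ip (p - y) v := by
    have := hvmax _ h1
    rw [ip_sub_left, ip_smul_left, hsymm (I * n) v] at this
    rw [ip_sub_left]
    linarith
  have e3 : -(a * ve) - h * vn ≤ ip (p - y) v := by
    have := hvmax _ haF
    rw [ip_sub_left, ip_sub_left, ip_smul_left, ip_smul_left, hsymm (I * n) v, hsymm n v] at this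
    rw [ip_sub_left]
    linarith
  have hIv : I * v = (vn : ℂ) * (I * n) + ((-ve : ℝ) : ℂ) * n := by
    rw [hvdec]
    push_cast
    linear_combination (ve * n : ℂ) * Complex.I_mul_I
  have hIvd : ip (I * v) d = t * vn - ve := by
    rw [hIv, hd, ip_add_left, ip_smul_left, ip_smul_left, ip_add_right, ip_add_right, ip_smul_right,
      ip_smul_right, hnn, hne, hen, hee]
    ring
  have hdd : 0 ≤ Λ * (t * vn - ve) := by
    have h6 := hpmax f hf
    have h7 : ip (f - p) d ≤ 0 := by rw [ip_sub_left]; linarith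
    have h8 : f - p = ((-Λ : ℝ) : ℂ) * (I * v) := by rw [hfp]; push_cast; ring
    rw [h8, ip_smul_left, hIvd] at h7
    linarith
  have hΛ' : b * (1 - t) * (vn + ve) ≤ Λ := by
    rw [hcv, hκ] at hineq
    linarith
  obtain ⟨n1, n2, n3, n4, n5⟩ := numbers hs ht ht1 hδ hδ1 hb hh ha0 ha1 hunit hdy e1 e3 hΛ' hdd
  have hΛ0 : 0 ≤ Λ := by
    have : 0 ≤ (1 - 3 * t) * b := mul_nonneg (by linarith) hb.le
    linarith
  have hIv1 : ‖I * v‖ = 1 := by rw [norm_mul, Complex.norm_I, hv1, mul_one]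
  have hnorm : ‖f - p‖ = Λ := by
    rw [hfp, norm_neg, norm_mul, Complex.norm_real, Real.norm_eq_abs, abs_of_nonneg hΛ0, hIv1, mul_one]
  refine ⟨p, f, ?_, hpy, by rw [hnorm]; exact n5, ?_⟩
  · rintro x ⟨α, β, hα, hβ, hαβ, rfl⟩
    have hv0 : v ≠ 0 := by
      rintro rfl
      simp at hv1
    apply mem_frontier_of_max hv0 (hF.2.1 hp hf hα hβ hαβ)
    intro z hz
    have e : ip (α • p + β • f) v = ip p v := by
      simp only [real_smul]
      rw [ip_add_left, ip_smul_left, ip_smul_left, hfv]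
      have : α = 1 - β := by linarith
      rw [this]
      ring
    rw [e]
    exact hvmax z hz
  · rw [hnorm]
    have e : f - p + (Λ : ℂ) * (I * n) = -((Λ : ℂ) * (I * (v - n))) := by
      rw [hfp]
      ring
    rw [e, norm_neg, norm_mul, norm_mul, Complex.norm_I, one_mul, Complex.norm_real,
      Real.norm_eq_abs, abs_of_nonneg hΛ0, mul_comm]
    apply mul_le_mul_of_nonneg_right _ hΛ0
    have h6 := frame_sq hn (v - n)
    rw [ip_sub_left, ip_sub_left, hnn, hne] at h6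
    have h7 : vn ≤ 1 := by nlinarith [sq_nonneg ve]
    have h8 : ‖v - n‖ ^ 2 ≤ (2 * t) ^ 2 := by
      rw [← h6]
      exact numbers2 ht ht1 n2 n3 n4 h7
    exact (pow_le_pow_iff_left₀ (norm_nonneg _) (by linarith) two_ne_zero).mp h8

end Pool.Agent.H50.CP
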