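import Pool.Agent.H50.CP.Adm

set_option autoImplicit false

/-!
# Packing in a figure near the shape (row CP Near: prove `pack_near`)

PROOF. Let `η = 1/100`, `δ0` the number of `S.slack η`, `δ1 = min δ0 (1/1000)`, `ε₀ = min (1/1000) (δ1/4)`.
Let `F` be as in the theorem, `K = 1 + ε`.
(0) COORDINATES. From `T ⊆ hom o' ε T`, `0, u, v ∈ T` and `S.box`: `-ε ≤ fx o' ≤ 0`, `-ε ≤ fy o' ≤ 0` (e.g. `u = o' + K z`
 gives `1 ≤ fx o' + K`). So on `F`: `-ε ≤ fx, fy ≤ 1 + ε`.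
(1) FIRST PLACEMENT. For a sorted positive list `L` with `sqs L ≤ 1/2 + δ1/2`, `K L` has `sqs (K L) = K² sqs L ≤ 1/2 + δ0`,
 so either `Pack T T (K L)`, hence `Pack F T L` by `pack_conv` and `Pack F F L` by `Pack.mono`; or
 `L = y1 :: y2 :: L'` with `|K y_i - 1/2| < η`, so `|y_i - 1/2| < 1/50`.
(2) SECOND CASE, `y1 + y2 ≤ 1`, `sqs L ≤ 1/2 + δ1/2`. Let `f = fy - fx`, `p` a minimum point and `q` a maximum point of `f` on
 the compact set `F`. As `u, v ∈ F`: `f p ≤ -1`, `f q ≥ 1`; with (0): `fx p ≥ 1 - ε`, `fy q ≥ 1 - ε`. The copies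
 `A = y1 • F + (1-y1) • p`, `B = y2 • F + (1-y2) • q` lie in `F` by convexity; on `A`: `f ≤ y1 f q + (1-y1) f p`, on `B`:
 `f ≥ y2 f p + (1-y2) f q`, and `y1 f q + (1-y1) f p ≤ y2 f p + (1-y2) f q` because `(y1+y2-1)(f q - f p) ≤ 0`; so
 `SepSets A B` (`f ≠ 0`: `f v = 1`). On `A`: `fx ≥ -y1 ε + (1-y1)(1-ε) ≥ 1 - y1 - ε ≥ 9/20`; on `B`: `fy ≥ 9/20`. The set
 `C = (9/20) • T` (`a = 0` in `S.small`) lies in `T ⊆ F` (convexity, `0 ∈ T`), with `fx, fy ≤ 9/20` on it, so it is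
 separated from `A` and from `B`. Finally `sqs L' ≤ 1/2 + δ1/2 - y1² - y2² ≤ 1/2 + 1/2000 - 2 (1/2 - 1/50)² < 1/25`, and
 `K² /25 ≤ (9/20)²/2`, so `Pack T C (K L')` by `S.small`, `Pack F C L'` by `pack_conv`; put together with `Pack.cons`
 twice (`Pack.append`).
(3) If `sqs L ≤ 1/2` and `y1 + y2 > 1` then `y1² + y2² > 1/2`, impossible: this proves the first claim.
(4) `Two F` gives `l > 1/2` and copies `A, B ⊆ F` of scale `l`, `SepSets A B`. As in `three_regions` (H21/Tri/Main.lean, there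
 for `F = Tri 0 u v`; copy the proof): shrink `l` to `≤ 3/5` (a copy of `F` of scale `l` contains one of every
 smaller scale: with `x0 ∈ F`, `c • F + (l-c) • x0 ⊆ l • F`), by areas `interior F` is not contained in `A ∪ B`, so there are
 `a` and `κ > 0` with `C = a + κ • T ⊆ F`, `SepSets A C`, `SepSets B C`. Let `δ = min (δ1/2) (min ((l-1/2)²) (κ²/8))`. For
 `sqs L ≤ 1/2 + δ`: (1), (2) or `y1 + y2 > 1`; in the last case `y1² + y2² > 1/2`, `sqs L' < δ`, `K² δ ≤ κ²/2`, and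
 `(y1-1/2)² + (y2-1/2)² < δ`, so `y_i ≤ l`: shrink `A`, `B` to the scales `y1`, `y2`, and pack `L'` in `C`.
-/

namespace Pool.Agent.H50.CP

open Pool.Agent.H90.Clone Pool.Agent.H21.Tri Complex Set Pointwise MeasureTheory

variable {u v : ℂ}

lemma fx_u (h : det u v ≠ 0) : fx u v u = 1 := by simpa using fx_comb h 1 0
lemma fx_v (h : det u v ≠ 0) : fx u v v = 0 := by simpa using fx_comb h 0 1
lemma fy_u (h : det u v ≠ 0) : fy u v u = 0 := by simpa using fy_comb h 1 0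
lemma fy_v (h : det u v ≠ 0) : fy u v v = 1 := by simpa using fy_comb h 0 1

lemma map_rmul (f : ℂ →L[ℝ] ℝ) (c : ℝ) (z : ℂ) : f ((c : ℂ) * z) = c * f z := by
  rw [← real_smul, map_smul, smul_eq_mul]

/-- coordinates on a figure near the shape -/
lemma near_box {T F : Set ℂ} (S : Shape u v T) {ε : ℝ} (hε : 0 ≤ ε) {o' : ℂ} (hTF : T ⊆ F)
    (hF : F ⊆ hom o' ε T) (z : ℂ) (hz : z ∈ F) :
    -ε ≤ fx u v z ∧ -ε ≤ fy u v z := by
  have hd := S.det_ne
  obtain ⟨w0, hw0, e0⟩ := hF (hTF S.mem0)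
  obtain ⟨w1, hw1, e1⟩ := hF (hTF S.memu)
  obtain ⟨w2, hw2, e2⟩ := hF (hTF S.memv)
  obtain ⟨w, hw, e⟩ := hF hz
  have b0 := S.box w0 hw0
  have b1 := S.box w1 hw1
  have b2 := S.box w2 hw2
  have b := S.box w hw
  have k1 : fx u v o' + (1 + ε) * fx u v w1 = 1 := by
    have := congrArg (fx u v) e1
    simp only [map_add, map_rmul] at this
    rw [this, fx_u hd]
  have k2 : fy u v o' + (1 + ε) * fy u v w2 = 1 := by
    have := congrArg (fy u v) e2
    simp only [map_add, map_rmul] at this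
    rw [this, fy_v hd]
  have kx : fx u v z = fx u v o' + (1 + ε) * fx u v w := by
    have := congrArg (fx u v) e
    simp only [map_add, map_rmul] at this
    exact this.symm
  have ky : fy u v z = fy u v o' + (1 + ε) * fy u v w := by
    have := congrArg (fy u v) e
    simp only [map_add, map_rmul] at this
    exact this.symm
  constructor
  · rw [kx]
    nlinarith [mul_le_mul_of_nonneg_left b1.2.2.1 (by linarith : (0:ℝ) ≤ 1 + ε),
      mul_nonneg (by linarith : (0:ℝ) ≤ 1 + ε) b.1]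
  · rw [ky]
    nlinarith [mul_le_mul_of_nonneg_left b2.2.2.2 (by linarith : (0:ℝ) ≤ 1 + ε),
      mul_nonneg (by linarith : (0:ℝ) ≤ 1 + ε) b.2.1]

lemma sqs_map_mul (K : ℝ) (L : List ℝ) : sqs (L.map fun c => K * c) = K ^ 2 * sqs L := by
  induction L with
  | nil => simp [sqs_nil]
  | cons a L ih =>
    rw [List.map_cons, sqs_cons, sqs_cons, ih]
    ring

/-- the copy `c • F + (1 - c) • p` -/
lemma sub_copy {F : Set ℂ} (hF : Convex ℝ F) {p : ℂ} (hp : p ∈ F) {c : ℝ} (hc : 0 ≤ c) (hc1 : c ≤ 1) :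
    IsCopy F c ((fun z => z + (1 - c) • p) '' (c • F)) ∧
      (fun z => z + (1 - c) • p) '' (c • F) ⊆ F := by
  refine ⟨⟨IsometryEquiv.addRight ((1 - c) • p), rfl⟩, ?_⟩
  rintro _ ⟨_, ⟨w, hw, rfl⟩, rfl⟩
  exact hF hw hp hc (by linarith) (by ring)

lemma copy_shrink {F S : Set ℂ} (hF : Convex ℝ F) (hne : F.Nonempty) {l c : ℝ} (h : IsCopy F l S)
    (hc : 0 < c) (hcl : c ≤ l) : ∃ S' ⊆ S, IsCopy F c S' := by
  obtain ⟨g, rfl⟩ := h
  obtain ⟨p, hp⟩ := hne
  refine ⟨((IsometryEquiv.addRight ((l - c) • p)).trans g) '' (c • F), ?_, ⟨_, rfl⟩⟩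
  rintro _ ⟨_, ⟨w, hw, rfl⟩, rfl⟩
  refine ⟨c • w + (l - c) • p, ?_, rfl⟩
  have hl : 0 < l := by linarith
  refine ⟨(c / l) • w + (1 - c / l) • p, hF hw hp (by positivity) ?_ (by ring), ?_⟩
  · rw [sub_nonneg, div_le_one hl]
    exact hcl
  · change l • ((c / l) • w + (1 - c / l) • p) = c • w + (l - c) • p
    rw [smul_add, smul_smul, smul_smul]
    congr 2
    · field_simp
    · field_simp

lemma copy_compact {F S : Set ℂ} (hF : IsCompact F) {c : ℝ} (h : IsCopy F c S) : IsCompact S := by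
  obtain ⟨g, rfl⟩ := h
  exact (hF.smul c).image g.continuous

lemma copy_nonempty {F S : Set ℂ} (hF : F.Nonempty) {c : ℝ} (h : IsCopy F c S) : S.Nonempty := by
  obtain ⟨g, rfl⟩ := h
  obtain ⟨x, hx⟩ := hF
  exact ⟨g (c • x), ⟨_, ⟨x, hx, rfl⟩, rfl⟩⟩

lemma pack_three {F Q A B C : Set ℂ} {y1 y2 : ℝ} {L : List ℝ} (hA : IsCopy F y1 A)
    (hB : IsCopy F y2 B) (hC : Pack F C L) (hAQ : A ⊆ Q) (hBQ : B ⊆ Q) (hCQ : C ⊆ Q)
    (hAB : SepSets A B) (hAC : SepSets A C) (hBC : SepSets B C) : Pack F Q (y1 :: y2 :: L) := by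
  obtain ⟨D, d1, d2, d3⟩ := hC
  refine ⟨A :: B :: D, List.Forall₂.cons hA (List.Forall₂.cons hB d1), ?_, ?_⟩
  · intro S hS
    rw [List.mem_cons, List.mem_cons] at hS
    rcases hS with rfl | rfl | hS
    · exact hAQ
    · exact hBQ
    · exact (d2 S hS).trans hCQ
  · rw [List.pairwise_cons, List.pairwise_cons]
    refine ⟨?_, ?_, d3⟩
    · intro S hS
      rw [List.mem_cons] at hS
      rcases hS with rfl | hS
      · exact hAB
      · exact hAC.mono Subset.rfl (d2 S hS)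
    · intro S hS
      exact hBC.mono Subset.rfl (d2 S hS)

/-- first placement -/
lemma place_one {T F : Set ℂ} {δ0 δ1 ε : ℝ} {o' : ℂ} (hδ : ∀ L : List ℝ,
      L.Pairwise (fun a b => b ≤ a) → (∀ c ∈ L, 0 < c) → sqs L ≤ 1 / 2 + δ0 → Pack T T L ∨
      ∃ (y1 y2 : ℝ) (L' : List ℝ), L = y1 :: y2 :: L' ∧ |y1 - 1 / 2| < 1 / 100 ∧
        |y2 - 1 / 2| < 1 / 100)
    (hε : 0 ≤ ε) (hε1 : ε ≤ 1 / 1000) (hεδ : ε ≤ δ1 / 4) (h10 : δ1 ≤ δ0) (h11 : δ1 ≤ 1 / 1000)
    (hTF : T ⊆ F) (hF : F ⊆ hom o' ε T) (L : List ℝ) (hs : L.Pairwise (fun a b => b ≤ a))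
    (hpos : ∀ c ∈ L, 0 < c) (hsum : sqs L ≤ 1 / 2 + δ1 / 2) : Pack F F L ∨
      ∃ (y1 y2 : ℝ) (L' : List ℝ), L = y1 :: y2 :: L' ∧ |y1 - 1 / 2| < 1 / 50 ∧
        |y2 - 1 / 2| < 1 / 50 := by
  have hδ1 : 0 ≤ δ1 := by linarith
  have hK : (0:ℝ) < 1 + ε := by linarith
  have hsum' : sqs (L.map fun c => (1 + ε) * c) ≤ 1 / 2 + δ0 := by
    rw [sqs_map_mul]
    have h0 := sqs_nonneg L
    have h1 : (1 + ε) ^ 2 ≤ 1 + 3 * (δ1 / 4) := by nlinarith
    calc (1 + ε) ^ 2 * sqs L ≤ (1 + 3 * (δ1 / 4)) * (1 / 2 + δ1 / 2) := by gcongr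
      _ ≤ 1 / 2 + δ0 := by nlinarith
  have hm1 : (L.map fun c => (1 + ε) * c).Pairwise (fun a b => b ≤ a) := by
    rw [List.pairwise_map]
    exact hs.imp fun {a b} hab => mul_le_mul_of_nonneg_left hab hK.le
  have hm2 : ∀ c ∈ L.map fun c => (1 + ε) * c, 0 < c := by
    intro c hc
    obtain ⟨a, ha, rfl⟩ := List.mem_map.mp hc
    exact mul_pos hK (hpos a ha)
  rcases hδ (L.map fun c => (1 + ε) * c) hm1 hm2 hsum' with h | ⟨y1, y2, L', hL, h1, h2⟩
  · left
    exact (pack_conv hε hF L hpos h).mono hTF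
  · right
    have key : ∀ y : ℝ, |(1 + ε) * y - 1 / 2| < 1 / 100 → |y - 1 / 2| < 1 / 50 := by
      intro y hy
      rw [abs_lt] at hy ⊢
      obtain ⟨h3, h4⟩ := hy
      have hy0 : 0 ≤ y := by
        by_contra hcon
        push Not at hcon
        nlinarith
      have hy1 : y ≤ 1 := by nlinarith
      have : ε * y ≤ 1 / 1000 := by nlinarith
      have : 0 ≤ ε * y := by positivity
      constructor <;> nlinarith
    cases L with
    | nil => simp at hL
    | cons a L =>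
      cases L with
      | nil => simp at hL
      | cons b L =>
        rw [List.map_cons, List.map_cons] at hL
        injection hL with e1 hL
        injection hL with e2 hL
        refine ⟨a, b, L, rfl, key a ?_, key b ?_⟩
        · rw [e1]; exact h1
        · rw [e2]; exact h2

/-- second placement -/
lemma place_two {T F : Set ℂ} (S : Shape u v T) {ε : ℝ} (hε : 0 ≤ ε) (hε1 : ε ≤ 1 / 1000)
    {o' : ℂ} (hFig : IsConvexFigure F) (hTF : T ⊆ F) (hF : F ⊆ hom o' ε T) {y1 y2 : ℝ}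
    {L : List ℝ} (hs : (y1 :: y2 :: L).Pairwise (fun a b => b ≤ a))
    (hpos : ∀ c ∈ y1 :: y2 :: L, 0 < c) (hsum : sqs (y1 :: y2 :: L) ≤ 1 / 2 + 1 / 2000)
    (h1 : |y1 - 1 / 2| < 1 / 50) (h2 : |y2 - 1 / 2| < 1 / 50) (h12 : y1 + y2 ≤ 1) :
    Pack F F (y1 :: y2 :: L) := by
  have hd := S.det_ne
  obtain ⟨hcF, hconv, hint⟩ := hFig
  rw [abs_lt] at h1 h2
  set f : ℂ →L[ℝ] ℝ := fy u v - fx u v with hf
  have fap : ∀ z, f z = fy u v z - fx u v z := fun z => rfl
  have hne : F.Nonempty := ⟨0, hTF S.mem0⟩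
  obtain ⟨p, hp, hpmin⟩ := hcF.exists_isMinOn hne f.continuous.continuousOn
  obtain ⟨q, hq, hqmax⟩ := hcF.exists_isMaxOn hne f.continuous.continuousOn
  have hpm : ∀ z ∈ F, f p ≤ f z := fun z hz => hpmin hz
  have hqm : ∀ z ∈ F, f z ≤ f q := fun z hz => hqmax hz
  have p1 : f p ≤ -1 := by
    have := hpm u (hTF S.memu)
    rw [fap u, fx_u hd, fy_u hd] at this
    linarith
  have q1 : 1 ≤ f q := by
    have := hqm v (hTF S.memv)
    rw [fap v, fx_v hd, fy_v hd] at this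
    linarith
  have box := near_box S hε hTF hF
  have px : 1 - ε ≤ fx u v p := by
    have := (box p hp).2
    rw [fap p] at p1
    linarith
  have qy : 1 - ε ≤ fy u v q := by
    have := (box q hq).1
    rw [fap q] at q1
    linarith
  obtain ⟨cA, sA⟩ := sub_copy hconv hp (c := y1) (by linarith) (by linarith)
  obtain ⟨cB, sB⟩ := sub_copy hconv hq (c := y2) (by linarith) (by linarith)
  have hCT : (9 / 20 : ℝ) • T ⊆ T := by
    rintro _ ⟨w, hw, rfl⟩
    have := S.fig.2.1 hw S.mem0 (by norm_num : (0:ℝ) ≤ 9 / 20) (by norm_num : (0:ℝ) ≤ 11 / 20)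
      (by norm_num)
    rw [smul_zero, add_zero] at this
    exact this
  rw [List.pairwise_cons, List.pairwise_cons] at hs
  obtain ⟨hs1, hs2, hs3⟩ := hs
  have hC : Pack F ((9 / 20 : ℝ) • T) L := by
    apply pack_conv hε hF L (fun c hc => hpos c (by simp [hc]))
    have := S.small (9 / 20) 0 (by norm_num) (L.map fun c => (1 + ε) * c) ?_ ?_ ?_
    · simpa using this
    · rw [List.pairwise_map]
      exact hs3.imp fun {a b} hab => mul_le_mul_of_nonneg_left hab (by linarith)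
    · intro c hc
      obtain ⟨a, ha, rfl⟩ := List.mem_map.mp hc
      exact mul_pos (by linarith) (hpos a (by simp [ha]))
    · rw [sqs_map_mul]
      rw [sqs_cons, sqs_cons] at hsum
      have h0 := sqs_nonneg L
      have h3 : sqs L ≤ 1 / 20 := by nlinarith
      have h4 : (1 + ε) ^ 2 ≤ 2 := by nlinarith
      nlinarith
  refine pack_three cA cB hC sA sB (hCT.trans hTF) ?_ ?_ ?_
  · refine ⟨f, y1 * f q + (1 - y1) * f p, ?_, ?_, ?_⟩
    · intro h0
      have : f v = 1 := by rw [fap v, fx_v hd, fy_v hd]; norm_num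
      rw [h0] at this
      simp at this
    · rintro _ ⟨_, ⟨w, hw, rfl⟩, rfl⟩
      change f (y1 • w + (1 - y1) • p) ≤ _
      rw [map_add, map_smul, map_smul, smul_eq_mul, smul_eq_mul]
      have := mul_le_mul_of_nonneg_left (hqm w hw) (by linarith : (0:ℝ) ≤ y1)
      linarith
    · rintro _ ⟨_, ⟨w, hw, rfl⟩, rfl⟩
      change _ ≤ f (y2 • w + (1 - y2) • q)
      rw [map_add, map_smul, map_smul, smul_eq_mul, smul_eq_mul]
      have := mul_le_mul_of_nonneg_left (hpm w hw) (by linarith : (0:ℝ) ≤ y2)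
      nlinarith [mul_nonneg (by linarith : (0:ℝ) ≤ 1 - y1 - y2) (by linarith : (0:ℝ) ≤ f q - f p)]
  · apply SepSets.symm
    refine ⟨fx u v, 9 / 20, fx_ne hd, ?_, ?_⟩
    · rintro _ ⟨w, hw, rfl⟩
      change fx u v ((9 / 20 : ℝ) • w) ≤ _
      rw [map_smul, smul_eq_mul]
      have := (S.box w hw).2.2.1
      linarith
    · rintro _ ⟨_, ⟨w, hw, rfl⟩, rfl⟩
      change _ ≤ fx u v (y1 • w + (1 - y1) • p)
      rw [map_add, map_smul, map_smul, smul_eq_mul, smul_eq_mul]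
      have e1 := mul_le_mul_of_nonneg_left (box w hw).1 (by linarith : (0:ℝ) ≤ y1)
      have e2 := mul_le_mul_of_nonneg_left px (by linarith : (0:ℝ) ≤ 1 - y1)
      nlinarith
  · apply SepSets.symm
    refine ⟨fy u v, 9 / 20, fy_ne hd, ?_, ?_⟩
    · rintro _ ⟨w, hw, rfl⟩
      change fy u v ((9 / 20 : ℝ) • w) ≤ _
      rw [map_smul, smul_eq_mul]
      have := (S.box w hw).2.2.2
      linarith
    · rintro _ ⟨_, ⟨w, hw, rfl⟩, rfl⟩
      change _ ≤ fy u v (y2 • w + (1 - y2) • q)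
      rw [map_add, map_smul, map_smul, smul_eq_mul, smul_eq_mul]
      have e1 := mul_le_mul_of_nonneg_left (box w hw).2 (by linarith : (0:ℝ) ≤ y2)
      have e2 := mul_le_mul_of_nonneg_left qy (by linarith : (0:ℝ) ≤ 1 - y2)
      nlinarith

/-- two large copies and a small copy of the shape -/
lemma three_reg {F T : Set ℂ} (hT : IsConvexFigure F) (hTc : IsCompact T) (h : Two F) :
    ∃ (l κ : ℝ) (a : ℂ) (A B : Set ℂ), 1 / 2 < l ∧ 0 < κ ∧ IsCopy F l A ∧
      IsCopy F l B ∧ A ⊆ F ∧ B ⊆ F ∧ (fun z => z + a) '' (κ • T) ⊆ F ∧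
      SepSets A B ∧ SepSets A ((fun z => z + a) '' (κ • T)) ∧
      SepSets B ((fun z => z + a) '' (κ • T)) := by
  have hne0 : F.Nonempty := hT.2.2.mono interior_subset
  obtain ⟨l0, A0, B0, hl0, hA0, hB0, hA0T, hB0T, hs⟩ := h
  set l := min l0 (3 / 5) with hl
  have hl1 : 1 / 2 < l := lt_min hl0 (by norm_num)
  have hl2 : l ≤ 3 / 5 := min_le_right _ _
  have hl3 : l ≤ l0 := min_le_left _ _
  obtain ⟨A, hAA, hA⟩ := copy_shrink hT.2.1 hne0 hA0 (c := l) (by linarith) hl3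
  obtain ⟨B, hBB, hB⟩ := copy_shrink hT.2.1 hne0 hB0 (c := l) (by linarith) hl3
  have hTpos := area_pos hT
  have volS : ∀ S, IsCopy F l S → volume S = ENNReal.ofReal (l ^ 2 * area F) := by
    intro S hS
    have hcS := copy_compact hT.1 hS
    obtain ⟨g, rfl⟩ := hS
    rw [← area_clone g, area, ENNReal.ofReal_toReal hcS.measure_lt_top.ne]
  have volT : volume (interior F) = ENNReal.ofReal (area F) := by
    have h1 : volume (frontier F) = 0 := hT.2.1.addHaar_frontier volume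
    have h2 : volume F = volume (interior F) := by
      have := measure_congr (interior_ae_eq_of_null_frontier h1)
      exact this.symm
    rw [← h2, area, ENNReal.ofReal_toReal hT.1.measure_lt_top.ne]
  have hne : (interior F \ (A ∪ B)).Nonempty := by
    by_contra hcon
    rw [not_nonempty_iff_eq_empty, Set.sdiff_eq_empty] at hcon
    have h1 := measure_mono (μ := volume) hcon
    have h2 := h1.trans (measure_union_le A B)
    rw [volT, volS A hA, volS B hB, ← ENNReal.ofReal_add (by positivity) (by positivity)] at h2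
    rw [ENNReal.ofReal_le_ofReal_iff (by positivity)] at h2
    nlinarith [mul_pos hTpos (sub_pos.mpr hl1)]
  obtain ⟨z, hz⟩ := hne
  have hopen : IsOpen (interior F \ (A ∪ B)) :=
    isOpen_interior.sdiff ((copy_compact hT.1 hA).isClosed.union (copy_compact hT.1 hB).isClosed)
  obtain ⟨ε, hε, hball⟩ := Metric.isOpen_iff.mp hopen z hz
  obtain ⟨R, hR⟩ := hTc.isBounded.exists_norm_le
  set R' := max R 1 with hR'
  have hR1 : 1 ≤ R' := le_max_right _ _
  have hRT : ∀ t ∈ T, ‖t‖ ≤ R' := fun t ht => (hR t ht).trans (le_max_left _ _)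
  set κ := ε / (2 * R') with hκ
  have hκ0 : 0 < κ := by positivity
  have hUp : (fun w => w + z) '' (κ • T) ⊆ Metric.ball z ε := by
    rintro _ ⟨_, ⟨t, ht, rfl⟩, rfl⟩
    rw [Metric.mem_ball, dist_eq_norm]
    have h5 := hRT t ht
    have e1 : (fun w => w + z) ((fun x => κ • x) t) - z = κ • t := by simp
    rw [e1, norm_smul, Real.norm_eq_abs, abs_of_pos hκ0]
    calc κ * ‖t‖ ≤ κ * R' := mul_le_mul_of_nonneg_left h5 hκ0.le
      _ = ε / 2 := by rw [hκ]; field_simp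
      _ < ε := by linarith
  have sepb : ∀ S, IsCopy F l S → S ⊆ A ∪ B → SepSets S ((fun w => w + z) '' (κ • T)) := by
    intro S hS hSAB
    have hdisj : Disjoint (Metric.ball z ε) S := by
      rw [Set.disjoint_left]
      intro w hw hwS
      exact (hball hw).2 (hSAB hwS)
    obtain ⟨f, t, h1, h2⟩ := geometric_hahn_banach_open (convex_ball z ε) Metric.isOpen_ball
      (hS.convex hT.2.1) hdisj
    refine SepSets.symm ⟨f, t, ?_, fun w hw => (h1 w (hUp hw)).le, h2⟩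
    rintro rfl
    obtain ⟨s, hs⟩ := copy_nonempty hne0 hS
    have := h1 z (Metric.mem_ball_self hε)
    have := h2 s hs
    simp at *
    linarith
  refine ⟨l, κ, z, A, B, hl1, hκ0, hA, hB, hAA.trans hA0T, hBB.trans hB0T, ?_,
    hs.mono hAA hBB, sepb A hA subset_union_left, sepb B hB subset_union_right⟩
  intro w hw
  exact interior_subset (hball (hUp hw)).1

theorem pack_near {u v : ℂ} {T : Set ℂ} (S : Shape u v T) : ∃ ε₀ : ℝ, 0 < ε₀ ∧
    ∀ ε : ℝ, 0 ≤ ε → ε ≤ ε₀ → ∀ (F : Set ℂ) (o' : ℂ), IsConvexFigure F → T ⊆ F → F ⊆ hom o' ε T →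
      (∀ L : List ℝ, L.Pairwise (fun a b => b ≤ a) → (∀ c ∈ L, 0 < c) → sqs L ≤ 1 / 2 →
        Pack F F L) ∧
      (Two F → ∃ δ : ℝ, 0 < δ ∧ ∀ L : List ℝ, L.Pairwise (fun a b => b ≤ a) →
        (∀ c ∈ L, 0 < c) → sqs L ≤ 1 / 2 + δ → Pack F F L) := by
  obtain ⟨δ0, hδ0, hδ⟩ := S.slack (1 / 100) (by norm_num)
  set δ1 := min δ0 (1 / 1000) with hδ1
  have d0 : 0 < δ1 := lt_min hδ0 (by norm_num)
  have d1 : δ1 ≤ δ0 := min_le_left _ _
  have d2 : δ1 ≤ 1 / 1000 := min_le_right _ _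
  refine ⟨min (1 / 1000) (δ1 / 4), lt_min (by norm_num) (by linarith), ?_⟩
  intro ε hε hε' F o' hF hTF hFT
  have e1 : ε ≤ 1 / 1000 := hε'.trans (min_le_left _ _)
  have e2 : ε ≤ δ1 / 4 := hε'.trans (min_le_right _ _)
  have P1 := place_one (δ1 := δ1) hδ hε e1 e2 d1 d2 hTF hFT
  constructor
  · intro L hs hpos hsum
    rcases P1 L hs hpos (by linarith) with h | ⟨y1, y2, L', rfl, h1, h2⟩
    · exact h
    · have hL0 := sqs_nonneg L'
      have h12 : y1 + y2 ≤ 1 := by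
        rw [sqs_cons, sqs_cons] at hsum
        by_contra hcon
        push Not at hcon
        nlinarith [sq_nonneg (y1 - y2)]
      exact place_two S hε e1 hF hTF hFT hs hpos (by linarith) h1 h2 h12
  · intro hTwo
    obtain ⟨l, κ, a, A, B, hl, hκ, hA, hB, hAT, hBT, hCT, hAB, hAC, hBC⟩ :=
      three_reg hF S.fig.1 hTwo
    have hne0 : F.Nonempty := ⟨0, hTF S.mem0⟩
    set δ := min (δ1 / 2) (min ((l - 1 / 2) ^ 2) (κ ^ 2 / 8)) with hδd
    have k1 : δ ≤ δ1 / 2 := min_le_left _ _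
    have k2 : δ ≤ (l - 1 / 2) ^ 2 := (min_le_right _ _).trans (min_le_left _ _)
    have k3 : δ ≤ κ ^ 2 / 8 := (min_le_right _ _).trans (min_le_right _ _)
    have k0 : 0 < δ := by
      have : 0 < l - 1 / 2 := by linarith
      exact lt_min (by linarith) (lt_min (by positivity) (by positivity))
    refine ⟨δ, k0, ?_⟩
    intro L hs hpos hsum
    rcases P1 L hs hpos (by linarith) with h | ⟨y1, y2, L', rfl, h1, h2⟩
    · exact h
    · by_cases h12 : y1 + y2 ≤ 1
      · exact place_two S hε e1 hF hTF hFT hs hpos (by linarith) h1 h2 h12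
      · push Not at h12
        have hL0 := sqs_nonneg L'
        have hy1 : 0 < y1 := hpos y1 (by simp)
        have hy2 : 0 < y2 := hpos y2 (by simp)
        rw [sqs_cons, sqs_cons] at hsum
        have hl' : 0 ≤ l - 1 / 2 := by linarith
        have m1 : y1 ≤ l := by
          have : |y1 - 1 / 2| ≤ l - 1 / 2 := by
            apply abs_le_of_sq_le_sq _ hl'
            nlinarith [sq_nonneg (y2 - 1 / 2)]
          have := (abs_le.mp this).2
          linarith
        have m2 : y2 ≤ l := by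
          have : |y2 - 1 / 2| ≤ l - 1 / 2 := by
            apply abs_le_of_sq_le_sq _ hl'
            nlinarith [sq_nonneg (y1 - 1 / 2)]
          have := (abs_le.mp this).2
          linarith
        have hrest : sqs L' ≤ δ := by nlinarith [sq_nonneg (y1 - y2)]
        rw [List.pairwise_cons, List.pairwise_cons] at hs
        obtain ⟨hs1, hs2, hs3⟩ := hs
        have hC : Pack F ((fun z => z + a) '' (κ • T)) L' := by
          apply pack_conv hε hFT L' (fun c hc => hpos c (by simp [hc]))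
          apply S.small κ a hκ
          · rw [List.pairwise_map]
            exact hs3.imp fun {a b} hab => mul_le_mul_of_nonneg_left hab (by linarith)
          · intro c hc
            obtain ⟨a, ha, rfl⟩ := List.mem_map.mp hc
            exact mul_pos (by linarith) (hpos a (by simp [ha]))
          · rw [sqs_map_mul]
            have h4 : (1 + ε) ^ 2 ≤ 2 := by nlinarith
            nlinarith
        obtain ⟨A', hA'A, hA'⟩ := copy_shrink hF.2.1 hne0 hA hy1 m1
        obtain ⟨B', hB'B, hB'⟩ := copy_shrink hF.2.1 hne0 hB hy2 m2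
        exact pack_three hA' hB' hC (hA'A.trans hAT) (hB'B.trans hBT) hCT (hAB.mono hA'A hB'B)
          (hAC.mono hA'A Subset.rfl) (hBC.mono hB'B Subset.rfl)

theorem near_adm {u v : ℂ} {T : Set ℂ} (S : Shape u v T) : ∃ ε₀ : ℝ, 0 < ε₀ ∧
    ∀ ε : ℝ, 0 ≤ ε → ε ≤ ε₀ → ∀ (F : Set ℂ) (o' : ℂ), IsConvexFigure F → T ⊆ F → F ⊆ hom o' ε T →
      Admissible F 2 ∧ ((∃ σ : ℝ, σ < 2 ∧ Admissible F σ) ↔ Two F) := by
  obtain ⟨ε₀, h0, H⟩ := pack_near S
  refine ⟨ε₀, h0, fun ε hε hε' F o' hF hTF hFT => ?_⟩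
  obtain ⟨h1, h2⟩ := H ε hε hε' F o' hF hTF hFT
  refine ⟨?_, ?_, ?_⟩
  · have := adm_of_pack hF (θ := 1 / 2) (by norm_num) h1
    norm_num at this
    exact this
  · rintro ⟨σ, hσ, h⟩
    exact two_of_adm hF hσ h
  · intro h
    obtain ⟨δ, hδ, h3⟩ := h2 h
    refine ⟨1 / (1 / 2 + δ), ?_, adm_of_pack hF (by linarith) h3⟩
    rw [div_lt_iff₀ (by linarith)]
    linarith

end Pool.Agent.H50.CP
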