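import Pool.Agent.H50.CP.Rot2
import Pool.Agent.H50.CP.CornerFin

set_option autoImplicit false

/-!
# A side of a near-triangle without `Two` is straight
-/

namespace Pool.Agent.H50.CP

open Pool.Agent.H90.Clone Pool.Agent.H21.Tri Complex Set Pointwise MeasureTheory Filter Topology

/-- the cross product -/
def cr (z w : ℂ) : ℝ := z.re * w.im - z.im * w.re

/-- `v` is an outer normal vector of `F` at `Q` -/
def Sup (F : Set ℂ) (Q v : ℂ) : Prop := ∀ x ∈ F, ip x v ≤ ip Q v

lemma unit_cr {z w : ℂ} (hz : ‖z‖ = 1) (hw : ‖w‖ = 1) (h1 : 0 ≤ z.re) (h2 : 0 ≤ w.re)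
    (h3 : z.im ≤ w.im) : 0 ≤ cr z w := by
  have e1 := ip_self_one hz
  have e2 := ip_self_one hw
  unfold cr
  rcases le_total 0 w.im with hw0 | hw0
  · rcases le_total 0 z.im with hz0 | hz0
    · have h4 : w.re ≤ z.re := by
        apply le_of_sq_le_sq' _ h1
        nlinarith only [h3, e1, e2, hz0]
      have h5 : w.re * z.im ≤ z.re * z.im := mul_le_mul_of_nonneg_right h4 hz0
      have h6 : z.re * z.im ≤ z.re * w.im := mul_le_mul_of_nonneg_left h3 h1
      linarith only [h5, h6]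
    · have h4 := mul_nonneg h1 hw0
      have h5 : z.im * w.re ≤ 0 := mul_nonpos_of_nonpos_of_nonneg hz0 h2
      linarith only [h4, h5]
  · have h4 : z.re ≤ w.re := by
      apply le_of_sq_le_sq' _ h2
      nlinarith only [h3, e1, e2, hw0]
    have h5 : w.re * z.im ≤ w.re * w.im := mul_le_mul_of_nonneg_left h3 h2
    have h6 : z.re * (-w.im) ≤ w.re * (-w.im) := mul_le_mul_of_nonneg_right h4 (by linarith only [hw0])
    linarith only [h5, h6]
  where
  le_of_sq_le_sq' {x y : ℝ} (h : x ^ 2 ≤ y ^ 2) (hy : 0 ≤ y) : x ≤ y :=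
    (abs_le_of_sq_le_sq' h hy).2

/-- the extreme unit outer normals at the right end of the lower side -/
structure REnd (F : Set ℂ) (Q a C : ℂ) : Prop where
  na : ‖a‖ = 1
  nC : ‖C‖ = 1
  sa : Sup F Q a
  sC : Sup F Q C
  a0 : 0 ≤ a.re
  a1 : a.re ≤ 1 / 40
  a2 : a.im < 0
  c1 : 2 / 5 ≤ C.im
  c2 : 1 / 2 ≤ C.re
  low : ∀ v : ℂ, ‖v‖ = 1 → Sup F Q v → 0 ≤ cr a v
  high : ∀ v : ℂ, ‖v‖ = 1 → Sup F Q v → 0 ≤ cr v C

lemma rend_exists {F : Set ℂ} {l : ℝ} (hl : 0 < l) (hP : (0 : ℂ) ∈ F) {R : ℂ}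
    (hR : R ∈ F) (hR1 : 9 / 20 * l ≤ R.re) (hR3 : 4 / 5 * l ≤ R.im) {n m : ℂ}
    (hn : Sup F l n) (hn1 : 50 * |n.re| ≤ -n.im) (hn0 : n.im < 0)
    (hm : Sup F l m) (hm1 : m.re ≤ 2 * m.im) (hm0 : 0 < m.re) : ∃ a C, REnd F l a C := by
  set S : Set ℂ := Metric.sphere (0 : ℂ) 1 ∩ {v | Sup F l v} with hS
  have hcl : IsClosed {v : ℂ | Sup F l v} := by
    have e : {v : ℂ | Sup F l v} = ⋂ x ∈ F, {v : ℂ | ip x v ≤ ip l v} := by
      ext v
      simp [Sup]
    rw [e]
    apply isClosed_biInter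
    intro x _
    apply isClosed_le
    · unfold ip; fun_prop
    · unfold ip; fun_prop
  have hcS : IsCompact S := (isCompact_sphere (0 : ℂ) 1).inter_right hcl
  -- scaling
  have hscale : ∀ w : ℂ, w ≠ 0 → Sup F l w → ((‖w‖⁻¹ : ℝ) : ℂ) * w ∈ S := by
    intro w hw hs
    have hpos : 0 < ‖w‖ := norm_pos_iff.mpr hw
    refine ⟨?_, ?_⟩
    · rw [mem_sphere_zero_iff_norm, norm_mul, Complex.norm_real, Real.norm_eq_abs,
        abs_of_pos (inv_pos.mpr hpos)]
      exact inv_mul_cancel₀ hpos.ne'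
    · intro x hx
      rw [ip_smul_right, ip_smul_right]
      exact mul_le_mul_of_nonneg_left (hs x hx) (inv_pos.mpr hpos).le
  have hn00 : n ≠ 0 := by
    rintro rfl
    simp at hn0
  have hm00 : m ≠ 0 := by
    rintro rfl
    simp at hm0
  have hnS := hscale n hn00 hn
  have hmS := hscale m hm00 hm
  obtain ⟨a, haS, hamin⟩ := hcS.exists_isMinOn ⟨_, hnS⟩ Complex.continuous_im.continuousOn
  obtain ⟨C, hCS, hCmax⟩ := hcS.exists_isMaxOn ⟨_, hnS⟩ Complex.continuous_im.continuousOn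
  have ha1 : ‖a‖ = 1 := mem_sphere_zero_iff_norm.mp haS.1
  have hC1 : ‖C‖ = 1 := mem_sphere_zero_iff_norm.mp hCS.1
  have hre : ∀ v, Sup F l v → 0 ≤ v.re := by
    intro v hv
    have h := hv 0 hP
    simp only [ip, zero_re, zero_im, zero_mul, add_zero, ofReal_re, ofReal_im] at h
    exact nonneg_of_mul_nonneg_right h hl
  have hnpos : 0 < ‖n‖ := norm_pos_iff.mpr hn00
  have hmpos : 0 < ‖m‖ := norm_pos_iff.mpr hm00
  have hnsq : ‖n‖ ^ 2 = n.re ^ 2 + n.im ^ 2 := by
    rw [Complex.sq_norm, Complex.normSq_apply]; ring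
  have hmsq : ‖m‖ ^ 2 = m.re ^ 2 + m.im ^ 2 := by
    rw [Complex.sq_norm, Complex.normSq_apply]; ring
  -- bound for `a`
  have e1 : a.im * ‖n‖ ≤ n.im := by
    have h : a.im ≤ (((‖n‖⁻¹ : ℝ) : ℂ) * n).im := hamin hnS
    rw [Complex.im_ofReal_mul] at h
    calc a.im * ‖n‖ ≤ ‖n‖⁻¹ * n.im * ‖n‖ := mul_le_mul_of_nonneg_right h hnpos.le
      _ = n.im := by field_simp
  have haim : a.im < 0 := by
    by_contra hc
    push Not at hc
    have := mul_nonneg hc hnpos.le
    linarith only [hn0, e1, this]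
  have hasq := ip_self_one ha1
  have hare : a.re ≤ 1 / 40 := by
    have h1 : n.im ^ 2 ≤ (a.im * ‖n‖) ^ 2 := by
      have : (-n.im) ^ 2 ≤ (-(a.im * ‖n‖)) ^ 2 := pow_le_pow_left₀ (by linarith only [hn0]) (by linarith only [e1]) 2
      linarith only [this]
    have h2 : n.re ^ 2 ≤ n.im ^ 2 / 2500 := by
      have h3 : (50 * |n.re|) ^ 2 ≤ (-n.im) ^ 2 := pow_le_pow_left₀ (by positivity) hn1 2
      rw [mul_pow, sq_abs] at h3
      linarith only [h3]
    have h4 : n.im ^ 2 ≤ a.im ^ 2 * (n.im ^ 2 * (1 + 1 / 2500)) := by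
      rw [mul_pow, hnsq] at h1
      have : a.im ^ 2 * (n.re ^ 2 + n.im ^ 2) ≤ a.im ^ 2 * (n.im ^ 2 * (1 + 1 / 2500)) := by
        apply mul_le_mul_of_nonneg_left _ (sq_nonneg _)
        linarith only [h2]
      linarith only [h1, this]
    have h5 : 0 < n.im ^ 2 := by nlinarith only [hn0]
    have h6 : 1 ≤ a.im ^ 2 * (1 + 1 / 2500) := by
      by_contra hc
      push Not at hc
      have := mul_lt_mul_of_pos_left hc h5
      linarith only [h4, this]
    have h7 : a.re ^ 2 ≤ (1 / 40) ^ 2 := by linarith only [hasq, h6]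
    exact (abs_le_of_sq_le_sq' h7 (by norm_num)).2
  -- bound for `C`
  have hmim : 0 < m.im := by linarith only [hm1, hm0]
  have e2 : m.im ≤ C.im * ‖m‖ := by
    have h : (((‖m‖⁻¹ : ℝ) : ℂ) * m).im ≤ C.im := hCmax hmS
    rw [Complex.im_ofReal_mul] at h
    calc m.im = ‖m‖⁻¹ * m.im * ‖m‖ := by field_simp
      _ ≤ C.im * ‖m‖ := mul_le_mul_of_nonneg_right h hmpos.le
  have hCim0 : 0 < C.im := by
    by_contra hc
    push Not at hc
    have := mul_nonpos_of_nonpos_of_nonneg hc hmpos.le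
    linarith only [hmim, e2, this]
  have hCim : 2 / 5 ≤ C.im := by
    have h1 : m.im ^ 2 ≤ (C.im * ‖m‖) ^ 2 := pow_le_pow_left₀ hmim.le e2 2
    have h2 : m.re ^ 2 ≤ (2 * m.im) ^ 2 := pow_le_pow_left₀ hm0.le hm1 2
    have h4 : m.im ^ 2 ≤ C.im ^ 2 * (5 * m.im ^ 2) := by
      rw [mul_pow, hmsq] at h1
      have : C.im ^ 2 * (m.re ^ 2 + m.im ^ 2) ≤ C.im ^ 2 * (5 * m.im ^ 2) := by
        apply mul_le_mul_of_nonneg_left _ (sq_nonneg _)
        linarith only [h2]
      linarith only [h1, this]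
    have h5 : 0 < m.im ^ 2 := by positivity
    have h6 : 1 ≤ C.im ^ 2 * 5 := by
      by_contra hc
      push Not at hc
      have := mul_lt_mul_of_pos_left hc h5
      linarith only [h4, this]
    by_contra hc
    push Not at hc
    nlinarith only [hmpos, hmim, e2, h6, hc]
  have hCre0 := hre C hCS.2
  have hCre : 1 / 2 ≤ C.re := by
    have h := hCS.2 R hR
    simp only [ip, ofReal_re, ofReal_im, zero_mul, add_zero] at h
    have h1 : 4 / 5 * l * (2 / 5) ≤ R.im * C.im :=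
      mul_le_mul hR3 hCim (by norm_num) (by linarith only [hl, hR3])
    have h2 : (l - R.re) * C.re ≤ 11 / 20 * l * C.re :=
      mul_le_mul_of_nonneg_right (by linarith only [hR1]) hCre0
    by_contra hc
    push Not at hc
    have h3 : 11 / 20 * l * C.re ≤ 11 / 20 * l * (1 / 2) :=
      mul_le_mul_of_nonneg_left hc.le (by positivity)
    linarith only [hl, h, h1, h2, h3]
  refine ⟨a, C, ha1, hC1, haS.2, hCS.2, hre a haS.2, hare, haim, hCim, hCre, ?_, ?_⟩
  · intro v hv hs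
    exact unit_cr ha1 hv (hre a haS.2) (hre v hs) (hamin ⟨mem_sphere_zero_iff_norm.mpr hv, hs⟩)
  · intro v hv hs
    exact unit_cr hv hC1 (hre v hs) hCre0 (hCmax ⟨mem_sphere_zero_iff_norm.mpr hv, hs⟩)

lemma cone_dec (a C w : ℂ) : ((cr a C : ℝ) : ℂ) * w = ((cr w C : ℝ) : ℂ) * a +
    ((cr a w : ℝ) : ℂ) * C := by
  apply Complex.ext
  · simp [cr]; ring
  · simp [cr]; ring

lemma cone_sup {F : Set ℂ} {Q a C w : ℂ} (ha : Sup F Q a) (hC : Sup F Q C) (h0 : 0 < cr a C)
    (h1 : 0 ≤ cr a w) (h2 : 0 ≤ cr w C) : Sup F Q w := by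
  intro x hx
  have e : ∀ z, cr a C * ip z w = cr w C * ip z a + cr a w * ip z C := by
    intro z
    rw [← ip_smul_right, cone_dec, ip_add_right, ip_smul_right, ip_smul_right]
  have h3 := mul_le_mul_of_nonneg_left (ha x hx) h2
  have h4 := mul_le_mul_of_nonneg_left (hC x hx) h1
  have h5 : cr a C * ip x w ≤ cr a C * ip Q w := by rw [e, e]; linarith only [h3, h4]
  exact le_of_mul_le_mul_left h5 h0

lemma ip_abs_le {v w : ℂ} (hv : ‖v‖ = 1) (hw : ‖w‖ = 1) : |ip v w| ≤ 1 := by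
  have e1 := ip_self_one hv
  have e2 := ip_self_one hw
  unfold ip
  rw [abs_le]
  constructor
  · linarith only [e1, e2, sq_nonneg (v.re + w.re), sq_nonneg (v.im + w.im)]
  · linarith only [e1, e2, sq_nonneg (v.re - w.re), sq_nonneg (v.im - w.im)]

/-- the inequality from `rot_gain2` at the right end -/
theorem ineq1 {F : Set ℂ} (hF : IsConvexFigure F) (h2 : ¬ Two F) {l : ℝ} (hl : 0 < l)
    (hP : (0 : ℂ) ∈ F) (hQ : (l : ℂ) ∈ F) {a C b D : ℂ} (hE : REnd F l a C) (hb : Sup F 0 b)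
    (hD : Sup F 0 D) (hb0 : b.re ≤ 0) (hb1 : b.im < 0) (hDn : ‖D‖ = 1) (hD1 : 2 / 5 ≤ D.im)
    (hD2 : D.re ≤ -(1 / 2)) (hm : 0 < a.re - b.re) :
    (b.re * a.im - a.re * b.im) * D.im * (a.re * C.im - a.im * C.re) ≤
      (-b.re) * (C.re * D.im - C.im * D.re) := by
  by_contra hcon
  push Not at hcon
  obtain ⟨S, hS⟩ : ∃ S : ℝ, S = b.re * a.im - a.re * b.im := ⟨_, rfl⟩
  obtain ⟨X, hX⟩ : ∃ X : ℝ, X = cr a C := ⟨_, rfl⟩
  obtain ⟨K, hK⟩ : ∃ K : ℝ, K = cr C D := ⟨_, rfl⟩
  have ha0 := hE.a0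
  have ha2 := hE.a2
  have hc1 := hE.c1
  have hc2 := hE.c2
  have hX' : X = a.re * C.im - a.im * C.re := by rw [hX, cr]
  have hK' : K = C.re * D.im - C.im * D.re := by rw [hK, cr]
  rw [← hS, ← hX', ← hK'] at hcon
  have hX0 : 0 < X := by
    rw [hX']
    have h3 : 0 ≤ a.re * C.im := mul_nonneg ha0 (by linarith only [hc1])
    have h4 : a.im * C.re < 0 := mul_neg_of_neg_of_pos ha2 (by linarith only [hc2])
    linarith only [h3, h4]
  have hK0 : 0 < K := by
    rw [hK']
    have h3 : 0 < C.re * D.im := mul_pos (by linarith only [hc2]) (by linarith only [hD1])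
    have h4 : C.im * D.re < 0 := mul_neg_of_pos_of_neg (by linarith only [hc1]) (by linarith only [hD2])
    linarith only [h3, h4]
  have hS0 : 0 < S := by
    rw [hS]
    have h3 : 0 ≤ b.re * a.im := mul_nonneg_of_nonpos_of_nonpos hb0 ha2.le
    have h4 : 0 ≤ a.re * (-b.im) := mul_nonneg ha0 (by linarith only [hb1])
    rcases lt_or_eq_of_le ha0 with h | h
    · have : 0 < a.re * (-b.im) := mul_pos h (by linarith only [hb1])
      linarith only [h3, this]
    · have h5 : b.re < 0 := by linarith only [hm, h]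
      have : 0 < b.re * a.im := mul_pos_of_neg_of_neg h5 ha2
      linarith only [h4, this]
  -- the parameters
  obtain ⟨κ, hκ0, hκ1, hκ2⟩ : ∃ κ : ℝ, 0 < κ ∧ l * (-b.re) / (2 * S) < κ * X ∧
      κ * K < l * D.im / 2 := by
    have h3 : l * (-b.re) / (2 * S * X) < l * D.im / (2 * K) := by
      rw [div_lt_div_iff₀ (by positivity) (by positivity)]
      nlinarith only [hl, hcon]
    have h4 : 0 ≤ l * (-b.re) / (2 * S * X) :=
      div_nonneg (mul_nonneg hl.le (by linarith only [hb0])) (by positivity)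
    refine ⟨(l * (-b.re) / (2 * S * X) + l * D.im / (2 * K)) / 2, by linarith only [h3, h4], ?_, ?_⟩
    · have h5 : l * (-b.re) / (2 * S) = l * (-b.re) / (2 * S * X) * X := by field_simp
      rw [h5]
      apply mul_lt_mul_of_pos_right _ hX0
      linarith only [h3]
    · have h5 : l * D.im / 2 = l * D.im / (2 * K) * K := by field_simp
      rw [h5]
      apply mul_lt_mul_of_pos_right _ hK0
      linarith only [h3]
  obtain ⟨t, ht0, ht1, ht2⟩ : ∃ t : ℝ, 0 < t ∧ t < κ * X - l * (-b.re) / (2 * S) ∧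
      t < l * D.im / 2 - κ * K := by
    refine ⟨min (κ * X - l * (-b.re) / (2 * S)) (l * D.im / 2 - κ * K) / 2, ?_, ?_, ?_⟩
    · have : 0 < min (κ * X - l * (-b.re) / (2 * S)) (l * D.im / 2 - κ * K) :=
        lt_min (by linarith only [hκ1]) (by linarith only [hκ2])
      linarith only [this]
    · have h3 := min_le_left (κ * X - l * (-b.re) / (2 * S)) (l * D.im / 2 - κ * K)
      linarith only [hκ1, h3]
    · have h3 := min_le_right (κ * X - l * (-b.re) / (2 * S)) (l * D.im / 2 - κ * K)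
      linarith only [hκ2, h3]
  have hlb : 0 ≤ l * (-b.re) / (2 * S) := div_nonneg (mul_nonneg hl.le (by linarith only [hb0])) (by positivity)
  set c : ℂ := (κ : ℂ) * (-(I * C)) + (t : ℂ) * C with hc
  have hcv : ∀ v, ip c v = κ * cr v C + t * ip C v := by
    intro v
    rw [hc, ip_add_left, ip_smul_left, ip_smul_left]
    congr 2
    simp [ip, cr]
    ring
  have hca : 0 < ip c a ∧ l * (-b.re) / (2 * S) < ip c a := by
    have h3 := abs_le.mp (ip_abs_le hE.nC hE.na)
    have h4 : -t ≤ t * ip C a := by nlinarith only [ht0, h3]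
    rw [hcv, ← hX]
    constructor <;> linarith
  have hcC : ip c C = t := by
    have h3 := ip_self_one hE.nC
    rw [hcv]
    have e1 : cr C C = 0 := by unfold cr; ring
    have e2 : ip C C = 1 := by unfold ip; linarith only [h3]
    rw [e1, e2]
    ring
  have hpos : ∀ v : ℂ, ‖v‖ = 1 → Sup F l v → 0 < ip c v := by
    intro v hv hs
    have h3 := hE.low v hv hs
    have h4 := hE.high v hv hs
    have e : X * ip c v = cr v C * ip c a + cr a v * ip c C := by
      rw [hX, ← ip_smul_right, cone_dec, ip_add_right, ip_smul_right, ip_smul_right]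
    rw [hcC] at e
    have h5 : 0 < cr v C ∨ 0 < cr a v := by
      by_contra hcc
      push Not at hcc
      have h6 : cr v C = 0 := le_antisymm hcc.1 h4
      have h7 : cr a v = 0 := le_antisymm hcc.2 h3
      have h8 := cone_dec a C v
      rw [h6, h7, ← hX] at h8
      have h9 : (X : ℂ) * v = 0 := by rw [h8]; simp
      rcases mul_eq_zero.mp h9 with h | h
      · have : X = 0 := by exact_mod_cast h
        exact hX0.ne' this
      · rw [h] at hv
        simp at hv
    have h10 : 0 < X * ip c v := by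
      rw [e]
      rcases h5 with h | h
      · have := mul_pos h hca.1
        have := mul_nonneg h3 ht0.le
        linarith
      · have := mul_nonneg h4 hca.1.le
        have := mul_pos h ht0
        linarith
    exact pos_of_mul_pos_right h10 hX0.le
  apply h2
  apply rot_gain2 hF (p := (l : ℂ)) (q0 := 0) (d := -D) (c := c) hQ hP
  · intro h0
    have h1 : D = 0 := by linear_combination -h0
    rw [h1] at hDn
    simp at hDn
  · -- normals
    have hlow : 0 < cr a (-D) := by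
      have e : cr a (-D) = -(a.re * D.im) + a.im * D.re := by
        simp only [cr, neg_re, neg_im]
        ring
      have h3 := ip_self_one hE.na
      have h4 := hE.a1
      have h5 : D.im ≤ 1 := by
        have := ip_self_one hDn
        nlinarith only [this]
      have h6 : a.re * D.im ≤ 1 / 40 := by nlinarith only [hD1, h4, h5]
      have h7 : a.im ≤ -(9 / 10) := by
        by_contra hcc
        push Not at hcc
        nlinarith only [ha0, ha2, h3, h4, hcc]
      have h8 : 9 / 20 ≤ a.im * D.re := by nlinarith only [hD2, h7]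
      rw [e]
      linarith only [h6, h8]
    have hhigh : 0 < cr (-D) C := by
      have e : cr (-D) C = K := by rw [hK]; simp [cr]; ring
      rw [e]
      exact hK0
    have hev : ∀ᶠ τ : ℝ in 𝓝 0, 0 < cr a (Complex.exp (τ * I) * (-D)) ∧
        0 < cr (Complex.exp (τ * I) * (-D)) C := by
      have c1 : Continuous fun τ : ℝ => cr a (Complex.exp (τ * I) * (-D)) := by
        unfold cr
        fun_prop
      have c2 : Continuous fun τ : ℝ => cr (Complex.exp (τ * I) * (-D)) C := by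
        unfold cr
        fun_prop
      have g1 := c1.tendsto 0
      have g2 := c2.tendsto 0
      have e0 : Complex.exp (((0 : ℝ) : ℂ) * I) * (-D) = -D := by simp
      rw [e0] at g1 g2
      exact (g1.eventually_const_lt hlow).and (g2.eventually_const_lt hhigh)
    rw [Metric.eventually_nhds_iff] at hev
    obtain ⟨τ₀, hτ₀, hev⟩ := hev
    refine ⟨τ₀, hτ₀, fun τ h3 h4 => ?_⟩
    have h5 := hev (y := τ) (by rw [Real.dist_eq, sub_zero, abs_of_pos h3]; exact h4)
    exact cone_sup hE.sa hE.sC (by rw [← hX]; exact hX0) h5.1.le h5.2.le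
  · intro x hx
    have := hD x hx
    simp only [ip, zero_re, zero_im, zero_mul, add_zero, neg_re, neg_im] at this ⊢
    linarith only [this]
  · have e1 : ip c (-D) = κ * K - t * ip C D := by
      rw [hcv, hK]
      simp [ip, cr]
      ring
    have e2 : ip ((l : ℂ) - 0) (I * -D) = l * D.im := by
      simp [ip]
    have h3 := abs_le.mp (ip_abs_le hE.nC hDn)
    have h4 : -(t * ip C D) ≤ t := by nlinarith only [ht0, h3]
    rw [e1, e2]
    linarith only [ht2, h4]
  · intro v hv hs f hf hfv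
    obtain ⟨Λ, hΛ⟩ : ∃ Λ : ℝ, Λ = ip (I * (f - l)) v := ⟨_, rfl⟩
    rw [← hΛ]
    have hvre := ip_self_one hv
    have hw0 : ip (f - l) v = 0 := by rw [ip_sub_left, hfv]; ring
    have hfp : f - l = -((Λ : ℂ) * (I * v)) := by
      unfold ip at hw0
      simp only [hΛ, ip]
      apply Complex.ext
      · simp at hw0 ⊢
        linear_combination (-(f.re - l)) * hvre + v.re * hw0
      · simp at hw0 ⊢
        linear_combination (-f.im) * hvre + v.im * hw0
    rcases le_or_gt Λ 0 with h3 | h3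
    · have := hpos v hv hs
      linarith only [h3, this]
    · have h4 : cr a v = 0 := by
        apply le_antisymm _ (hE.low v hv hs)
        have h5 := hE.sa f hf
        have h6 : ip (f - l) a ≤ 0 := by rw [ip_sub_left]; linarith only [h5]
        have e : ip (f - l) a = Λ * cr a v := by
          rw [hfp]
          simp [ip, cr]
          ring
        rw [e] at h6
        by_contra hcc
        push Not at hcc
        have := mul_pos h3 hcc
        linarith only [h6, this]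
      have h5 := cone_dec a C v
      rw [h4, ← hX] at h5
      have h6 : (X : ℂ) * v = ((cr v C : ℝ) : ℂ) * a := by rw [h5]; simp
      have h7 : X = cr v C := by
        have := congrArg norm h6
        rw [norm_mul, norm_mul, hv, hE.na, Complex.norm_real, Complex.norm_real, mul_one, mul_one,
          Real.norm_of_nonneg hX0.le, Real.norm_of_nonneg (hE.high v hv hs)] at this
        exact this
      have h8 : v = a := by
        rw [← h7] at h6
        have hXC : (X : ℂ) ≠ 0 := by exact_mod_cast hX0.ne'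
        exact mul_left_cancel₀ hXC h6
      subst h8
      have h9 := hb f hf
      have e1 : f = l - (Λ : ℂ) * (I * v) := by linear_combination hfp
      have e2 : ip f b = l * b.re + Λ * S := by
        rw [e1, hS]
        simp [ip]
        ring
      rw [e2] at h9
      have e3 : ip 0 b = 0 := by simp [ip]
      rw [e3] at h9
      have h10 : Λ / 2 ≤ l * (-b.re) / (2 * S) := by
        rw [le_div_iff₀ (by positivity)]
        linarith only [h9]
      linarith only [hca, h10]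

lemma side_num {P Q P' Q' cX cY sX sY : ℝ} (hP : 0 ≤ P) (hQ : 0 ≤ Q) (hP1 : P ≤ 1 / 40)
    (hQ1 : Q ≤ 1 / 40) (hP' : 0 < P') (hQ' : 0 < Q') (eP : P ^ 2 + P' ^ 2 = 1)
    (eQ : Q ^ 2 + Q' ^ 2 = 1) (h1 : 2 / 5 ≤ cX) (h2 : 2 / 5 ≤ cY) (h3 : 1 / 2 ≤ sX)
    (h4 : 1 / 2 ≤ sY) (eX : sX ^ 2 + cX ^ 2 = 1) (eY : sY ^ 2 + cY ^ 2 = 1)
    (i1 : (Q * P' + P * Q') * cX * (P * cY + P' * sY) ≤ Q * (sY * cX + cY * sX))
    (i2 : (Q * P' + P * Q') * cY * (Q * cX + Q' * sX) ≤ P * (sY * cX + cY * sX)) :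
    P + Q ≤ 0 := by
  by_contra hcon
  push Not at hcon
  obtain ⟨m, hm⟩ : ∃ m : ℝ, m = P + Q := ⟨_, rfl⟩
  obtain ⟨K, hK⟩ : ∃ K : ℝ, K = sY * cX + cY * sX := ⟨_, rfl⟩
  obtain ⟨S, hS⟩ : ∃ S : ℝ, S = Q * P' + P * Q' := ⟨_, rfl⟩
  rw [← hS, ← hK] at i1 i2
  rw [← hm] at hcon
  have hm1 : m ≤ 1 / 20 := by linarith only [hP1, hQ1, hm]
  have hm2 : m ^ 2 ≤ 1 / 400 := by nlinarith only [hP, hQ, hP1, hQ1, hm]
  have hPm : P ^ 2 ≤ m ^ 2 := pow_le_pow_left₀ hP (by linarith only [hQ, hm]) 2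
  have hQm : Q ^ 2 ≤ m ^ 2 := pow_le_pow_left₀ hQ (by linarith only [hP, hm]) 2
  have hP'1 : P' ≤ 1 := by nlinarith only [eP]
  have hQ'1 : Q' ≤ 1 := by nlinarith only [eQ]
  have hP'2 : 1 - m ^ 2 ≤ P' := by nlinarith only [hP', eP, hPm]
  have hQ'2 : 1 - m ^ 2 ≤ Q' := by nlinarith only [hQ', eQ, hQm]
  have hK0 : 0 < K := by rw [hK]; positivity
  have hK1 : K ≤ 1 := by
    rw [hK]
    linarith only [eX, eY, sq_nonneg (sY - cX), sq_nonneg (cY - sX)]
  have hS1 : m * (1 - m ^ 2) ≤ S := by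
    have g1 : Q * (1 - m ^ 2) ≤ Q * P' := mul_le_mul_of_nonneg_left hP'2 hQ
    have g2 : P * (1 - m ^ 2) ≤ P * Q' := mul_le_mul_of_nonneg_left hQ'2 hP
    have g3 : m * (1 - m ^ 2) = P * (1 - m ^ 2) + Q * (1 - m ^ 2) := by rw [hm]; ring
    rw [hS, g3]
    linarith only [g1, g2]
  obtain ⟨B, hB⟩ : ∃ B : ℝ, B = cX * cY * m + (1 - m ^ 2) * K := ⟨_, rfl⟩
  have hcc : 4 / 25 ≤ cX * cY := by nlinarith only [h1, h2]
  have hB0 : 0 ≤ B := by
    rw [hB]
    have g1 : 0 ≤ cX * cY * m := by positivity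
    have g2 : 0 ≤ (1 - m ^ 2) * K := mul_nonneg (by linarith only [hm2]) hK0.le
    linarith only [g1, g2]
  have hS0 : 0 ≤ S := le_trans (mul_nonneg hcon.le (by linarith only [hm2])) hS1
  have hBle : B ≤ cX * (P * cY + P' * sY) + cY * (Q * cX + Q' * sX) := by
    have g1 : (1 - m ^ 2) * (cX * sY) ≤ P' * (cX * sY) :=
      mul_le_mul_of_nonneg_right hP'2 (by positivity)
    have g2 : (1 - m ^ 2) * (cY * sX) ≤ Q' * (cY * sX) :=
      mul_le_mul_of_nonneg_right hQ'2 (by positivity)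
    rw [hB, hK]
    have g3 : cX * cY * m = cX * cY * P + cX * cY * Q := by rw [hm]; ring
    linarith only [g1, g2, g3]
  have h5 : S * B ≤ m * K := by
    have g1 := mul_le_mul_of_nonneg_left hBle hS0
    have g2 : m * K = Q * K + P * K := by rw [hm]; ring
    rw [g2]
    linarith only [i2, i1, g1]
  have h6 : m * (1 - m ^ 2) * B ≤ m * K := le_trans (mul_le_mul_of_nonneg_right hS1 hB0) h5
  have h7 : (1 - m ^ 2) * B ≤ K := by
    have : m * ((1 - m ^ 2) * B) ≤ m * K := by linarith only [h6]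
    exact le_of_mul_le_mul_left this hcon
  have h8 : (1 - m ^ 2) * (cX * cY * m) ≤ 2 * m ^ 2 := by
    have e : (1 - m ^ 2) * B = (1 - m ^ 2) * (cX * cY * m) + (1 - m ^ 2) ^ 2 * K := by rw [hB]; ring
    have g1 : K - (1 - m ^ 2) ^ 2 * K ≤ 2 * m ^ 2 := by
      have e2 : K - (1 - m ^ 2) ^ 2 * K = K * (m ^ 2 * (2 - m ^ 2)) := by ring
      rw [e2]
      have g2 : 0 ≤ m ^ 2 * (2 - m ^ 2) := mul_nonneg (sq_nonneg _) (by linarith only [hm2])
      have g3 : K * (m ^ 2 * (2 - m ^ 2)) ≤ 1 * (m ^ 2 * (2 - m ^ 2)) :=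
        mul_le_mul_of_nonneg_right hK1 g2
      linarith only [g3, sq_nonneg (m ^ 2)]
    linarith only [h7, e, g1]
  have h9 : (1 - m ^ 2) * (cX * cY) ≤ 2 * m := by
    have : m * ((1 - m ^ 2) * (cX * cY)) ≤ m * (2 * m) := by linarith only [h8]
    exact le_of_mul_le_mul_left this hcon
  have h10 : 399 / 400 * (4 / 25) ≤ (1 - m ^ 2) * (cX * cY) :=
    mul_le_mul (by linarith only [hm2]) hcc (by norm_num) (by linarith only [hm2])
  linarith only [hP1, hQ1, hm, h9, h10]

lemma sup_mirror {F : Set ℂ} {κ b a p : ℂ} (hκ : ‖κ‖ = 1) (h : Sup F p a) :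
    Sup (refl κ b hκ '' F) (refl κ b hκ p) (κ * (starRingEnd ℂ) a) := by
  rintro _ ⟨x, hx, rfl⟩
  rw [refl_apply, refl_apply, ip_add_left, ip_add_left, ip_refl, ip_refl, refl_invol hκ]
  have := h x hx
  linarith only [this]

/-- normalized position: the lower side from `0` to `l` is straight -/
theorem side0 {F : Set ℂ} (hF : IsConvexFigure F) (h2 : ¬ Two F) {l : ℝ} (hl : 0 < l)
    (hP : (0 : ℂ) ∈ F) (hQ : (l : ℂ) ∈ F) {R : ℂ} (hR : R ∈ F) (hR1 : 9 / 20 * l ≤ R.re)
    (hR2 : R.re ≤ 11 / 20 * l) (hR3 : 4 / 5 * l ≤ R.im) {n m n' m' : ℂ}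
    (hn : Sup F l n) (hn1 : 50 * |n.re| ≤ -n.im) (hn0 : n.im < 0)
    (hm : Sup F l m) (hm1 : m.re ≤ 2 * m.im) (hm0 : 0 < m.re)
    (hn' : Sup F 0 n') (hn1' : 50 * |n'.re| ≤ -n'.im) (hn0' : n'.im < 0)
    (hm' : Sup F 0 m') (hm1' : -m'.re ≤ 2 * m'.im) (hm0' : m'.re < 0) :
    ∀ x ∈ F, 0 ≤ x.im := by
  obtain ⟨a, C, hE⟩ := rend_exists hl hP hR hR1 hR3 hn hn1 hn0 hm hm1 hm0
  have hκ : ‖(-1 : ℂ)‖ = 1 := by simp
  set M := refl (-1) (l : ℂ) hκ with hM
  have hM0 : M 0 = (l : ℂ) := by rw [hM, refl_apply]; simp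
  have hMl : M l = 0 := by rw [hM, refl_apply]; simp
  have hFM : IsConvexFigure (M '' F) := fig_image hF M
  have h2M : ¬ Two (M '' F) := fun h => h2 (two_image hF M h)
  have hPM : (0 : ℂ) ∈ M '' F := ⟨l, hQ, hMl⟩
  have hQM : (l : ℂ) ∈ M '' F := ⟨0, hP, hM0⟩
  have tr : ∀ v, Sup F 0 v → Sup (M '' F) l (-1 * (starRingEnd ℂ) v) := by
    intro v hv
    have := sup_mirror (b := (l : ℂ)) hκ hv
    rw [← hM, hM0] at this
    exact this
  have tr' : ∀ v, Sup F l v → Sup (M '' F) 0 (-1 * (starRingEnd ℂ) v) := by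
    intro v hv
    have := sup_mirror (b := (l : ℂ)) hκ hv
    rw [← hM, hMl] at this
    exact this
  have tb : ∀ v, Sup (M '' F) l v → Sup F 0 (-1 * (starRingEnd ℂ) v) := by
    intro v hv
    apply sup_refl (b := (l : ℂ)) hκ
    rw [← hM, hM0]
    exact hv
  have ere : ∀ z : ℂ, (-1 * (starRingEnd ℂ) z).re = -z.re := by intro z; simp
  have eim : ∀ z : ℂ, (-1 * (starRingEnd ℂ) z).im = z.im := by intro z; simp
  obtain ⟨a', C', hE'⟩ := rend_exists (F := M '' F) (R := M R) hl hPM ⟨R, hR, rfl⟩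
    (by rw [hM, refl_apply, add_re, ere, ofReal_re]; linarith only [hR2])
    (by rw [hM, refl_apply, add_im, eim, ofReal_im, add_zero]; exact hR3)
    (tr n' hn') (by rw [ere, eim, abs_neg]; exact hn1') (by rw [eim]; exact hn0')
    (tr m' hm') (by rw [ere, eim]; exact hm1') (by rw [ere]; linarith only [hm0'])
  have hzero : a.re + a'.re ≤ 0 := by
    by_contra hc
    push Not at hc
    have nconj : ∀ z : ℂ, ‖-1 * (starRingEnd ℂ) z‖ = ‖z‖ := by
      intro z
      rw [norm_mul, hκ, RCLike.norm_conj, one_mul]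
    have i1 := ineq1 hF h2 hl hP hQ hE (tb a' hE'.sa) (tb C' hE'.sC)
      (by rw [ere]; linarith only [hE'.a0]) (by rw [eim]; exact hE'.a2) (by rw [nconj]; exact hE'.nC)
      (by rw [eim]; exact hE'.c1) (by rw [ere]; linarith only [hE'.c2]) (by rw [ere]; linarith only [hc])
    have i2 := ineq1 hFM h2M hl hPM hQM hE' (tr' a hE.sa) (tr' C hE.sC)
      (by rw [ere]; linarith only [hE.a0]) (by rw [eim]; exact hE.a2) (by rw [nconj]; exact hE.nC)
      (by rw [eim]; exact hE.c1) (by rw [ere]; linarith only [hE.c2]) (by rw [ere]; linarith only [hc])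
    rw [ere, ere, eim, eim] at i1 i2
    have := side_num (P := a.re) (Q := a'.re) (P' := -a.im) (Q' := -a'.im) (cX := C'.im)
      (cY := C.im) (sX := C'.re) (sY := C.re) hE.a0 hE'.a0 hE.a1 hE'.a1 (by linarith only [hE.a2])
      (by linarith only [hE'.a2]) (by rw [neg_sq]; exact ip_self_one hE.na)
      (by rw [neg_sq]; exact ip_self_one hE'.na) hE'.c1 hE.c1 hE'.c2 hE.c2
      (ip_self_one hE'.nC) (ip_self_one hE.nC) (by linarith only [i1]) (by linarith only [i2])
    linarith only [hc, this]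
  have ha0 : a.re = 0 := le_antisymm (by linarith only [hzero, hE'.a0]) hE.a0
  intro x hx
  have h3 := hE.sa x hx
  simp only [ip, ofReal_re, ofReal_im, zero_mul, add_zero, ha0, mul_zero, zero_add] at h3
  by_contra hc
  push Not at hc
  have := mul_pos_of_neg_of_neg hc hE.a2
  linarith only [h3, this]

end Pool.Agent.H50.CP
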