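import Pool.Agent.H50.CP.Side

set_option autoImplicit false

/-!
# A figure near an equilateral triangle without `Two` is an equilateral triangle
-/

namespace Pool.Agent.H50.CP

open Pool.Agent.H90.Clone Pool.Agent.H21.Tri Complex Set Pointwise MeasureTheory Filter Topology

lemma close_coord {z w : ℂ} {ε : ℝ} (h : ‖z - w‖ ≤ ε) :
    (z.re - w.re ≤ ε ∧ w.re - z.re ≤ ε) ∧ (z.im - w.im ≤ ε ∧ w.im - z.im ≤ ε) := by
  have h1 := (Complex.abs_re_le_norm (z - w)).trans h
  have h2 := (Complex.abs_im_le_norm (z - w)).trans h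
  rw [sub_re, abs_le] at h1
  rw [sub_im, abs_le] at h2
  exact ⟨⟨h1.2, by linarith only [h1]⟩, ⟨h2.2, by linarith only [h2]⟩⟩

lemma om_re : om.re = 1 / 2 := by simp [om]
lemma om_im : om.im = Real.sqrt 3 / 2 := by simp [om]

/-- the side from `P` to `Q` of a near-triangle without `Two` is straight -/
theorem side {F : Set ℂ} (hF : IsConvexFigure F) (h2 : ¬ Two F) {u P Q R : ℂ} (hu : u ≠ 0)
    (hP : P ∈ F) (hQ : Q ∈ F) (hR : R ∈ F) (e1 : ‖(Q - P) - u‖ ≤ 1 / 1000 * ‖u‖)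
    (e2 : ‖(R - P) - om * u‖ ≤ 1 / 1000 * ‖u‖) {n m n' m' : ℂ}
    (hn : Sup F Q n) (an : ‖n - -(I * u)‖ ≤ 1 / 1000 * ‖u‖)
    (hm : Sup F Q m) (am : ‖m - I * ((1 - om) * u)‖ ≤ 1 / 1000 * ‖u‖)
    (hn' : Sup F P n') (an' : ‖n' - -(I * u)‖ ≤ 1 / 1000 * ‖u‖)
    (hm' : Sup F P m') (am' : ‖m' - I * (om * u)‖ ≤ 1 / 1000 * ‖u‖) :
    (∀ x ∈ F, 0 ≤ ip (x - P) (I * (Q - P))) ∧ 0 < ip (R - P) (I * (Q - P)) := by
  obtain ⟨s, hs⟩ : ∃ s : ℝ, s = ‖u‖ := ⟨_, rfl⟩
  have hs0 : 0 < s := by rw [hs]; exact norm_pos_iff.mpr hu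
  rw [← hs] at e1 e2 an am an' am'
  obtain ⟨l, hl⟩ : ∃ l : ℝ, l = ‖Q - P‖ := ⟨_, rfl⟩
  have hl1 : |l - s| ≤ 1 / 1000 * s := by
    rw [hl, hs]
    rw [hs] at e1
    exact (abs_norm_sub_norm_le _ _).trans e1
  have hl2 := abs_le.mp hl1
  have hl0 : 0 < l := by linarith only [hs0, hl2]
  have hQP : Q - P ≠ 0 := by
    rw [← norm_pos_iff, ← hl]
    exact hl0
  have hlC : (l : ℂ) ≠ 0 := by exact_mod_cast hl0.ne'
  obtain ⟨e, he⟩ : ∃ e : ℂ, e = (Q - P) / l := ⟨_, rfl⟩
  have he1 : ‖e‖ = 1 := by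
    rw [he, norm_div, Complex.norm_real, Real.norm_of_nonneg hl0.le, ← hl, div_self hl0.ne']
  have hQPe : Q - P = (l : ℂ) * e := by rw [he]; field_simp
  obtain ⟨w, hw⟩ : ∃ w : ℂ, w = (starRingEnd ℂ) e := ⟨_, rfl⟩
  have hw1 : ‖w‖ = 1 := by rw [hw, RCLike.norm_conj, he1]
  have hwe : w * e = 1 := by
    rw [hw, mul_comm, Complex.mul_conj, Complex.normSq_eq_norm_sq, he1]
    norm_num
  set g : ℂ ≃ᵢ ℂ := (rotation ⟨w, mem_sphere_zero_iff_norm.mpr hw1⟩).toIsometryEquiv.trans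
    (IsometryEquiv.addRight (-(w * P))) with hg
  have hga : ∀ z, g z = w * (z - P) := by
    intro z
    change w * z + -(w * P) = w * (z - P)
    ring
  have hFg : IsConvexFigure (g '' F) := fig_image hF g
  have h2g : ¬ Two (g '' F) := fun h => h2 (two_image hF g h)
  have hgP : g P = 0 := by rw [hga]; simp
  have hgQ : g Q = (l : ℂ) := by
    rw [hga, hQPe]
    linear_combination (l : ℂ) * hwe
  have tr : ∀ p v, Sup F p v → Sup (g '' F) (g p) (w * v) := by
    rintro p v h _ ⟨x, hx, rfl⟩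
    rw [hga, hga, ip_rot hw1, ip_rot hw1, ip_sub_left, ip_sub_left]
    have := h x hx
    linarith only [this]
  obtain ⟨U, hU⟩ : ∃ U : ℂ, U = w * u := ⟨_, rfl⟩
  have mulw : ∀ z z' : ℂ, ‖w * z - w * z'‖ = ‖z - z'‖ := by
    intro z z'
    rw [← mul_sub, norm_mul, hw1, one_mul]
  have b1 : ‖(l : ℂ) - U‖ ≤ 1 / 1000 * s := by
    have : (l : ℂ) = w * (Q - P) := by rw [← hgQ, hga]
    rw [this, hU, mulw]
    exact e1
  have b2 : ‖w * (R - P) - om * U‖ ≤ 1 / 1000 * s := by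
    have : om * U = w * (om * u) := by rw [hU]; ring
    rw [this, mulw]
    exact e2
  have b3 : ‖w * n - -(I * U)‖ ≤ 1 / 1000 * s := by
    have : -(I * U) = w * (-(I * u)) := by rw [hU]; ring
    rw [this, mulw]
    exact an
  have b4 : ‖w * m - I * ((1 - om) * U)‖ ≤ 1 / 1000 * s := by
    have : I * ((1 - om) * U) = w * (I * ((1 - om) * u)) := by rw [hU]; ring
    rw [this, mulw]
    exact am
  have b5 : ‖w * n' - -(I * U)‖ ≤ 1 / 1000 * s := by
    have : -(I * U) = w * (-(I * u)) := by rw [hU]; ring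
    rw [this, mulw]
    exact an'
  have b6 : ‖w * m' - I * (om * U)‖ ≤ 1 / 1000 * s := by
    have : I * (om * U) = w * (I * (om * u)) := by rw [hU]; ring
    rw [this, mulw]
    exact am'
  obtain ⟨⟨c1, c2⟩, c3, c4⟩ := close_coord b1
  obtain ⟨⟨d1, d2⟩, d3, d4⟩ := close_coord b2
  obtain ⟨⟨f1, f2⟩, f3, f4⟩ := close_coord b3
  obtain ⟨⟨g1, g2⟩, g3, g4⟩ := close_coord b4
  obtain ⟨⟨k1, k2⟩, k3, k4⟩ := close_coord b5
  obtain ⟨⟨j1, j2⟩, j3, j4⟩ := close_coord b6
  obtain ⟨r1, r2⟩ := sqrt3_bounds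
  obtain ⟨r, hr⟩ : ∃ r : ℝ, r = Real.sqrt 3 / 2 := ⟨_, rfl⟩
  rw [← hr] at r1 r2
  have o1 : (om * U).re = 1 / 2 * U.re - r * U.im := by rw [mul_re, om_re, om_im, hr]
  have o2 : (om * U).im = 1 / 2 * U.im + r * U.re := by rw [mul_im, om_re, om_im, hr]
  have o3 : (-(I * U)).re = U.im := by simp
  have o4 : (-(I * U)).im = -U.re := by simp
  have o5 : (I * ((1 - om) * U)).re = r * U.re - 1 / 2 * U.im := by
    have : (I * ((1 - om) * U)) = I * (U - om * U) := by ring
    rw [this, mul_re, sub_re, sub_im, o1, o2, I_re, I_im]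
    ring
  have o6 : (I * ((1 - om) * U)).im = 1 / 2 * U.re + r * U.im := by
    have : (I * ((1 - om) * U)) = I * (U - om * U) := by ring
    rw [this, mul_im, sub_re, sub_im, o1, o2, I_re, I_im]
    ring
  have o7 : (I * (om * U)).re = -(1 / 2 * U.im + r * U.re) := by
    rw [mul_re, o1, o2, I_re, I_im]
    ring
  have o8 : (I * (om * U)).im = 1 / 2 * U.re - r * U.im := by
    rw [mul_im, o1, o2, I_re, I_im]
    ring
  rw [ofReal_re] at c1 c2
  rw [ofReal_im] at c3 c4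
  rw [o1] at d1 d2
  rw [o2] at d3 d4
  rw [o3] at f1 f2 k1 k2
  rw [o4] at f3 f4 k3 k4
  rw [o5] at g1 g2
  rw [o6] at g3 g4
  rw [o7] at j1 j2
  rw [o8] at j3 j4
  -- products with `r`
  have p1 : -(9 / 10 * (1 / 1000 * s)) ≤ r * U.im := by nlinarith only [hs0, c3, r2, r1]
  have p2 : r * U.im ≤ 9 / 10 * (1 / 1000 * s) := by nlinarith only [c3, c4, r2, r1]
  have hU0 : 0 ≤ U.re := by linarith only [hl2, c1]
  have p3 : 17 / 20 * U.re ≤ r * U.re := mul_le_mul_of_nonneg_right r1 hU0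
  have p4 : r * U.re ≤ 9 / 10 * U.re := mul_le_mul_of_nonneg_right r2 hU0
  have hRim : 4 / 5 * l ≤ (w * (R - P)).im := by linarith only [hl2, c1, c3, d4, p3]
  have key := side0 hFg h2g hl0 (by rw [← hgP]; exact ⟨P, hP, rfl⟩)
    (by rw [← hgQ]; exact ⟨Q, hQ, rfl⟩) (R := w * (R - P)) (by rw [← hga]; exact ⟨R, hR, rfl⟩)
    (by linarith only [hl2, c1, d2, p2]) (by linarith only [hl2, c2, d1, p1]) hRim
    (n := w * n) (m := w * m) (n' := w * n') (m' := w * m')
    (by rw [← hgQ]; exact tr Q n hn)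
    (by
      have : |(w * n).re| ≤ 2 / 1000 * s := by rw [abs_le]; constructor <;> linarith
      linarith only [hl2, c1, f3, this])
    (by linarith only [hl2, hl0, c1, f3])
    (by rw [← hgQ]; exact tr Q m hm)
    (by linarith only [hl2, c1, c3, g4, g1, p1, p4]) (by linarith only [hl2, hl0, c1, c4, g2, p3])
    (by rw [← hgP]; exact tr P n' hn')
    (by
      have : |(w * n').re| ≤ 2 / 1000 * s := by rw [abs_le]; constructor <;> linarith
      linarith only [hl2, c1, k3, this])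
    (by linarith only [hl2, hl0, c1, k3])
    (by rw [← hgP]; exact tr P m' hm')
    (by linarith only [hl2, c1, c4, j4, j2, p2, p4]) (by linarith only [hl2, hl0, c1, c3, j1, p3])
  have hcoord : ∀ z : ℂ, ip (z - P) (I * (Q - P)) = l * (w * (z - P)).im := by
    intro z
    rw [hQPe, hw]
    simp [ip]
    ring
  refine ⟨fun x hx => ?_, ?_⟩
  · rw [hcoord]
    have := key _ ⟨x, hx, hga x⟩
    exact mul_nonneg hl0.le this
  · rw [hcoord]
    apply mul_pos hl0
    have : 0 < 4 / 5 * l := by positivity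
    linarith only [hl2, hl0, c1, c3, d4, p3]

/-- three straight sides -/
lemma tri_of_sides {F : Set ℂ} (hF : Convex ℝ F) {P Q R : ℂ} (hP : P ∈ F) (hQ : Q ∈ F)
    (hR : R ∈ F) (h0 : 0 < ip (R - P) (I * (Q - P))) (h1 : ∀ x ∈ F, 0 ≤ ip (x - P) (I * (Q - P)))
    (h2 : ∀ x ∈ F, 0 ≤ ip (x - Q) (I * (R - Q))) (h3 : ∀ x ∈ F, 0 ≤ ip (x - R) (I * (P - R))) :
    F = Tri P (Q - P) (R - P) := by
  apply Subset.antisymm
  · intro x hx
    obtain ⟨D, hD⟩ : ∃ D : ℝ, D = ip (R - P) (I * (Q - P)) := ⟨_, rfl⟩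
    rw [← hD] at h0
    have g1 := h1 x hx
    have g2 := h2 x hx
    have g3 := h3 x hx
    refine ⟨ip (x - R) (I * (P - R)) / D, ip (x - P) (I * (Q - P)) / D, div_nonneg g3 h0.le,
      div_nonneg g1 h0.le, ?_, ?_⟩
    · rw [← add_div, div_le_one h0]
      have e : ip (x - R) (I * (P - R)) + ip (x - P) (I * (Q - P)) =
          D - ip (x - Q) (I * (R - Q)) := by
        rw [hD]
        simp [ip]
        ring
      rw [e]
      linarith only [g2]
    · have hDC : (D : ℂ) ≠ 0 := by exact_mod_cast h0.ne'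
      have e : (D : ℂ) * (x - P) = ((ip (x - R) (I * (P - R)) : ℝ) : ℂ) * (Q - P) +
          ((ip (x - P) (I * (Q - P)) : ℝ) : ℂ) * (R - P) := by
        rw [hD]
        apply Complex.ext
        · simp [ip]
          ring
        · simp [ip]
          ring
      push_cast
      field_simp
      linear_combination e
  · rintro _ ⟨x, y, hx, hy, hxy, rfl⟩
    have h4 : (1 - x - y) • P + x • Q + y • R ∈ F := by
      rcases eq_or_lt_of_le hxy with h | h
      · have e : (1 - x - y) • P + x • Q + y • R = x • Q + y • R := by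
          rw [show (1 - x - y : ℝ) = 0 by linarith only [h], zero_smul, zero_add]
        rw [e]
        exact hF hQ hR hx hy h
      · rcases eq_or_lt_of_le hy with h' | h'
        · rw [← h', zero_smul, add_zero, sub_zero]
          exact hF hP hQ (by linarith only [hy, hxy]) hx (by ring)
        · rcases eq_or_lt_of_le (show x ≤ 1 from by linarith only [h, h']) with h'' | h''
          · linarith only [h, h', h'']
          · have h5 : ((1 - x - y) / (1 - y)) • P + (x / (1 - y)) • Q ∈ F := by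
              have h6 : 0 < 1 - y := by linarith only [hx, h]
              apply hF hP hQ (div_nonneg (by linarith only [h]) h6.le) (div_nonneg hx h6.le)
              field_simp
              ring
            have h6 : 0 < 1 - y := by linarith only [hx, h]
            have h7 := hF h5 hR h6.le hy (by ring)
            rw [smul_add, smul_smul, smul_smul, mul_div_cancel₀ _ h6.ne', mul_div_cancel₀ _ h6.ne']
              at h7
            exact h7
    have e : P + (x : ℂ) * (Q - P) + (y : ℂ) * (R - P) = (1 - x - y) • P + x • Q + y • R := by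
      simp only [real_smul]
      push_cast
      ring
    rw [e]
    exact h4

/-- `F` is an equilateral triangle -/
def IsEqTri (F : Set ℂ) : Prop :=
  ∃ o u v : ℂ, u ≠ 0 ∧ ‖u‖ = ‖v‖ ∧ ‖u - v‖ = ‖u‖ ∧ F = Tri o u v

theorem tri_iso_om (o u : ℂ) (hu : u ≠ 0) : ∃ ε₀ : ℝ, 0 < ε₀ ∧
    ∀ ε : ℝ, 0 ≤ ε → ε ≤ ε₀ → ∀ (F : Set ℂ) (o' : ℂ), IsConvexFigure F → Tri o u (om * u) ⊆ F →
      F ⊆ Tri o' (((1 + ε : ℝ) : ℂ) * u) (((1 + ε : ℝ) : ℂ) * (om * u)) → ¬ Two F →
      IsEqTri F := by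
  obtain ⟨ε₀, h0, H⟩ := tri_vertices o u hu (η := 1 / 2000) (by norm_num)
  refine ⟨ε₀, h0, fun ε hε hε' F o' hF hin hout h2 => ?_⟩
  obtain ⟨⟨P, hP, pP, nP, mP, bnP, bmP, snP, smP⟩, ⟨Q, hQ, pQ, nQ, mQ, bnQ, bmQ, snQ, smQ⟩,
    ⟨R, hR, pR, nR, mR, bnR, bmR, snR, smR⟩⟩ := H ε hε hε' F o' hF hin hout h2
  have hs : 0 < ‖u‖ := norm_pos_iff.mpr hu
  have half : ∀ z : ℂ, ‖z‖ ≤ 1 / 2000 * ‖u‖ → ‖z‖ ≤ 1 / 1000 * ‖u‖ := by
    intro z hz
    linarith only [hs, hz]
  have tri_ineq : ∀ z z' y y' : ℂ, ‖z - y‖ ≤ 1 / 2000 * ‖u‖ → ‖z' - y'‖ ≤ 1 / 2000 * ‖u‖ →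
      ‖(z - z') - (y - y')‖ ≤ 1 / 1000 * ‖u‖ := by
    intro z z' y y' h1 h2
    have e : (z - z') - (y - y') = (z - y) - (z' - y') := by ring
    rw [e]
    have := norm_sub_le (z - y) (z' - y')
    linarith only [h1, h2, this]
  have hn1 : ‖om * u - u‖ = ‖u‖ := by
    have e : om * u - u = om * (om * u) := by linear_combination (-u) * om_sq
    rw [e, norm_mul, norm_mul, om_norm, one_mul, one_mul]
  have hn2 : ‖-(om * u)‖ = ‖u‖ := by rw [norm_neg, norm_mul, om_norm, one_mul]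
  have hu1 : om * u - u ≠ 0 := by rw [← norm_pos_iff, hn1]; exact hs
  have hu2 : -(om * u) ≠ 0 := by rw [← norm_pos_iff, hn2]; exact hs
  -- first side
  have s1 := side hF h2 hu hP hQ hR (n := nQ) (m := mQ) (n' := nP) (m' := mP)
    (by
      have := tri_ineq Q P (o + u) o pQ pP
      have e : (o + u) - o = u := by ring
      rwa [e] at this)
    (by
      have := tri_ineq R P (o + om * u) o pR pP
      have e : (o + om * u) - o = om * u := by ring
      rwa [e] at this)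
    snQ (half _ bnQ) smQ (half _ bmQ) snP (half _ bnP) smP (half _ bmP)
  have f1 : -(I * (om * u - u)) = I * ((1 - om) * u) := by ring
  have f2 : I * ((1 - om) * (om * u - u)) = I * (om * u) := by
    linear_combination (-(I * u)) * om_sq
  have f2' : I * (om * (om * u - u)) = -(I * u) := by
    linear_combination (I * u) * om_sq
  have f3 : -(I * -(om * u)) = I * (om * u) := by ring
  have f4 : I * ((1 - om) * -(om * u)) = -(I * u) := by
    linear_combination (I * u) * om_sq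
  have f4' : I * (om * -(om * u)) = I * ((1 - om) * u) := by
    linear_combination (-(I * u)) * om_sq
  have f5 : om * (om * u - u) = -u := by linear_combination u * om_sq
  have f6 : om * -(om * u) = u - om * u := by linear_combination (-u) * om_sq
  -- second side
  have s2 := side hF h2 hu1 hQ hR hP (n := mR) (m := nR) (n' := mQ) (m' := nQ)
    (by
      rw [hn1]
      have := tri_ineq R Q (o + om * u) (o + u) pR pQ
      have e : (o + om * u) - (o + u) = om * u - u := by ring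
      rwa [e] at this)
    (by
      rw [hn1, f5]
      have := tri_ineq P Q o (o + u) pP pQ
      have e : o - (o + u) = -u := by ring
      rwa [e] at this)
    smR (by rw [hn1, f1]; exact half _ bmR) snR (by rw [hn1, f2]; exact half _ bnR)
    smQ (by rw [hn1, f1]; exact half _ bmQ) snQ (by rw [hn1, f2']; exact half _ bnQ)
  -- third side
  have s3 := side hF h2 hu2 hR hP hQ (n := mP) (m := nP) (n' := nR) (m' := mR)
    (by
      rw [hn2]
      have := tri_ineq P R o (o + om * u) pP pR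
      have e : o - (o + om * u) = -(om * u) := by ring
      rwa [e] at this)
    (by
      rw [hn2, f6]
      have := tri_ineq Q R (o + u) (o + om * u) pQ pR
      have e : (o + u) - (o + om * u) = u - om * u := by ring
      rwa [e] at this)
    smP (by rw [hn2, f3]; exact half _ bmP) snP (by rw [hn2, f4]; exact half _ bnP)
    snR (by rw [hn2, f3]; exact half _ bnR) smR (by rw [hn2, f4']; exact half _ bmR)
  have hFe := tri_of_sides hF.2.1 hP hQ hR s1.2 s1.1 s2.1 s3.1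
  have hdet : det (Q - P) (R - P) ≠ 0 := by
    have e : det (Q - P) (R - P) = ip (R - P) (I * (Q - P)) := by
      simp [det, ip]
      ring
    rw [e]
    exact s1.2.ne'
  have hQP : Q - P ≠ 0 := by
    intro h
    rw [h] at hdet
    simp [det] at hdet
  by_contra hcon
  apply h2
  have hne : ¬ (‖Q - P‖ = ‖R - P‖ ∧ ‖(Q - P) - (R - P)‖ = ‖Q - P‖) := by
    rintro ⟨h3, h4⟩
    exact hcon ⟨P, Q - P, R - P, hQP, h3, h4, hFe⟩
  have h3 := (two_of_not_equilateral hdet hne).translate P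
  rw [← Tri_add, ← hFe] at h3
  exact h3

theorem tri_iso (o u v : ℂ) (hu : u ≠ 0) (huv : ‖u‖ = ‖v‖) (htri : ‖u - v‖ = ‖u‖) :
    ∃ ε₀ : ℝ, 0 < ε₀ ∧ ∀ ε : ℝ, 0 ≤ ε → ε ≤ ε₀ → ∀ (F : Set ℂ) (o' : ℂ), IsConvexFigure F →
      Tri o u v ⊆ F → F ⊆ Tri o' (((1 + ε : ℝ) : ℂ) * u) (((1 + ε : ℝ) : ℂ) * v) → ¬ Two F →
      IsEqTri F := by
  rcases eq_om hu huv htri with h | h
  · subst h
    exact tri_iso_om o u hu
  · have hv : v ≠ 0 := by
      rintro rfl
      simp at h
      exact hu h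
    subst h
    obtain ⟨e, p, H⟩ := tri_iso_om o v hv
    refine ⟨e, p, fun ε h1 h2 F o' hF hin hout h3 => ?_⟩
    rw [Tri_swap] at hin hout
    exact H ε h1 h2 F o' hF hin hout h3

end Pool.Agent.H50.CP
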